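import Pool.Agent.Y835.SC.Fin1

/-!
The integers `h ≤ H` such that `b + h` is coprime to a given modulus `q`: lower bound.
-/

set_option autoImplicit false

namespace Pool.Agent.Y835.SC

open Finset

open Classical in
theorem mult_card {e : ℕ} (he : 0 < e) (n Y : ℕ) :
    (((Icc 1 Y).filter (fun h => e ∣ n + h)).card : ℝ) ≤ Y / e + 1 := by
  have h1 := Pool.Agent.Y835.SB.mult_eq (P := ∅) he (by simp) n Y
  have h2 := Pool.Agent.Y835.SB.len_bd e n Y he
  have h3 : (Icc 1 Y).filter (fun h => e ∣ n + h ∧ ∀ p ∈ (∅ : Finset ℕ), ¬ p ∣ n + h) =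
      (Icc 1 Y).filter (fun h => e ∣ n + h) := by
    refine filter_congr fun h _ => ?_
    simp
  have h4 : (Icc 1 ((n + Y) / e - n / e)).filter (fun k => ∀ p ∈ (∅ : Finset ℕ), ¬ p ∣ n / e + k) =
      Icc 1 ((n + Y) / e - n / e) := by
    rw [filter_true_of_mem]
    simp
  rw [h3, h4, Nat.card_Icc, Nat.add_sub_cancel] at h1
  rw [h1]
  have := (abs_le.1 h2).2
  linarith

theorem big_card {q y : ℕ} (hq : 0 < q) :
    ((q.primeFactors.filter (fun p => y < p)).card : ℝ) * Real.log y ≤ Real.log q := by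
  have h1 : ∏ p ∈ q.primeFactors.filter (fun p => y < p), p ∣ q :=
    Finset.prod_primes_dvd q
      (fun p hp => (Nat.prime_of_mem_primeFactors (mem_filter.1 hp).1).prime)
      (fun p hp => Nat.dvd_of_mem_primeFactors (mem_filter.1 hp).1)
  have h2 : y ^ (q.primeFactors.filter (fun p => y < p)).card ≤
      ∏ p ∈ q.primeFactors.filter (fun p => y < p), p := by
    refine Finset.pow_card_le_prod _ _ _ fun p hp => ?_
    exact (mem_filter.1 hp).2.le
  have h3 := h2.trans (Nat.le_of_dvd hq h1)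
  rcases Nat.eq_zero_or_pos y with hy | hy
  · rw [hy]
    simp only [CharP.cast_eq_zero, Real.log_zero, mul_zero]
    exact Real.log_natCast_nonneg q
  rw [← Real.log_pow]
  exact Real.log_le_log (by positivity) (by exact_mod_cast h3)

theorem V_primeFactors {q : ℕ} (hq : 0 < q) : V q.primeFactors = (q.totient : ℝ) / q := by
  have h1 := Nat.totient_eq_mul_prod_factors q
  have h2 : (q.totient : ℝ) = q * ∏ p ∈ q.primeFactors, (1 - (p : ℝ)⁻¹) := by
    have h3 : ((q.totient : ℚ) : ℝ) = ((q * ∏ p ∈ q.primeFactors, (1 - (p : ℚ)⁻¹) : ℚ) : ℝ) := by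
      exact_mod_cast congrArg (fun x : ℚ => (x : ℝ)) h1
    push_cast at h3
    exact h3
  have hq0 : (q : ℝ) ≠ 0 := by exact_mod_cast hq.ne'
  rw [h2, mul_div_cancel_left₀ _ hq0]
  unfold V
  simp only [one_div]

open Classical in
/-- from the primes `≤ y` to all the primes dividing `q` -/
theorem unc_of {c1 cM ℓ : ℝ} (hc1 : 0 < c1) (hcM : 0 < cM)
    (HM : ∀ z : ℕ, 2 ≤ z → ∀ P : Finset ℕ, (∀ p ∈ P, p.Prime ∧ p ≤ z) →
      cM / Real.log z ≤ ∏ p ∈ P, (1 - 1 / (p : ℝ)))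
    {q b H y : ℕ} (hq : 0 < q) (hy : 3 ≤ y) (hqℓ : Real.log q ≤ ℓ)
    (hyℓ : 4 / (c1 * cM) * ℓ ≤ y) (hH : 4 / (c1 * cM) * ℓ ≤ H)
    (h : c1 * (H * V (q.primeFactors.filter (fun p => p ≤ y))) ≤
      (((Icc 1 H).filter (fun h => ∀ p ∈ q.primeFactors.filter (fun p => p ≤ y),
        ¬ p ∣ b + h)).card : ℝ)) :
    c1 / 2 * (H * ((q.totient : ℝ) / q)) ≤
      (((Icc 1 H).filter (fun h => (b + h).Coprime q)).card : ℝ) := by
  obtain ⟨P, hP⟩ : ∃ P, P = q.primeFactors.filter (fun p => p ≤ y) := ⟨_, rfl⟩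
  obtain ⟨Q, hQ⟩ : ∃ Q, Q = q.primeFactors.filter (fun p => y < p) := ⟨_, rfl⟩
  have hPp : ∀ p ∈ P, p.Prime ∧ p ≤ y := fun p hp => by
    rw [hP, mem_filter] at hp
    exact ⟨Nat.prime_of_mem_primeFactors hp.1, hp.2⟩
  rw [← hP] at h
  have hly : 0 < Real.log y := Real.log_pos (by exact_mod_cast (by omega : 1 < y))
  have hy0 : (0 : ℝ) < y := by exact_mod_cast (by omega : 0 < y)
  -- the inclusion
  have h1 : (Icc 1 H).filter (fun h => ∀ p ∈ P, ¬ p ∣ b + h) ⊆
      (Icc 1 H).filter (fun h => (b + h).Coprime q) ∪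
      Q.biUnion (fun p => (Icc 1 H).filter (fun h => p ∣ b + h)) := by
    intro a ha
    rw [mem_filter] at ha
    rw [mem_union, mem_biUnion]
    by_cases hc : (b + a).Coprime q
    · exact Or.inl (mem_filter.2 ⟨ha.1, hc⟩)
    · right
      obtain ⟨p, hp, h2, h3⟩ := Nat.Prime.not_coprime_iff_dvd.1 hc
      have h4 : p ∈ q.primeFactors := Nat.mem_primeFactors.2 ⟨hp, h3, hq.ne'⟩
      refine ⟨p, ?_, mem_filter.2 ⟨ha.1, h2⟩⟩
      rw [hQ, mem_filter]
      refine ⟨h4, ?_⟩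
      by_contra h5
      exact ha.2 p (by rw [hP, mem_filter]; exact ⟨h4, by omega⟩) h2
  have h2 := (card_le_card h1).trans (card_union_le _ _)
  have h3 : ((Q.biUnion (fun p => (Icc 1 H).filter (fun h => p ∣ b + h))).card : ℝ) ≤
      Q.card * (H / y + 1) := by
    refine (Nat.cast_le (α := ℝ).2 card_biUnion_le).trans ?_
    rw [Nat.cast_sum]
    refine (sum_le_card_nsmul Q _ ((H : ℝ) / y + 1) fun p hp => ?_).trans (by rw [nsmul_eq_mul])
    rw [hQ, mem_filter] at hp
    have hpp := Nat.prime_of_mem_primeFactors hp.1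
    refine (mult_card hpp.pos b H).trans ?_
    have h4 : (y : ℝ) ≤ p := by exact_mod_cast hp.2.le
    have h5 : (H : ℝ) / p ≤ H / y := div_le_div_of_nonneg_left (Nat.cast_nonneg H) hy0 h4
    linarith
  have h4 : (((Icc 1 H).filter (fun h => ∀ p ∈ P, ¬ p ∣ b + h)).card : ℝ) ≤
      (((Icc 1 H).filter (fun h => (b + h).Coprime q)).card : ℝ) +
      ((Q.biUnion (fun p => (Icc 1 H).filter (fun h => p ∣ b + h))).card : ℝ) := by
    exact_mod_cast h2
  have h5 : (Q.card : ℝ) ≤ ℓ / Real.log y := by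
    rw [le_div_iff₀ hly, hQ]
    exact (big_card hq).trans hqℓ
  have hℓ0 : 0 ≤ ℓ := (Real.log_natCast_nonneg q).trans hqℓ
  have hV : cM / Real.log y ≤ V P := HM y (by omega) P hPp
  have hcc : 0 < c1 * cM := by positivity
  have h6 : ℓ * (4 / (c1 * cM)) / y ≤ 1 := by
    rw [div_le_one hy0]; linarith
  have h7 : (Q.card : ℝ) * (H / y + 1) ≤ c1 / 2 * (H * V P) := by
    calc (Q.card : ℝ) * (H / y + 1) ≤ ℓ / Real.log y * (H / y + 1) :=
          mul_le_mul_of_nonneg_right h5 (by positivity)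
      _ = (ℓ / y * H + ℓ) / Real.log y := by field_simp
      _ ≤ (c1 * cM / 4 * H + c1 * cM / 4 * H) / Real.log y := by
          refine div_le_div_of_nonneg_right (add_le_add ?_ ?_) hly.le
          · refine mul_le_mul_of_nonneg_right ?_ (Nat.cast_nonneg H)
            rw [div_le_iff₀ hy0]
            calc ℓ = c1 * cM / 4 * (4 / (c1 * cM) * ℓ) := by field_simp
              _ ≤ _ := mul_le_mul_of_nonneg_left hyℓ (by positivity)
          · calc ℓ = c1 * cM / 4 * (4 / (c1 * cM) * ℓ) := by field_simp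
              _ ≤ _ := mul_le_mul_of_nonneg_left hH (by positivity)
      _ = c1 / 2 * (H * (cM / Real.log y)) := by ring
      _ ≤ _ := mul_le_mul_of_nonneg_left (mul_le_mul_of_nonneg_left hV (Nat.cast_nonneg H))
          (by positivity)
  have h8 : (q.totient : ℝ) / q ≤ V P := by
    rw [← V_primeFactors hq, hP]
    exact V_anti (filter_subset _ _) fun p hp => Nat.prime_of_mem_primeFactors hp
  have h9 : c1 / 2 * (H * ((q.totient : ℝ) / q)) ≤ c1 / 2 * (H * V P) :=
    mul_le_mul_of_nonneg_left (mul_le_mul_of_nonneg_left h8 (Nat.cast_nonneg H)) (by positivity)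
  linarith

end Pool.Agent.Y835.SC
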