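import Pool.Agent.Y835.SC.Per

/-!
Many integers `h ≤ U` such that `n + h` is free of the primes of `P`, if `n` is divisible by the
large primes of `P`: the construction.
-/

set_option autoImplicit false

namespace Pool.Agent.Y835.SC

open Finset

/-- the primes which have to be avoided by the cofactor -/
def Pst (P : Finset ℕ) (m₀ n z : ℕ) : Finset ℕ :=
  m₀.primeFactors ∪ P.filter (fun p => z < p ∨ p ∣ n)

/-- the primes which are sieved -/
def P1 (P : Finset ℕ) (m₀ n z : ℕ) : Finset ℕ := P.filter (fun p => p ≤ z ∧ ¬ p ∣ n ∧ ¬ p ∣ m₀)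

/-- the fixed part of the cofactor -/
def m1 (P : Finset ℕ) (m₀ n : ℕ) : ℕ := ∏ p ∈ P.filter (fun p => p ∣ m₀ ∧ ¬ p ∣ n), p

theorem m1_dvd {P : Finset ℕ} {m₀ n : ℕ} (hP : ∀ p ∈ P, p.Prime) : m1 P m₀ n ∣ m₀ :=
  Finset.prod_primes_dvd m₀ (fun p hp => (hP p (mem_filter.1 hp).1).prime)
    (fun p hp => (mem_filter.1 hp).2.1)

theorem avoid {P : Finset ℕ} {m₀ n z y m' q : ℕ} (hP : ∀ p ∈ P, p.Prime ∧ p ≤ y)
    (hm' : ∀ p ∈ Pst P m₀ n z, ¬ p ∣ m') (hq : q.Prime) (hyq : y < q)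
    (h : ∀ p ∈ P1 P m₀ n z, ¬ p ∣ m1 P m₀ n * m' → ¬ p ∣ n + m1 P m₀ n * m' * q) :
    ∀ p ∈ P, (z < p → p ∣ n) → ¬ p ∣ n + m1 P m₀ n * m' * q := by
  intro p hp hz hd
  have hpp := (hP p hp).1
  by_cases hn : p ∣ n
  · have h1 : p ∣ m1 P m₀ n * m' * q := (Nat.dvd_add_right hn).1 hd
    rcases hpp.dvd_mul.1 h1 with h2 | h2
    · rcases hpp.dvd_mul.1 h2 with h3 | h3
      · obtain ⟨p', hp', h4⟩ := (Prime.dvd_finset_prod_iff hpp.prime _).1 h3
        have h5 := mem_filter.1 hp'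
        have h6 : p = p' := (Nat.prime_dvd_prime_iff_eq hpp (hP p' h5.1).1).1 h4
        exact h5.2.2 (h6 ▸ hn)
      · exact hm' p (mem_union_right _ (mem_filter.2 ⟨hp, Or.inr hn⟩)) h3
    · have h3 := (Nat.prime_dvd_prime_iff_eq hpp hq).1 h2
      have h4 := (hP p hp).2
      omega
  · have hpz : p ≤ z := by
      by_contra hc
      exact hn (hz (by omega))
    by_cases hm : p ∣ m₀
    · have h1 : p ∣ m1 P m₀ n := dvd_prod_of_mem (fun p => p) (mem_filter.2 ⟨hp, hm, hn⟩)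
      exact hn ((Nat.dvd_add_left ((h1.mul_right m').mul_right q)).1 hd)
    · by_cases hmm : p ∣ m1 P m₀ n * m'
      · exact hn ((Nat.dvd_add_left (hmm.mul_right q)).1 hd)
      · exact h p (mem_filter.2 ⟨hp, hpz, hn, hm⟩) hmm hd

open Classical in
theorem count {P : Finset ℕ} {m₀ n z y U M : ℕ} (hP : ∀ p ∈ P, p.Prime ∧ p ≤ y) (hm₀ : 1 ≤ m₀)
    (hM : M ≤ y) :
    ∑ m' ∈ (Icc 1 M).filter (fun m' => ∀ p ∈ Pst P m₀ n z, ¬ p ∣ m'),
      ((Ioc y (U / (m1 P m₀ n * m'))).filter (fun q => q.Prime ∧ ∀ p ∈ P1 P m₀ n z,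
        ¬ p ∣ m1 P m₀ n * m' → ¬ p ∣ n + m1 P m₀ n * m' * q)).card ≤
    ((Icc 1 U).filter (fun h => ∀ p ∈ P, (z < p → p ∣ n) → ¬ p ∣ n + h)).card := by
  have hm1 : 0 < m1 P m₀ n := Nat.pos_of_dvd_of_pos (m1_dvd fun p hp => (hP p hp).1) (by omega)
  rw [← card_sigma]
  refine card_le_card_of_injOn (fun x => m1 P m₀ n * x.1 * x.2) ?_ ?_
  · rintro ⟨m', q⟩ hx
    rw [mem_coe, mem_sigma, mem_filter, mem_filter, mem_Icc, mem_Ioc] at hx
    obtain ⟨⟨⟨h1, h2⟩, h3⟩, ⟨h4, h5⟩, h6, h7⟩ := hx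
    simp only at h1 h2 h3 h4 h5 h6 h7
    rw [mem_coe, mem_filter, mem_Icc]
    refine ⟨⟨?_, ?_⟩, ?_⟩
    · exact Nat.one_le_iff_ne_zero.2 (by
        have := h6.pos
        positivity)
    · have h8 : 0 < m1 P m₀ n * m' := by positivity
      have h9 := (Nat.le_div_iff_mul_le h8).1 h5
      simp only
      rwa [mul_comm] at h9
    · exact avoid hP h3 h6 h4 h7
  · rintro ⟨m', q⟩ hx ⟨m'', q'⟩ hx' heq
    rw [mem_coe, mem_sigma, mem_filter, mem_filter, mem_Icc, mem_Ioc] at hx hx'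
    obtain ⟨⟨⟨h1, h2⟩, h3⟩, ⟨h4, h5⟩, h6, h7⟩ := hx
    obtain ⟨⟨⟨g1, g2⟩, g3⟩, ⟨g4, g5⟩, g6, g7⟩ := hx'
    simp only at h1 h2 h3 h4 h5 h6 h7 g1 g2 g3 g4 g5 g6 g7 heq
    rw [mul_assoc, mul_assoc] at heq
    have h8 : m' * q = m'' * q' := Nat.eq_of_mul_eq_mul_left hm1 heq
    have h9 : q ∣ m'' * q' := h8 ▸ Dvd.intro_left m' rfl
    have h10 : q = q' := by
      rcases h6.dvd_mul.1 h9 with h | h
      · have := Nat.le_of_dvd (by omega) h
        omega
      · exact (Nat.prime_dvd_prime_iff_eq h6 g6).1 h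
    subst h10
    have h11 : m' = m'' := Nat.eq_of_mul_eq_mul_right h6.pos h8
    subst h11
    rfl

open Classical in
theorem low : ∃ (m₀ K Y0 : ℕ) (c : ℝ), 1 ≤ m₀ ∧ 1 ≤ K ∧ 0 < c ∧ ∀ y U z M n : ℕ, Y0 ≤ y →
    10 * m₀ * y * M ≤ U → U ≤ y ^ 4 → 2 ≤ z → z ^ K ≤ y → 1 ≤ M → M ≤ y →
    ∀ P : Finset ℕ, (∀ p ∈ P, p.Prime ∧ p ≤ y) →
    c * (U * (Real.log M / Real.log y) * V (P.filter (fun p => p ≤ max z M))) ≤
      (((Icc 1 U).filter (fun h => ∀ p ∈ P, (z < p → p ∣ n) → ¬ p ∣ n + h)).card : ℝ) := by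
  obtain ⟨m₀, K, Y0, c, hm₀, -, hK, hc, H⟩ := per_m
  have hm₀' : (0 : ℝ) < m₀ := by exact_mod_cast hm₀
  have hVm : 0 < V m₀.primeFactors := V_pos fun p hp => Nat.prime_of_mem_primeFactors hp
  refine ⟨m₀, K, max Y0 2, c * V m₀.primeFactors / (2 * m₀), hm₀, hK, by positivity, ?_⟩
  intro y U z M n hy hU hUy hz hzy hM1 hMy P hP
  have hy0 : Y0 ≤ y := (le_max_left _ _).trans hy
  have hy2 : 2 ≤ y := (le_max_right _ _).trans hy
  have hPp : ∀ p ∈ P, p.Prime := fun p hp => (hP p hp).1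
  have hly : 0 < Real.log y := Real.log_pos (by exact_mod_cast (by omega : 1 < y))
  have hdm := m1_dvd (m₀ := m₀) (n := n) hPp
  have hm1 : 0 < m1 P m₀ n := Nat.pos_of_dvd_of_pos hdm (by omega)
  have hm1le : m1 P m₀ n ≤ m₀ := Nat.le_of_dvd (by omega) hdm
  have hcount := count (n := n) (z := z) (U := U) hP hm₀ hMy
  have hcount' : ∑ m' ∈ (Icc 1 M).filter (fun m' => ∀ p ∈ Pst P m₀ n z, ¬ p ∣ m'),
      (((Ioc y (U / (m1 P m₀ n * m'))).filter (fun q => q.Prime ∧ ∀ p ∈ P1 P m₀ n z,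
        ¬ p ∣ m1 P m₀ n * m' → ¬ p ∣ n + m1 P m₀ n * m' * q)).card : ℝ) ≤
      (((Icc 1 U).filter (fun h => ∀ p ∈ P, (z < p → p ∣ n) → ¬ p ∣ n + h)).card : ℝ) := by
    exact_mod_cast hcount
  refine le_trans ?_ hcount'
  have hVP1 : 0 < V (P1 P m₀ n z) := V_pos fun p hp => hPp p (mem_filter.1 hp).1
  have hper : ∀ m' ∈ (Icc 1 M).filter (fun m' => ∀ p ∈ Pst P m₀ n z, ¬ p ∣ m'),
      c * (U / (2 * m₀) / Real.log y * V (P1 P m₀ n z)) * (1 / (m' : ℝ)) ≤
      (((Ioc y (U / (m1 P m₀ n * m'))).filter (fun q => q.Prime ∧ ∀ p ∈ P1 P m₀ n z,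
        ¬ p ∣ m1 P m₀ n * m' → ¬ p ∣ n + m1 P m₀ n * m' * q)).card : ℝ) := by
    intro m' hm'
    rw [mem_filter, mem_Icc] at hm'
    obtain ⟨⟨h1, h2⟩, h3⟩ := hm'
    have hk0 : 0 < m1 P m₀ n * m' := by positivity
    have hk : m1 P m₀ n * m' ≤ m₀ * M := Nat.mul_le_mul hm1le h2
    have hv : 10 * y ≤ U / (m1 P m₀ n * m') := by
      rw [Nat.le_div_iff_mul_le hk0]
      calc 10 * y * (m1 P m₀ n * m') ≤ 10 * y * (m₀ * M) := Nat.mul_le_mul_left _ hk
        _ = 10 * m₀ * y * M := by ring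
        _ ≤ U := hU
    have h4 := H y (U / (m1 P m₀ n * m')) z (m1 P m₀ n * m') n hy0 hv
      ((Nat.div_le_self _ _).trans hUy) hz hzy (P1 P m₀ n z) (fun p hp => by
        have h5 := mem_filter.1 hp
        exact ⟨hPp p h5.1, h5.2⟩)
    refine le_trans ?_ h4
    have h5 : (U : ℝ) / (2 * (m₀ * m')) ≤ ((U / (m1 P m₀ n * m') : ℕ) : ℝ) := by
      have h6 : 1 ≤ U / (m1 P m₀ n * m') := by omega
      have h7 := Nat.lt_div_mul_add hk0 (a := U)
      have h8 : U < U / (m1 P m₀ n * m') * (m1 P m₀ n * m') + (m1 P m₀ n * m') := by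
        exact h7
      have h9 : U ≤ (U / (m1 P m₀ n * m')) * (2 * (m₀ * m')) := by
        have h10 : m1 P m₀ n * m' ≤ m₀ * m' := Nat.mul_le_mul_right _ hm1le
        have h11 : U / (m1 P m₀ n * m') * (m1 P m₀ n * m') + (m1 P m₀ n * m') ≤
            U / (m1 P m₀ n * m') * (2 * (m1 P m₀ n * m')) := by nlinarith
        have h12 : U / (m1 P m₀ n * m') * (2 * (m1 P m₀ n * m')) ≤
            U / (m1 P m₀ n * m') * (2 * (m₀ * m')) :=
          Nat.mul_le_mul_left _ (Nat.mul_le_mul_left _ h10)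
        omega
      have h13 : (0 : ℝ) < 2 * (m₀ * m') := by positivity
      rw [div_le_iff₀ h13]
      exact_mod_cast h9
    have h6 : c * (U / (2 * m₀) / Real.log y * V (P1 P m₀ n z)) * (1 / (m' : ℝ)) =
        c * (U / (2 * (m₀ * m')) / Real.log y * V (P1 P m₀ n z)) := by
      have : (0 : ℝ) < m' := by exact_mod_cast h1
      field_simp
    rw [h6]
    refine mul_le_mul_of_nonneg_left (mul_le_mul_of_nonneg_right
      (div_le_div_of_nonneg_right h5 hly.le) hVP1.le) hc.le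
  refine le_trans ?_ (sum_le_sum hper)
  rw [← mul_sum]
  -- the sum of the reciprocals
  have hPstp : ∀ p ∈ Pst P m₀ n z, p.Prime := fun p hp => by
    rcases mem_union.1 hp with h | h
    · exact Nat.prime_of_mem_primeFactors h
    · exact hPp p (mem_filter.1 h).1
  have hset : (Icc 1 M).filter (fun m' => ∀ p ∈ Pst P m₀ n z, ¬ p ∣ m') =
      (Icc 1 M).filter (fun m' => ∀ p ∈ (Pst P m₀ n z).filter (fun p => p ≤ M), ¬ p ∣ m') := by
    refine filter_congr fun m' hm' => ?_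
    rw [mem_Icc] at hm'
    constructor
    · exact fun h p hp => h p (mem_filter.1 hp).1
    · intro h p hp hd
      exact h p (mem_filter.2 ⟨hp, (Nat.le_of_dvd (by omega) hd).trans hm'.2⟩) hd
  have hfree := Pool.Agent.Y835.SB.free_sum M ((Pst P m₀ n z).filter (fun p => p ≤ M))
    (fun p hp => hPstp p (mem_filter.1 hp).1)
  rw [← hset] at hfree
  have hharm : Real.log M ≤ ∑ m ∈ Icc 1 M, 1 / (m : ℝ) := by
    have h4 : Real.log ((M : ℝ) + 1) ≤ ∑ m ∈ Icc 1 M, 1 / (m : ℝ) := by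
      have h5 := log_add_one_le_harmonic M
      rw [harmonic_eq_sum_Icc] at h5
      push_cast at h5
      simpa [one_div] using h5
    exact (Real.log_le_log (by exact_mod_cast hM1) (by linarith)).trans h4
  have hVst : 0 < V ((Pst P m₀ n z).filter (fun p => p ≤ M)) :=
    V_pos fun p hp => hPstp p (mem_filter.1 hp).1
  have hsum : V ((Pst P m₀ n z).filter (fun p => p ≤ M)) * Real.log M ≤
      ∑ m' ∈ (Icc 1 M).filter (fun m' => ∀ p ∈ Pst P m₀ n z, ¬ p ∣ m'), 1 / (m' : ℝ) :=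
    le_trans (mul_le_mul_of_nonneg_left hharm hVst.le) hfree
  -- the products
  have hdisj : Disjoint (P1 P m₀ n z) ((Pst P m₀ n z).filter (fun p => p ≤ M)) := by
    rw [disjoint_left]
    intro p hp hp'
    have h1 := mem_filter.1 hp
    have h2 := (mem_filter.1 hp').1
    rcases mem_union.1 h2 with h3 | h3
    · exact h1.2.2.2 (Nat.dvd_of_mem_primeFactors h3)
    · rcases (mem_filter.1 h3).2 with h4 | h4
      · exact absurd h4 (not_lt.2 h1.2.1)
      · exact h1.2.2.1 h4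
  have hVV : V m₀.primeFactors * V (P.filter (fun p => p ≤ max z M)) ≤
      V (P1 P m₀ n z) * V ((Pst P m₀ n z).filter (fun p => p ≤ M)) := by
    rw [← V_disj hdisj]
    refine (V_union (fun p hp => Nat.prime_of_mem_primeFactors hp)
      (fun p hp => hPp p (mem_filter.1 hp).1)).trans ?_
    refine V_anti ?_ (fun p hp => (mem_union.1 hp).elim
      (fun h => Nat.prime_of_mem_primeFactors h) (fun h => hPp p (mem_filter.1 h).1))
    intro p hp
    rcases mem_union.1 hp with h | h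
    · have h1 := mem_filter.1 h
      exact mem_union_right _ (mem_filter.2 ⟨h1.1, h1.2.1.trans (le_max_left _ _)⟩)
    · have h1 := mem_filter.1 h
      rcases mem_union.1 h1.1 with h2 | h2
      · exact mem_union_left _ h2
      · exact mem_union_right _ (mem_filter.2 ⟨(mem_filter.1 h2).1, h1.2.trans (le_max_right _ _)⟩)
  have hlM : 0 ≤ Real.log M := Real.log_nonneg (by exact_mod_cast hM1)
  calc c * V m₀.primeFactors / (2 * m₀) *
      (U * (Real.log M / Real.log y) * V (P.filter (fun p => p ≤ max z M))) =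
      c * (U / (2 * m₀) / Real.log y) * Real.log M *
        (V m₀.primeFactors * V (P.filter (fun p => p ≤ max z M))) := by
        field_simp
    _ ≤ c * (U / (2 * m₀) / Real.log y) * Real.log M *
        (V (P1 P m₀ n z) * V ((Pst P m₀ n z).filter (fun p => p ≤ M))) :=
        mul_le_mul_of_nonneg_left hVV (by positivity)
    _ = c * (U / (2 * m₀) / Real.log y * V (P1 P m₀ n z)) *
        (V ((Pst P m₀ n z).filter (fun p => p ≤ M)) * Real.log M) := by ring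
    _ ≤ _ := mul_le_mul_of_nonneg_left hsum (by positivity)

end Pool.Agent.Y835.SC
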