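import Pool.Agent.Y835.SC.Main

/-!
The covering theorem for integers, and its two corollaries.
-/

set_option autoImplicit false

namespace Pool.Agent.Y835.SC

open Finset

/-- a natural number in the residue classes of an integer -/
theorem ex_nat (P : Finset ℕ) (hP : ∀ p ∈ P, p.Prime) (n : ℤ) : ∃ N : ℕ, ∀ p ∈ P, ∀ h : ℕ,
    ((p : ℤ) ∣ n + h ↔ p ∣ N + h) := by
  obtain ⟨Q, hQ⟩ : ∃ Q : ℕ, Q = ∏ p ∈ P, p := ⟨_, rfl⟩
  have hQ0 : 0 < Q := by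
    rw [hQ]; exact prod_pos fun p hp => (hP p hp).pos
  have hQ0' : (0 : ℤ) < Q := by exact_mod_cast hQ0
  refine ⟨(n % Q).toNat, fun p hp h => ?_⟩
  have hpQ : (p : ℤ) ∣ Q := by
    rw [hQ]
    exact_mod_cast dvd_prod_of_mem (fun p => p) hp
  have h1 : (((n % Q).toNat : ℕ) : ℤ) = n % Q := Int.toNat_of_nonneg (Int.emod_nonneg _ hQ0'.ne')
  have h2 : (p : ℤ) ∣ n - n % Q := hpQ.trans (Int.dvd_self_sub_emod)
  rw [← Int.natCast_dvd_natCast]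
  push_cast
  rw [h1]
  have h3 : n + (h : ℤ) = (n % Q + h) + (n - n % Q) := by ring
  rw [h3]
  exact dvd_add_left h2

theorem dvd_zero' {P : Finset ℕ} {n : ℤ} {N : ℕ} (hN : ∀ p ∈ P, ∀ h : ℕ,
    ((p : ℤ) ∣ n + h ↔ p ∣ N + h)) {p : ℕ} (hp : p ∈ P) : (p : ℤ) ∣ n ↔ p ∣ N := by
  have := hN p hp 0
  simpa using this

open Classical in
theorem partA : ∃ (c : ℝ) (K0 Y0 : ℕ), 0 < c ∧ c ≤ 1 ∧ 2 ≤ K0 ∧ 3 ≤ Y0 ∧ ∀ y U z : ℕ, ∀ n : ℤ,
    Y0 ≤ y → K0 * y ≤ U → U ≤ y ^ 3 → 2 ≤ z → (z : ℝ) ≤ (y : ℝ) ^ c →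
    ∀ P : Finset ℕ, (∀ p ∈ P, p.Prime ∧ p ≤ y) → ∀ θ : ℝ,
    θ = Real.log ((U : ℝ) / y) / Real.log y * min 1 (Real.log ((U : ℝ) / y) / Real.log z) →
    ∑ p ∈ P.filter (fun p : ℕ => z < p ∧ ¬ (p : ℤ) ∣ n), 1 / (p : ℝ) ≤ c * θ →
    c * θ * (U * V P) ≤
      (((Icc 1 U).filter (fun h : ℕ => ∀ p ∈ P, ¬ (p : ℤ) ∣ n + h)).card : ℝ) := by
  obtain ⟨c, K0, Y0, h1, h2, h3, h4, H⟩ := main
  refine ⟨c, K0, Y0, h1, h2, h3, h4, fun y U z n hy hU hUy hz hzy P hP θ hθ hS => ?_⟩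
  obtain ⟨N, hN⟩ := ex_nat P (fun p hp => (hP p hp).1) n
  have h5 := H y U z N hy hU hUy hz hzy P hP θ hθ (by
    refine le_trans (le_of_eq ?_) hS
    refine sum_congr (filter_congr fun p hp => ?_) fun _ _ => rfl
    rw [dvd_zero' hN hp])
  refine h5.trans (le_of_eq ?_)
  congr 2
  refine filter_congr fun h _ => ?_
  exact forall₂_congr fun p hp => not_congr (hN p hp h).symm

open Classical in
theorem partU : ∃ (c : ℝ) (Y0 : ℕ), 0 < c ∧ ∀ y U : ℕ, ∀ n : ℤ, Y0 ≤ y → y ^ 3 ≤ U →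
    ∀ P : Finset ℕ, (∀ p ∈ P, p.Prime ∧ p ≤ y) →
    c * (U * V P) ≤
      (((Icc 1 U).filter (fun h : ℕ => ∀ p ∈ P, ¬ (p : ℤ) ∣ n + h)).card : ℝ) := by
  obtain ⟨c, hc, Y0, H⟩ := Pool.Agent.Y835.SB.sub_low (1 / 2) (by norm_num) (by norm_num)
  refine ⟨c, max Y0 1, hc, fun y U n hy hU P hP => ?_⟩
  have hy0 : Y0 ≤ y := (le_max_left _ _).trans hy
  have hy1 : 1 ≤ y := (le_max_right _ _).trans hy
  obtain ⟨N, hN⟩ := ex_nat P (fun p hp => (hP p hp).1) n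
  have hyU : y ≤ U := (Nat.le_self_pow (by norm_num) y).trans hU
  have h1 := H U (hy0.trans hyU) N P (fun p hp => by
    refine ⟨(hP p hp).1, ?_⟩
    have h2 : (p : ℝ) ≤ y := by exact_mod_cast (hP p hp).2
    refine h2.trans ?_
    have h3 : ((y : ℝ) ^ 3) ^ (1 / (2 + 1 / 2) : ℝ) ≤ (U : ℝ) ^ (1 / (2 + 1 / 2) : ℝ) :=
      Real.rpow_le_rpow (by positivity) (by exact_mod_cast hU) (by norm_num)
    refine le_trans ?_ h3
    rw [← Real.rpow_natCast, ← Real.rpow_mul (Nat.cast_nonneg y)]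
    have hy1' : (1 : ℝ) ≤ y := by exact_mod_cast hy1
    calc (y : ℝ) = (y : ℝ) ^ (1 : ℝ) := (Real.rpow_one _).symm
      _ ≤ _ := Real.rpow_le_rpow_of_exponent_le hy1' (by norm_num))
  refine le_trans (le_of_eq rfl) (h1.trans (le_of_eq ?_))
  congr 2
  refine filter_congr fun h _ => ?_
  exact forall₂_congr fun p hp => not_congr (hN p hp h).symm

open Classical in
theorem partB (η : ℝ) (hη : 0 < η) (hη1 : η ≤ 1) : ∃ (c : ℝ) (Y0 : ℕ), 0 < c ∧ c ≤ 1 ∧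
    ∀ y U : ℕ, ∀ n : ℤ, Y0 ≤ y → (y : ℝ) ^ (1 + η) ≤ U →
    ∀ P : Finset ℕ, (∀ p ∈ P, p.Prime ∧ p ≤ y) →
    ∑ p ∈ P.filter (fun p : ℕ => (y : ℝ) ^ c < p ∧ ¬ (p : ℤ) ∣ n), 1 / (p : ℝ) ≤ c →
    c * (U * V P) ≤
      (((Icc 1 U).filter (fun h : ℕ => ∀ p ∈ P, ¬ (p : ℤ) ∣ n + h)).card : ℝ) := by
  obtain ⟨cA, K0, YA, hcA, hcA1, hK0, hYA, HA⟩ := partA
  obtain ⟨cU, YU, hcU, HU⟩ := partU
  have hc1 : 0 < min cA η := lt_min hcA hη
  have hev1 : ∀ᶠ y : ℕ in Filter.atTop, (2 : ℝ) ≤ (y : ℝ) ^ (min cA η) :=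
    ((tendsto_rpow_atTop hc1).comp tendsto_natCast_atTop_atTop).eventually_ge_atTop _
  have hev2 : ∀ᶠ y : ℕ in Filter.atTop, (K0 : ℝ) ≤ (y : ℝ) ^ η :=
    ((tendsto_rpow_atTop hη).comp tendsto_natCast_atTop_atTop).eventually_ge_atTop _
  obtain ⟨Y1, hY1⟩ := Filter.eventually_atTop.1 (hev1.and hev2)
  refine ⟨min (cA * η) (min cU 1), max (max YA YU) Y1, by positivity,
    (min_le_right _ _).trans (min_le_right _ _), ?_⟩
  intro y U n hy hU P hP hS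
  have hc2 : min (cA * η) (min cU 1) ≤ cA * η := min_le_left _ _
  have hc3 : min (cA * η) (min cU 1) ≤ cU := (min_le_right _ _).trans (min_le_left _ _)
  have hyA : YA ≤ y := (le_max_left _ _).trans ((le_max_left _ _).trans hy)
  have hyU : YU ≤ y := (le_max_right _ _).trans ((le_max_left _ _).trans hy)
  obtain ⟨hy1, hy2⟩ := hY1 y ((le_max_right _ _).trans hy)
  have hVP : 0 < V P := V_pos fun p hp => (hP p hp).1
  rcases le_total (y ^ 3) U with hc | hc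
  · refine le_trans ?_ (HU y U n hyU hc P hP)
    exact mul_le_mul_of_nonneg_right hc3 (by positivity)
  have hy3 : 3 ≤ y := hYA.trans hyA
  have hyr : (3 : ℝ) ≤ y := by exact_mod_cast hy3
  have hy0 : (0 : ℝ) < y := by linarith
  have hly : 0 < Real.log y := Real.log_pos (by linarith)
  obtain ⟨z, hz⟩ : ∃ z : ℕ, z = ⌊(y : ℝ) ^ (min cA η)⌋₊ := ⟨_, rfl⟩
  have hz2 : 2 ≤ z := by rw [hz]; exact Nat.le_floor (by exact_mod_cast hy1)
  have hzle : (z : ℝ) ≤ (y : ℝ) ^ (min cA η) := by rw [hz]; exact Nat.floor_le (by positivity)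
  have hzy : (z : ℝ) ≤ (y : ℝ) ^ cA :=
    hzle.trans (Real.rpow_le_rpow_of_exponent_le (by linarith) (min_le_left _ _))
  have hzη : (z : ℝ) ≤ (y : ℝ) ^ η :=
    hzle.trans (Real.rpow_le_rpow_of_exponent_le (by linarith) (min_le_right _ _))
  have hUy : (y : ℝ) ^ η ≤ (U : ℝ) / y := by
    rw [le_div_iff₀ hy0]
    calc (y : ℝ) ^ η * y = (y : ℝ) ^ η * (y : ℝ) ^ (1 : ℝ) := by rw [Real.rpow_one]
      _ = (y : ℝ) ^ (1 + η) := by rw [← Real.rpow_add hy0, add_comm]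
      _ ≤ U := hU
  have hL : η * Real.log y ≤ Real.log ((U : ℝ) / y) := by
    rw [← Real.log_rpow hy0]
    exact Real.log_le_log (by positivity) hUy
  have hL0 : 0 < Real.log ((U : ℝ) / y) := lt_of_lt_of_le (by positivity) hL
  have hlz : 0 < Real.log z := Real.log_pos (by exact_mod_cast (by omega : 1 < z))
  have hlzL : Real.log z ≤ Real.log ((U : ℝ) / y) :=
    Real.log_le_log (by exact_mod_cast (by omega : 0 < z)) (hzη.trans hUy)
  have hmin : min 1 (Real.log ((U : ℝ) / y) / Real.log z) = 1 :=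
    min_eq_left (by rw [le_div_iff₀ hlz]; linarith)
  have hθ : η ≤ Real.log ((U : ℝ) / y) / Real.log y *
      min 1 (Real.log ((U : ℝ) / y) / Real.log z) := by
    rw [hmin, mul_one, le_div_iff₀ hly]
    exact hL
  have hUK : K0 * y ≤ U := by
    have h1 : (K0 * y : ℝ) ≤ U := by
      have h2 := hy2.trans hUy
      rwa [le_div_iff₀ hy0] at h2
    exact_mod_cast h1
  have h1 := HA y U z n hyA hUK hc hz2 hzy P hP _ rfl (by
    have h2 : ∑ p ∈ P.filter (fun p : ℕ => z < p ∧ ¬ (p : ℤ) ∣ n), 1 / (p : ℝ) ≤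
        ∑ p ∈ P.filter (fun p : ℕ => (y : ℝ) ^ (min (cA * η) (min cU 1)) < p ∧
          ¬ (p : ℤ) ∣ n), 1 / (p : ℝ) := by
      refine sum_le_sum_of_subset_of_nonneg (fun p hp => ?_) fun _ _ _ => by positivity
      rw [mem_filter] at hp ⊢
      refine ⟨hp.1, ?_, hp.2.2⟩
      have h3 : (y : ℝ) ^ (min cA η) < p := by
        have h4 := Nat.lt_floor_add_one ((y : ℝ) ^ (min cA η))
        rw [← hz] at h4
        have h5 : (z : ℝ) + 1 ≤ p := by exact_mod_cast hp.2.1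
        linarith
      refine lt_of_le_of_lt (Real.rpow_le_rpow_of_exponent_le (by linarith) ?_) h3
      refine hc2.trans (le_min ?_ ?_)
      · nlinarith
      · nlinarith
    refine h2.trans (hS.trans (hc2.trans ?_))
    exact mul_le_mul_of_nonneg_left hθ hcA.le)
  refine le_trans ?_ h1
  refine mul_le_mul_of_nonneg_right (hc2.trans ?_) (by positivity)
  exact mul_le_mul_of_nonneg_left hθ hcA.le

end Pool.Agent.Y835.SC
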