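import Pool.Agent.Y835.SC.Fin1

/-!
The case of all large primes up to `y / 2`.
-/

set_option autoImplicit false

namespace Pool.Agent.Y835.SC

open Finset

theorem half_sum : ∃ C : ℝ, 0 < C ∧ ∀ y : ℕ, 9 ≤ y → ∀ Q : Finset ℕ,
    (∀ p ∈ Q, p.Prime ∧ p ≤ y ∧ y < 2 * p) → ∑ p ∈ Q, 1 / (p : ℝ) ≤ C / Real.log y := by
  obtain ⟨C, hC0, hC⟩ := Pool.Agent.Helper923.HMertens.mertens_ratio
  refine ⟨2 * C + 4, by positivity, fun y hy Q hQ => ?_⟩
  obtain ⟨a, ha⟩ : ∃ a : ℕ, a = y / 2 := ⟨_, rfl⟩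
  have ha2 : 2 ≤ a := by omega
  have hay : a ≤ y := by omega
  have ha3 : y ≤ 3 * a := by omega
  have h1 := (abs_le.1 (hC a y ha2 hay)).2
  have h2 : ∑ p ∈ Q, 1 / (p : ℝ) ≤ ∑ p ∈ (Ioc a y).filter Nat.Prime, (1 : ℝ) / p :=
    sum_le_sum_of_subset_of_nonneg (fun p hp => by
      obtain ⟨h3, h4, h5⟩ := hQ p hp
      exact mem_filter.2 ⟨mem_Ioc.2 ⟨by omega, h4⟩, h3⟩) fun p _ _ => by positivity
  have hy9r : (9 : ℝ) ≤ y := by exact_mod_cast hy
  have hl3 : Real.log 3 ≤ 2 := by
    have := Real.log_le_sub_one_of_pos (show (0 : ℝ) < 3 by norm_num)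
    linarith
  have hl30 : 0 < Real.log 3 := Real.log_pos (by norm_num)
  have hly : 2 * Real.log 3 ≤ Real.log y := by
    have h3 : Real.log ((3 : ℝ) ^ 2) ≤ Real.log y :=
      Real.log_le_log (by norm_num) (by rw [show (3 : ℝ) ^ 2 = 9 by norm_num]; exact hy9r)
    rw [Real.log_pow] at h3
    exact_mod_cast h3
  have hly0 : 0 < Real.log y := by linarith
  have hla : Real.log y ≤ Real.log 3 + Real.log a := by
    have ha0 : (0 : ℝ) < a := by exact_mod_cast (by omega : 0 < a)
    rw [← Real.log_mul (by norm_num) ha0.ne']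
    exact Real.log_le_log (by linarith) (by exact_mod_cast ha3)
  have hla2 : Real.log y / 2 ≤ Real.log a := by linarith
  have hla0 : 0 < Real.log a := by linarith
  have h3 : Real.log (Real.log y / Real.log a) ≤ Real.log 3 / Real.log a := by
    have h4 := Real.log_le_sub_one_of_pos (show 0 < Real.log y / Real.log a by positivity)
    refine h4.trans ?_
    rw [div_sub_one hla0.ne']
    exact div_le_div_of_nonneg_right (by linarith) hla0.le
  have h4 : C / Real.log a + Real.log 3 / Real.log a ≤ (2 * C + 4) / Real.log y := by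
    rw [← add_div, div_le_div_iff₀ hla0 hly0]
    nlinarith
  linarith

open Classical in
theorem partC : ∃ (C c : ℝ) (Y0 : ℕ), 0 < C ∧ 0 < c ∧ ∀ y U z : ℕ, ∀ n : ℤ, Y0 ≤ y → 2 ≤ z →
    (z : ℝ) ≤ (y : ℝ) ^ c → C * y * Real.exp (C * √(Real.log z)) ≤ U →
    ∀ P : Finset ℕ, (∀ p ∈ P, p.Prime ∧ p ≤ y) → (∀ p ∈ P, z < p → 2 * p ≤ y → (p : ℤ) ∣ n) →
    ∃ h : ℕ, 1 ≤ h ∧ h ≤ U ∧ ∀ p ∈ P, ¬ (p : ℤ) ∣ n + h := by
  obtain ⟨cA, K0, YA, hcA, hcA1, hK0, hYA, HA⟩ := partA
  obtain ⟨cU, YU, hcU, HU⟩ := partU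
  obtain ⟨C1, hC1, H1⟩ := half_sum
  obtain ⟨T, hT⟩ : ∃ T : ℝ, T = C1 / cA := ⟨_, rfl⟩
  have hT0 : 0 < T := by rw [hT]; positivity
  refine ⟨max (Real.exp T) K0, cA, max (max YA YU) 9, by positivity, hcA, ?_⟩
  intro y U z n hy hz hzy hU P hP hn
  have hyA : YA ≤ y := (le_max_left _ _).trans ((le_max_left _ _).trans hy)
  have hyU : YU ≤ y := (le_max_right _ _).trans ((le_max_left _ _).trans hy)
  have hy9 : 9 ≤ y := (le_max_right _ _).trans hy
  have hVP : 0 < V P := V_pos fun p hp => (hP p hp).1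
  have hy9r : (9 : ℝ) ≤ y := by exact_mod_cast hy9
  have hy0 : (0 : ℝ) < y := by linarith
  obtain ⟨C, hC⟩ : ∃ C : ℝ, C = max (Real.exp T) K0 := ⟨_, rfl⟩
  rw [← hC] at hU
  have hCT : Real.exp T ≤ C := by rw [hC]; exact le_max_left _ _
  have hCK : (K0 : ℝ) ≤ C := by rw [hC]; exact le_max_right _ _
  have hC1' : 1 ≤ C := (Real.one_le_exp hT0.le).trans hCT
  have hC0 : 0 < C := by linarith
  have hexp : 1 ≤ Real.exp (C * √(Real.log z)) := Real.one_le_exp (by positivity)
  have hU0 : (0 : ℝ) < U := lt_of_lt_of_le (by positivity) hU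
  have key : 0 < (((Icc 1 U).filter (fun h : ℕ => ∀ p ∈ P, ¬ (p : ℤ) ∣ n + h)).card : ℝ) := by
    rcases le_total (y ^ 3) U with hc | hc
    · exact lt_of_lt_of_le (by positivity) (HU y U n hyU hc P hP)
    have hly : 0 < Real.log y := Real.log_pos (by linarith)
    have hlz : 0 < Real.log z := Real.log_pos (by exact_mod_cast (by omega : 1 < z))
    have hκ : C * Real.exp (C * √(Real.log z)) ≤ (U : ℝ) / y := by
      rw [le_div_iff₀ hy0]
      linarith
    have hL : T + C * √(Real.log z) ≤ Real.log ((U : ℝ) / y) := by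
      have h2 : Real.log (C * Real.exp (C * √(Real.log z))) ≤ Real.log ((U : ℝ) / y) :=
        Real.log_le_log (by positivity) hκ
      rw [Real.log_mul hC0.ne' (Real.exp_pos _).ne', Real.log_exp] at h2
      have h3 : T ≤ Real.log C := by
        rw [← Real.log_exp T]
        exact Real.log_le_log (Real.exp_pos _) hCT
      linarith
    have hs0 : 0 < √(Real.log z) := Real.sqrt_pos.2 hlz
    obtain ⟨L, hLd⟩ : ∃ L : ℝ, L = Real.log ((U : ℝ) / y) := ⟨_, rfl⟩
    rw [← hLd] at hL
    have hCs : 0 < C * √(Real.log z) := by positivity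
    have hLT : T ≤ L := by linarith
    have hLs : C * √(Real.log z) ≤ L := by linarith
    have hL0 : 0 < L := by linarith
    have hTC : T ≤ C := by
      have := Real.add_one_le_exp T
      linarith
    have hmin : T ≤ L * min 1 (L / Real.log z) := by
      rcases min_cases 1 (L / Real.log z) with ⟨h2, -⟩ | ⟨h2, -⟩
      · rw [h2, mul_one]; exact hLT
      · rw [h2, ← mul_div_assoc, le_div_iff₀ hlz]
        calc T * Real.log z ≤ C * C * Real.log z := by
              refine mul_le_mul_of_nonneg_right ?_ hlz.le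
              nlinarith
          _ = (C * √(Real.log z)) * (C * √(Real.log z)) := by
              have h3 := Real.mul_self_sqrt hlz.le
              calc C * C * Real.log z = C * C * (√(Real.log z) * √(Real.log z)) := by rw [h3]
                _ = _ := by ring
          _ ≤ L * L := mul_le_mul hLs hLs hCs.le hL0.le
    have hmin0 : 0 < min 1 (L / Real.log z) := lt_min one_pos (by positivity)
    have hUK : K0 * y ≤ U := by
      have h2 : (K0 * y : ℝ) ≤ U := by
        refine le_trans ?_ hU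
        calc (K0 : ℝ) * y ≤ C * y := mul_le_mul_of_nonneg_right hCK hy0.le
          _ = C * y * 1 := (mul_one _).symm
          _ ≤ _ := mul_le_mul_of_nonneg_left hexp (by positivity)
      exact_mod_cast h2
    have h2 := HA y U z n hyA hUK hc hz hzy P hP (L / Real.log y * min 1 (L / Real.log z))
      (by rw [hLd]) (by
        refine (H1 y hy9 _ fun p hp => ?_).trans ?_
        · rw [mem_filter] at hp
          refine ⟨(hP p hp.1).1, (hP p hp.1).2, ?_⟩
          by_contra hcon
          exact hp.2.2 (hn p hp.1 hp.2.1 (by omega))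
        · rw [div_le_iff₀ hly]
          calc C1 = cA * T := by rw [hT]; field_simp
            _ ≤ cA * (L * min 1 (L / Real.log z)) := mul_le_mul_of_nonneg_left hmin hcA.le
            _ = cA * (L / Real.log y * min 1 (L / Real.log z)) * Real.log y := by
                field_simp)
    exact lt_of_lt_of_le (by positivity) h2
  have h3 : 0 < ((Icc 1 U).filter (fun h : ℕ => ∀ p ∈ P, ¬ (p : ℤ) ∣ n + h)).card := by
    exact_mod_cast key
  obtain ⟨h, hh⟩ := card_pos.1 h3
  rw [mem_filter, mem_Icc] at hh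
  exact ⟨h, hh.1.1, hh.1.2, hh.2⟩

end Pool.Agent.Y835.SC
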