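import Pool.Agent.Y835.SC.SLog
import Pool.Agent.Y835.SB.Cnt

/-!
Upper bounds for the primes `N + h` and the pairs of primes `N + h, N + h'` with `N` in a residue
class modulo `q`, in logarithmic measure.
-/

set_option autoImplicit false

namespace Pool.Agent.Y835.SC

open Finset Pool.Agent.TH423.SH

/-- the integers `N` in `(X / 2, X ^ K]` with `N ≡ b (mod q)` -/
def II (X K q b : ℕ) : Finset ℕ := (Ioc (X / 2) (X ^ K)).filter (fun N => N % q = b % q)

theorem mem_II {X K q b N : ℕ} : N ∈ II X K q b ↔ (X / 2 < N ∧ N ≤ X ^ K) ∧ N % q = b % q := by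
  unfold II
  rw [mem_filter, mem_Ioc]

open Classical in
theorem tot (K : ℕ) : ∃ (C : ℝ) (X0 : ℕ), 0 < C ∧ ∀ X : ℕ, X0 ≤ X → ∀ q b : ℕ, 1 ≤ q →
    q ^ 16 ≤ X → ∑ N ∈ II X K q b, 1 / (N : ℝ) ≤ C * (Real.log X / q) := by
  obtain ⟨W0, C, hW0, hC, X0, H⟩ := sieve_log 0 K
  refine ⟨C, X0, hC, fun X hX q b hq hqX => ?_⟩
  obtain ⟨R, hR, H2⟩ := H X hX
  have h1 := H2 q 1 b hq hqX le_rfl (fun _ => ∅) (fun p _ => ⟨Nat.zero_le _, fun _ => by simp,
    by simp⟩)
  have h2 : (Ioc (X / 2) (X ^ K)).filter (fun N => N % q = b % q ∧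
      ∀ p ∈ PS (W0 * (q * 1)) R, N % p ∉ (∅ : Finset ℕ)) = II X K q b := by
    unfold II
    refine filter_congr fun N _ => ?_
    simp
  rw [h2, pow_zero, pow_zero, mul_one, mul_one] at h1
  refine h1.trans (le_of_eq ?_)
  ring

open Classical in
theorem single (K : ℕ) : ∃ (C : ℝ) (X0 : ℕ), 0 < C ∧ ∀ X : ℕ, X0 ≤ X → ∀ q b h : ℕ, 1 ≤ q →
    q ^ 16 ≤ X → ∑ N ∈ (II X K q b).filter (fun N => (N + h).Prime), 1 / (N : ℝ) ≤
      C * (ra q / q) := by
  obtain ⟨W0, C, hW0, hC, X0, H⟩ := sieve_log 1 K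
  refine ⟨C * ra 1, max X0 3, mul_pos hC (ra_pos le_rfl), fun X hX q b h hq hqX => ?_⟩
  obtain ⟨R, hR, H2⟩ := H X ((le_max_left _ _).trans hX)
  have hX3 : 3 ≤ X := (le_max_right _ _).trans hX
  have hlX : 0 < Real.log X := Real.log_pos (by exact_mod_cast (by omega : 1 < X))
  have h1 := H2 q 1 b hq hqX le_rfl (fun p => (range p).filter (fun c => p ∣ h + c)) (fun p hp => by
    have hpp : p.Prime := (mem_filter.1 hp).2.1
    exact ⟨hpp.one_le, fun _ => Pool.Agent.Y835.SB.one_class' hpp h _,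
      fun c hc => mem_range.1 (mem_filter.1 hc).1⟩)
  have h2 : (II X K q b).filter (fun N => (N + h).Prime) ⊆
      (Ioc (X / 2) (X ^ K)).filter (fun N => N % q = b % q ∧
      ∀ p ∈ PS (W0 * (q * 1)) R, N % p ∉ (range p).filter (fun c => p ∣ h + c)) := by
    intro N hN
    rw [mem_filter, mem_II] at hN
    rw [mem_filter, mem_Ioc]
    refine ⟨hN.1.1, hN.1.2, fun p hp hmem => ?_⟩
    have hpp := (mem_filter.1 hp).2.1
    have hpR := (mem_Icc.1 (mem_filter.1 hp).1).2
    have h3 := (mem_filter.1 hmem).2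
    have h4 : p ∣ N + h := by
      have h5 : N + h = p * (N / p) + (h + N % p) := by
        have := Nat.mod_add_div N p
        omega
      rw [h5]
      exact dvd_add (dvd_mul_right _ _) h3
    have h5 := (Nat.prime_dvd_prime_iff_eq hpp hN.2).1 h4
    omega
  refine (sum_le_sum_of_subset_of_nonneg h2 fun _ _ _ => by positivity).trans (h1.trans
    (le_of_eq ?_))
  have hq0 : (0 : ℝ) < q := by exact_mod_cast hq
  rw [pow_one, pow_one]
  field_simp

open Classical in
theorem pairl (K : ℕ) : ∃ (C : ℝ) (X0 : ℕ), 0 < C ∧ ∀ X : ℕ, X0 ≤ X → ∀ q b h h' : ℕ, 1 ≤ q →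
    q ^ 16 ≤ X → h' ≠ h →
    ∑ N ∈ (II X K q b).filter (fun N => (N + h).Prime ∧ (N + h').Prime), 1 / (N : ℝ) ≤
      C * (ra q ^ 2 / (q * Real.log X) * ra (Nat.dist h h') ^ 2) := by
  obtain ⟨W0, C, hW0, hC, X0, H⟩ := sieve_log 2 K
  refine ⟨C, max X0 3, hC, fun X hX q b h h' hq hqX hne => ?_⟩
  obtain ⟨R, hR, H2⟩ := H X ((le_max_left _ _).trans hX)
  have hX3 : 3 ≤ X := (le_max_right _ _).trans hX
  have hlX : 0 < Real.log X := Real.log_pos (by exact_mod_cast (by omega : 1 < X))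
  have hk : 1 ≤ Nat.dist h h' := by
    rw [Nat.one_le_iff_ne_zero]
    exact fun h5 => hne (Nat.eq_of_dist_eq_zero h5).symm
  have h1 := H2 q (Nat.dist h h') b hq hqX hk
    (fun p => (range p).filter (fun c => p ∣ h + c) ∪ (range p).filter (fun c => p ∣ h' + c))
    (fun p hp => by
    have hpp : p.Prime := (mem_filter.1 hp).2.1
    have hpn : ¬ p ∣ Nat.dist h h' := fun hd =>
      (mem_filter.1 hp).2.2 ((hd.mul_left q).mul_left W0)
    refine ⟨hpp.two_le, fun _ => ?_, fun c hc => ?_⟩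
    · rw [card_union_of_disjoint, Pool.Agent.Y835.SB.one_class' hpp h _,
        Pool.Agent.Y835.SB.one_class' hpp h' _]
      rw [disjoint_left]
      intro c hc hc'
      have h3 := (mem_filter.1 hc).2
      have h4 := (mem_filter.1 hc').2
      apply hpn
      rcases le_total h h' with h5 | h5
      · rw [Nat.dist_eq_sub_of_le h5]
        have h6 := Nat.dvd_sub h4 h3
        have h7 : h' + c - (h + c) = h' - h := by omega
        rwa [h7] at h6
      · rw [Nat.dist_eq_sub_of_le_right h5]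
        have h6 := Nat.dvd_sub h3 h4
        have h7 : h + c - (h' + c) = h - h' := by omega
        rwa [h7] at h6
    · rcases mem_union.1 hc with h3 | h3
      · exact mem_range.1 (mem_filter.1 h3).1
      · exact mem_range.1 (mem_filter.1 h3).1)
  have h2 : (II X K q b).filter (fun N => (N + h).Prime ∧ (N + h').Prime) ⊆
      (Ioc (X / 2) (X ^ K)).filter (fun N => N % q = b % q ∧
      ∀ p ∈ PS (W0 * (q * Nat.dist h h')) R, N % p ∉ (range p).filter (fun c => p ∣ h + c) ∪
        (range p).filter (fun c => p ∣ h' + c)) := by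
    intro N hN
    rw [mem_filter, mem_II] at hN
    rw [mem_filter, mem_Ioc]
    refine ⟨hN.1.1, hN.1.2, fun p hp hmem => ?_⟩
    have hpp := (mem_filter.1 hp).2.1
    have hpR := (mem_Icc.1 (mem_filter.1 hp).1).2
    have key : ∀ g : ℕ, (N + g).Prime → N % p ∈ (range p).filter (fun c => p ∣ g + c) → False := by
      intro g hg hgm
      have h3 := (mem_filter.1 hgm).2
      have h4 : p ∣ N + g := by
        have h5 : N + g = p * (N / p) + (g + N % p) := by
          have := Nat.mod_add_div N p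
          omega
        rw [h5]
        exact dvd_add (dvd_mul_right _ _) h3
      have h5 := (Nat.prime_dvd_prime_iff_eq hpp hg).1 h4
      omega
    rcases mem_union.1 hmem with h3 | h3
    · exact key h hN.2.1 h3
    · exact key h' hN.2.2 h3
  refine (sum_le_sum_of_subset_of_nonneg h2 fun _ _ _ => by positivity).trans (h1.trans
    (le_of_eq ?_))
  have hq0 : (0 : ℝ) < q := by exact_mod_cast hq
  field_simp

end Pool.Agent.Y835.SC
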