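import Pool.Agent.Y835.SC.Unc

/-!
The integers `h ≤ H` such that `b + h` is coprime to a given modulus `q ≤ X`, where `H` is at least
`(log X) ^ (2 + η)`, or at least `(log X) ^ (1 + η)` if `b` is divisible by most of the prime factors
of `q`.
-/

set_option autoImplicit false

namespace Pool.Agent.Y835.SC

open Finset

open Classical in
theorem unc_low (η : ℝ) (hη : 0 < η) (hη1 : η ≤ 1) : ∃ (c : ℝ) (X0 : ℕ), 0 < c ∧ c ≤ 1 ∧
    ∀ X : ℕ, X0 ≤ X → ∀ q b H : ℕ, 0 < q → q ≤ X →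
    (Real.log X ^ (2 + η) ≤ H ∨ (Real.log X ^ (1 + η) ≤ H ∧
      ∑ p ∈ q.primeFactors.filter (fun p : ℕ => Real.log X ^ c < p ∧ ¬ p ∣ b), 1 / (p : ℝ) ≤ c)) →
    c * (H * ((q.totient : ℝ) / q)) ≤
      (((Icc 1 H).filter (fun h => (b + h).Coprime q)).card : ℝ) := by
  obtain ⟨cs, hcs, Ys, Hs⟩ := Pool.Agent.Y835.SB.sub_low (η / 2) (by positivity) (by linarith)
  obtain ⟨cB, YB, hcB, hcB1, HB⟩ := partB (η / 2) (by positivity) (by linarith)
  obtain ⟨cM, hcM, HM⟩ := Pool.Agent.Y835.SB.prod_ge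
  obtain ⟨c1, hc1⟩ : ∃ c1, c1 = min cs cB := ⟨_, rfl⟩
  have hc10 : 0 < c1 := by rw [hc1]; exact lt_min hcs hcB
  have hc1s : c1 ≤ cs := by rw [hc1]; exact min_le_left _ _
  have hc1B : c1 ≤ cB := by rw [hc1]; exact min_le_right _ _
  obtain ⟨A, hA⟩ : ∃ A, A = 4 / (c1 * cM) + 1 := ⟨_, rfl⟩
  have hA4 : 0 < 4 / (c1 * cM) := by positivity
  have hA1 : 1 ≤ A := by rw [hA]; linarith
  obtain ⟨δ, hδ⟩ : ∃ δ : ℝ, δ = (2 + η) / (2 + η / 2) - 1 := ⟨_, rfl⟩
  have hδ0 : 0 < δ := by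
    rw [hδ, sub_pos, one_lt_div (by positivity)]
    linarith
  have hev : ∀ᶠ ℓ : ℝ in Filter.atTop, 3 ≤ ℓ ∧ (2 * A) ^ (1 + η / 2) ≤ ℓ ^ (η / 2) ∧
      2 * A ≤ ℓ ^ δ ∧ A ≤ ℓ ^ η ∧ (YB : ℝ) ≤ ℓ ∧ (Ys : ℝ) ≤ ℓ :=
    (Filter.eventually_ge_atTop 3).and
      (((tendsto_rpow_atTop (by positivity)).eventually_ge_atTop _).and
      (((tendsto_rpow_atTop hδ0).eventually_ge_atTop _).and
      (((tendsto_rpow_atTop hη).eventually_ge_atTop _).and
      ((Filter.eventually_ge_atTop _).and (Filter.eventually_ge_atTop _)))))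
  have hev2 := (Real.tendsto_log_atTop.comp
    (tendsto_natCast_atTop_atTop (R := ℝ))).eventually hev
  obtain ⟨X0, hX0⟩ := Filter.eventually_atTop.1 hev2
  refine ⟨c1 / 2, max X0 1, by positivity, by linarith, ?_⟩
  intro X hX q b H hq hqX hH
  obtain ⟨h3, e3, e4, e5, e6, e7⟩ := hX0 X ((le_max_left _ _).trans hX)
  simp only [Function.comp] at h3 e3 e4 e5 e6 e7
  obtain ⟨ℓ, hℓ⟩ : ∃ ℓ, ℓ = Real.log X := ⟨_, rfl⟩
  rw [← hℓ] at h3 e3 e4 e5 e6 e7 hH
  have hℓ0 : 0 < ℓ := by linarith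
  have hℓ1 : 1 ≤ ℓ := by linarith
  have hqℓ : Real.log q ≤ ℓ := by
    rw [hℓ]
    exact Real.log_le_log (by exact_mod_cast hq) (by exact_mod_cast hqX)
  obtain ⟨y, hy⟩ : ∃ y : ℕ, y = ⌈A * ℓ⌉₊ := ⟨_, rfl⟩
  have hyA : A * ℓ ≤ y := by rw [hy]; exact Nat.le_ceil _
  have hAℓ : ℓ ≤ A * ℓ := by nlinarith
  have hy3 : 3 ≤ y := by
    have : (3 : ℝ) ≤ y := by linarith
    exact_mod_cast this
  have hy2 : (y : ℝ) ≤ 2 * A * ℓ := by
    have h5 : (y : ℝ) < A * ℓ + 1 := by rw [hy]; exact Nat.ceil_lt_add_one (by positivity)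
    linarith
  have hH1 : ℓ ^ (1 + η) ≤ H := by
    rcases hH with h | h
    · exact (Real.rpow_le_rpow_of_exponent_le hℓ1 (by linarith)).trans h
    · exact h.1
  have hHA : A * ℓ ≤ H := by
    refine le_trans ?_ hH1
    rw [Real.rpow_add hℓ0, Real.rpow_one, mul_comm A ℓ]
    exact mul_le_mul_of_nonneg_left e5 hℓ0.le
  refine unc_of hc10 hcM HM hq hy3 hqℓ ?_ ?_ ?_ (y := y)
  · refine le_trans ?_ hyA
    rw [hA]
    nlinarith
  · refine le_trans ?_ hHA
    rw [hA]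
    nlinarith
  have hPp : ∀ p ∈ q.primeFactors.filter (fun p => p ≤ y), p.Prime ∧ p ≤ y := fun p hp => by
    rw [mem_filter] at hp
    exact ⟨Nat.prime_of_mem_primeFactors hp.1, hp.2⟩
  have hVP : 0 < V (q.primeFactors.filter (fun p => p ≤ y)) := V_pos fun p hp => (hPp p hp).1
  rcases hH with h | ⟨h, hsum⟩
  · -- the general case
    have h5 := Hs H (by
      have h6 : (Ys : ℝ) ≤ H := by linarith
      exact_mod_cast h6) b (q.primeFactors.filter (fun p => p ≤ y)) (fun p hp => by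
        refine ⟨(hPp p hp).1, ?_⟩
        have h6 : (p : ℝ) ≤ y := by exact_mod_cast (hPp p hp).2
        have h7 : (ℓ ^ (2 + η)) ^ (1 / (2 + η / 2)) ≤ (H : ℝ) ^ (1 / (2 + η / 2)) :=
          Real.rpow_le_rpow (by positivity) h (by positivity)
        refine h6.trans (le_trans ?_ h7)
        rw [← Real.rpow_mul hℓ0.le]
        have h8 : (2 + η) * (1 / (2 + η / 2)) = δ + 1 := by rw [hδ]; ring
        rw [h8, Real.rpow_add hℓ0, Real.rpow_one]
        refine hy2.trans ?_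
        exact mul_le_mul_of_nonneg_right e4 hℓ0.le)
    refine le_trans ?_ h5
    exact mul_le_mul_of_nonneg_right hc1s (by positivity)
  · have h5 := HB y H (b : ℤ) (by
      have h6 : (YB : ℝ) ≤ y := by linarith
      exact_mod_cast h6) (by
      refine le_trans ?_ h
      calc (y : ℝ) ^ (1 + η / 2) ≤ (2 * A * ℓ) ^ (1 + η / 2) :=
            Real.rpow_le_rpow (Nat.cast_nonneg y) hy2 (by positivity)
        _ = (2 * A) ^ (1 + η / 2) * ℓ ^ (1 + η / 2) := Real.mul_rpow (by positivity) hℓ0.le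
        _ ≤ ℓ ^ (η / 2) * ℓ ^ (1 + η / 2) := mul_le_mul_of_nonneg_right e3 (by positivity)
        _ = ℓ ^ (1 + η) := by
            rw [← Real.rpow_add hℓ0]
            congr 1
            ring) (q.primeFactors.filter (fun p => p ≤ y)) hPp (by
      refine le_trans ?_ (hsum.trans (by linarith))
      refine sum_le_sum_of_subset_of_nonneg (fun p hp => ?_) fun _ _ _ => by positivity
      rw [mem_filter, mem_filter] at hp
      rw [mem_filter]
      refine ⟨hp.1.1, ?_, fun hd => hp.2.2 (by exact_mod_cast hd)⟩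
      refine lt_of_le_of_lt ?_ hp.2.1
      calc ℓ ^ (c1 / 2) ≤ ℓ ^ cB := Real.rpow_le_rpow_of_exponent_le hℓ1 (by linarith)
        _ ≤ (y : ℝ) ^ cB := Real.rpow_le_rpow hℓ0.le (by linarith) hcB.le)
    refine (mul_le_mul_of_nonneg_right hc1B (by positivity)).trans (h5.trans (le_of_eq ?_))
    congr 2
    refine filter_congr fun a _ => ?_
    refine forall₂_congr fun p _ => not_congr ?_
    norm_cast

end Pool.Agent.Y835.SC
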