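import Pool.Agent.Y835.SC.Up2

/-!
The sum of `(k / φ(k)) ^ 2` over the differences.
-/

set_option autoImplicit false

namespace Pool.Agent.Y835.SC

open Finset

theorem dvd_dist {d a b : ℕ} : d ∣ Nat.dist a b ↔ b % d = a % d := by
  rcases le_total a b with h | h
  · rw [Nat.dist_eq_sub_of_le h, ← Nat.modEq_iff_dvd' h]
    exact eq_comm
  · rw [Nat.dist_eq_sub_of_le_right h, ← Nat.modEq_iff_dvd' h]
    rfl

open Classical in
theorem pair_sum : ∃ (C : ℝ) (X0 : ℕ), 0 < C ∧ ∀ X : ℕ, X0 ≤ X → ∀ q b H h0 : ℕ, 0 < q →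
    q ≤ X → Real.log X ≤ H → h0 ∈ Icc 1 H →
    ∑ h ∈ (Icc 1 H).filter (fun h => (b + h).Coprime q ∧ h ≠ h0), ra (Nat.dist h0 h) ^ 2 ≤
      C * (H * (ra q)⁻¹) := by
  obtain ⟨C1, X1, hC1, H1⟩ := unc_class
  obtain ⟨C2, hC2, H2⟩ := ra_pow
  obtain ⟨CL, hCL, HL⟩ := ra_le
  have hsum : Summable (fun n : ℕ => (n : ℝ) ^ (-(5 / 4) : ℝ)) :=
    Real.summable_nat_rpow.2 (by norm_num)
  obtain ⟨Z, hZ⟩ : ∃ Z : ℝ, Z = ∑' n : ℕ, (n : ℝ) ^ (-(5 / 4) : ℝ) := ⟨_, rfl⟩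
  have hZ0 : 0 ≤ Z := by rw [hZ]; exact tsum_nonneg fun n => by positivity
  have hev : ∀ᶠ ℓ : ℝ in Filter.atTop, 3 ≤ ℓ ∧ CL * (2 * Real.log ℓ) ≤ ℓ ^ (1 / 8 : ℝ) := by
    have h1 := isLittleO_log_rpow_atTop (show (0:ℝ) < 1 / 8 by norm_num)
    filter_upwards [h1.bound (show (0:ℝ) < 1 / (2 * CL) by positivity),
      Filter.eventually_ge_atTop 3] with x h2 hx
    refine ⟨hx, ?_⟩
    rw [Real.norm_of_nonneg (Real.log_nonneg (by linarith)),
      Real.norm_of_nonneg (by positivity)] at h2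
    calc CL * (2 * Real.log x) = 2 * CL * Real.log x := by ring
      _ ≤ 2 * CL * (1 / (2 * CL) * x ^ (1 / 8 : ℝ)) :=
          mul_le_mul_of_nonneg_left h2 (by positivity)
      _ = x ^ (1 / 8 : ℝ) := by field_simp
  have hev2 := (Real.tendsto_log_atTop.comp
    (tendsto_natCast_atTop_atTop (R := ℝ))).eventually hev
  obtain ⟨X0, hX0⟩ := Filter.eventually_atTop.1 hev2
  refine ⟨4 ^ 16 * ((C1 * C2 + 2) * (Z + 1)), max X0 X1, by positivity, ?_⟩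
  intro X hX q b H h0 hq hqX hH hh0
  obtain ⟨h3, h4⟩ := hX0 X ((le_max_left _ _).trans hX)
  have hX1 : X1 ≤ X := (le_max_right _ _).trans hX
  simp only [Function.comp] at h3 h4
  obtain ⟨ℓ, hℓ⟩ : ∃ ℓ, ℓ = Real.log X := ⟨_, rfl⟩
  have hH' := hH
  rw [← hℓ] at h3 h4 hH
  have hℓ0 : 0 < ℓ := by linarith
  have hqℓ : Real.log q ≤ ℓ := by
    rw [hℓ]
    exact Real.log_le_log (by exact_mod_cast hq) (by exact_mod_cast hqX)
  have hH0 : (0 : ℝ) < H := by linarith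
  have hraq := ra_pos hq
  have hrale : ra q ≤ (H : ℝ) ^ (1 / 8 : ℝ) := by
    obtain ⟨y, hy⟩ : ∃ y : ℕ, y = ⌈ℓ⌉₊ := ⟨_, rfl⟩
    have hyℓ : ℓ ≤ y := by rw [hy]; exact Nat.le_ceil _
    have hy3 : 3 ≤ y := by
      have : (3 : ℝ) ≤ y := by linarith
      exact_mod_cast this
    have hy2 : (y : ℝ) ≤ ℓ ^ 2 := by
      have h5 : (y : ℝ) < ℓ + 1 := by rw [hy]; exact Nat.ceil_lt_add_one hℓ0.le
      nlinarith
    have hlogy : Real.log y ≤ 2 * Real.log ℓ := by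
      have h5 := Real.log_le_log (by linarith : (0 : ℝ) < y) hy2
      rw [Real.log_pow] at h5
      exact_mod_cast h5
    calc ra q ≤ CL * Real.log y := HL q y ℓ hq hqℓ hy3 hyℓ
      _ ≤ CL * (2 * Real.log ℓ) := mul_le_mul_of_nonneg_left hlogy hCL.le
      _ ≤ ℓ ^ (1 / 8 : ℝ) := h4
      _ ≤ _ := Real.rpow_le_rpow hℓ0.le hH (by norm_num)
  obtain ⟨S, hS⟩ : ∃ S, S = (Icc 1 H).filter (fun h => (b + h).Coprime q ∧ h ≠ h0) := ⟨_, rfl⟩
  rw [← hS]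
  rw [mem_Icc] at hh0
  have hstep1 : ∀ h ∈ S, ra (Nat.dist h0 h) ^ 2 ≤ 4 ^ 16 * ∑ d ∈ Icc 1 H,
      if d ∣ Nat.dist h0 h then (d : ℝ) ^ (-(1 / 2) : ℝ) else 0 := by
    intro h hh
    rw [hS, mem_filter, mem_Icc] at hh
    have hk1 : 1 ≤ Nat.dist h0 h := by
      rw [Nat.one_le_iff_ne_zero]
      intro h5
      exact hh.2.2 (Nat.eq_of_dist_eq_zero h5).symm
    have hk2 : Nat.dist h0 h ≤ H := by
      rcases le_total h0 h with h5 | h5
      · rw [Nat.dist_eq_sub_of_le h5]; omega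
      · rw [Nat.dist_eq_sub_of_le_right h5]; omega
    refine (ra_sq _ hk1).trans (mul_le_mul_of_nonneg_left (le_of_eq ?_) (by positivity))
    rw [← sum_filter]
    refine sum_congr ?_ fun _ _ => rfl
    ext d
    rw [Nat.mem_divisors, mem_filter, mem_Icc]
    constructor
    · rintro ⟨h5, h6⟩
      exact ⟨⟨Nat.pos_of_dvd_of_pos h5 hk1, (Nat.le_of_dvd hk1 h5).trans hk2⟩, h5⟩
    · rintro ⟨-, h5⟩
      exact ⟨h5, by omega⟩
  have hstep2 : ∀ d ∈ Icc 1 H, ∑ h ∈ S, (if d ∣ Nat.dist h0 h then (d : ℝ) ^ (-(1 / 2) : ℝ) else 0) ≤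
      (C1 * C2 + 2) * (H * (ra q)⁻¹) * (d : ℝ) ^ (-(5 / 4) : ℝ) := by
    intro d hd
    rw [mem_Icc] at hd
    have hd0 : (0 : ℝ) < d := by exact_mod_cast hd.1
    rw [← sum_filter, sum_const, nsmul_eq_mul]
    have e1 : (d : ℝ) ^ (-(1 / 2) : ℝ) * (d : ℝ) ^ (-1 : ℝ) * (d : ℝ) ^ (1 / 4 : ℝ) =
        (d : ℝ) ^ (-(5 / 4) : ℝ) := by
      rw [← Real.rpow_add hd0, ← Real.rpow_add hd0]; norm_num
    have e2 : (d : ℝ) ^ (-(1 / 2) : ℝ) * (d : ℝ) ^ (-1 : ℝ) =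
        (d : ℝ) ^ (-(5 / 4) : ℝ) * (d : ℝ) ^ (-(1 / 4) : ℝ) := by
      rw [← Real.rpow_add hd0, ← Real.rpow_add hd0]; norm_num
    have e3 : (d : ℝ) ^ (-1 : ℝ) = (d : ℝ)⁻¹ := Real.rpow_neg_one _
    rcases le_or_gt ((d : ℝ) ^ 2) H with hc | hc
    · have h5 : ((S.filter (fun h => d ∣ Nat.dist h0 h)).card : ℝ) ≤
          C1 * (H / d * ra d * (ra q)⁻¹) := by
        refine le_trans ?_ (H1 X hX1 q b H h0 d hq hqX hH' hd.1 hc)
        have h6 : S.filter (fun h => d ∣ Nat.dist h0 h) ⊆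
            (Icc 1 H).filter (fun h => (b + h).Coprime q ∧ h % d = h0 % d) := by
          intro h hh
          rw [mem_filter, hS, mem_filter] at hh
          rw [mem_filter]
          exact ⟨hh.1.1, hh.1.2.1, dvd_dist.1 hh.2⟩
        exact_mod_cast card_le_card h6
      have h7 := H2 d hd.1
      calc ((S.filter (fun h => d ∣ Nat.dist h0 h)).card : ℝ) * (d : ℝ) ^ (-(1 / 2) : ℝ) ≤
            C1 * (H / d * (C2 * (d : ℝ) ^ (1 / 4 : ℝ)) * (ra q)⁻¹) * (d : ℝ) ^ (-(1 / 2) : ℝ) := by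
            refine mul_le_mul_of_nonneg_right (h5.trans ?_) (by positivity)
            gcongr
        _ = C1 * C2 * (H * (ra q)⁻¹) *
            ((d : ℝ) ^ (-(1 / 2) : ℝ) * (d : ℝ) ^ (-1 : ℝ) * (d : ℝ) ^ (1 / 4 : ℝ)) := by
            rw [e3]; ring
        _ = C1 * C2 * (H * (ra q)⁻¹) * (d : ℝ) ^ (-(5 / 4) : ℝ) := by rw [e1]
        _ ≤ _ := by
            gcongr
            linarith
    · have h5 : ((S.filter (fun h => d ∣ Nat.dist h0 h)).card : ℝ) ≤ 2 * H / d := by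
        have h6 : S.filter (fun h => d ∣ Nat.dist h0 h) ⊆
            (Icc 1 H).filter (fun h => d ∣ (d - h0 % d) + h) := by
          intro h hh
          rw [mem_filter, hS, mem_filter] at hh
          rw [mem_filter]
          refine ⟨hh.1.1, ?_⟩
          have h7 := dvd_dist.1 hh.2
          have h8 := Nat.mod_lt h0 hd.1
          have h9 : d - h0 % d + h = d * (h / d + 1) := by
            have := Nat.mod_add_div h d
            rw [Nat.mul_add, mul_one]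
            omega
          rw [h9]
          exact dvd_mul_right _ _
        have h7 : ((S.filter (fun h => d ∣ Nat.dist h0 h)).card : ℝ) ≤
            (((Icc 1 H).filter (fun h => d ∣ (d - h0 % d) + h)).card : ℝ) := by
          exact_mod_cast card_le_card h6
        have h8 := mult_card hd.1 (d - h0 % d) H
        have h9 : (1 : ℝ) ≤ H / d := by
          rw [le_div_iff₀ hd0, one_mul]
          exact_mod_cast hd.2
        have h10 : 2 * (H : ℝ) / d = H / d + H / d := by ring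
        rw [h10]
        linarith
      have h6 : (d : ℝ) ^ (-(1 / 4) : ℝ) ≤ (ra q)⁻¹ := by
        have h7 : (H : ℝ) ^ (1 / 8 : ℝ) ≤ (d : ℝ) ^ (1 / 4 : ℝ) := by
          calc (H : ℝ) ^ (1 / 8 : ℝ) ≤ ((d : ℝ) ^ 2) ^ (1 / 8 : ℝ) :=
                Real.rpow_le_rpow hH0.le hc.le (by norm_num)
            _ = (d : ℝ) ^ (1 / 4 : ℝ) := by
                rw [← Real.rpow_natCast, ← Real.rpow_mul hd0.le]; norm_num
        rw [Real.rpow_neg hd0.le]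
        exact inv_anti₀ hraq (hrale.trans h7)
      calc ((S.filter (fun h => d ∣ Nat.dist h0 h)).card : ℝ) * (d : ℝ) ^ (-(1 / 2) : ℝ) ≤
            2 * H / d * (d : ℝ) ^ (-(1 / 2) : ℝ) := mul_le_mul_of_nonneg_right h5 (by positivity)
        _ = 2 * H * ((d : ℝ) ^ (-(1 / 2) : ℝ) * (d : ℝ) ^ (-1 : ℝ)) := by rw [e3]; ring
        _ = 2 * H * ((d : ℝ) ^ (-(5 / 4) : ℝ) * (d : ℝ) ^ (-(1 / 4) : ℝ)) := by rw [e2]
        _ ≤ 2 * H * ((d : ℝ) ^ (-(5 / 4) : ℝ) * (ra q)⁻¹) := by gcongr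
        _ = 2 * (H * (ra q)⁻¹) * (d : ℝ) ^ (-(5 / 4) : ℝ) := by ring
        _ ≤ _ := by
            gcongr
            have : 0 < C1 * C2 := by positivity
            linarith
  calc ∑ h ∈ S, ra (Nat.dist h0 h) ^ 2 ≤ ∑ h ∈ S, 4 ^ 16 * ∑ d ∈ Icc 1 H,
        (if d ∣ Nat.dist h0 h then (d : ℝ) ^ (-(1 / 2) : ℝ) else 0) := sum_le_sum hstep1
    _ = 4 ^ 16 * ∑ d ∈ Icc 1 H, ∑ h ∈ S,
        (if d ∣ Nat.dist h0 h then (d : ℝ) ^ (-(1 / 2) : ℝ) else 0) := by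
        rw [← mul_sum, sum_comm]
    _ ≤ 4 ^ 16 * ∑ d ∈ Icc 1 H, (C1 * C2 + 2) * (H * (ra q)⁻¹) * (d : ℝ) ^ (-(5 / 4) : ℝ) :=
        mul_le_mul_of_nonneg_left (sum_le_sum hstep2) (by positivity)
    _ = 4 ^ 16 * ((C1 * C2 + 2) * (∑ d ∈ Icc 1 H, (d : ℝ) ^ (-(5 / 4) : ℝ))) *
        (H * (ra q)⁻¹) := by rw [← mul_sum]; ring
    _ ≤ 4 ^ 16 * ((C1 * C2 + 2) * (Z + 1)) * (H * (ra q)⁻¹) := by
        gcongr
        have h5 := hsum.sum_le_tsum (Icc 1 H) fun n _ => by positivity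
        rw [← hZ] at h5
        linarith

end Pool.Agent.Y835.SC
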