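import Pool.Agent.Y835.SC.Page
import Pool.Agent.Y835.SC.Unc2
import Pool.Agent.Y835.SC.Up3
import Pool.Agent.Y835.SC.Two

/-!
Many primes in short intervals `(N, N + H]` for a positive proportion of the integers `N` of a
residue class modulo `q`.
-/

set_option autoImplicit false

namespace Pool.Agent.Y835.SC

open Finset

/-- the number of primes in `(N, N + H]` -/
def rp (N H : ℕ) : ℕ := ((Icc 1 H).filter (fun h => (N + h).Prime)).card

/-- the integers `h ≤ H` with `b + h` coprime to `q` -/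
def Un (q b H : ℕ) : Finset ℕ := (Icc 1 H).filter (fun h => (b + h).Coprime q)

theorem rp_eq {X K q b N H : ℕ} (hq : 0 < q) (hqX : 2 * q ≤ X) (hN : N ∈ II X K q b) :
    (rp N H : ℝ) = ∑ h ∈ Un q b H, if (N + h).Prime then (1 : ℝ) else 0 := by
  classical
  rw [← sum_filter, sum_const, nsmul_eq_mul, mul_one, rp, Un, filter_filter]
  congr 2
  refine filter_congr fun h _ => ?_
  constructor
  · intro hp
    refine ⟨?_, hp⟩
    rw [mem_II] at hN
    have h1 : (N + h).Coprime q := by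
      rw [Nat.Prime.coprime_iff_not_dvd hp]
      intro hd
      have := Nat.le_of_dvd hq hd
      omega
    have h2 : b + h ≡ N + h [MOD q] := Nat.ModEq.add_right h hN.2.symm
    unfold Nat.Coprime at h1 ⊢
    rw [Nat.ModEq.gcd_eq h2]
    exact h1
  · exact fun h => h.2

open Classical in
/-- the first moment -/
theorem first (η : ℝ) (hη : 0 < η) (hη1 : η ≤ 1) : ∃ (K : ℕ) (c : ℝ) (X0 : ℕ), 1 ≤ K ∧ 0 < c ∧
    c ≤ 1 ∧ ∀ X : ℕ, X0 ≤ X → ∃ q₁ : ℕ, 2 ≤ q₁ ∧ ∀ q b H : ℕ, 0 < q → q ^ 16 ≤ X → ¬ q₁ ∣ q →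
    2 * H ≤ X → (Real.log X ^ (2 + η) ≤ H ∨ (Real.log X ^ (1 + η) ≤ H ∧
      ∑ p ∈ q.primeFactors.filter (fun p : ℕ => Real.log X ^ c < p ∧ ¬ p ∣ b), 1 / (p : ℝ) ≤ c)) →
    c * (H / q) ≤ ∑ N ∈ II X K q b, 1 / (N : ℝ) * rp N H := by
  obtain ⟨K, cP, hK, hcP, XP, HP⟩ := page
  obtain ⟨cU, XU, hcU, hcU1, HU⟩ := unc_low η hη hη1
  refine ⟨K, min cU (cP * cU), max (max XP XU) 3, hK, by positivity,
    (min_le_left _ _).trans hcU1, fun X hX => ?_⟩
  have hXP : XP ≤ X := (le_max_left _ _).trans ((le_max_left _ _).trans hX)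
  have hXU : XU ≤ X := (le_max_right _ _).trans ((le_max_left _ _).trans hX)
  have hX3 : 3 ≤ X := (le_max_right _ _).trans hX
  obtain ⟨q₁, hq₁, H1⟩ := HP X hXP
  refine ⟨q₁, hq₁, fun q b H hq hqX hndvd hHX hcond => ?_⟩
  have hlX : 1 ≤ Real.log X := by
    have h3 : (3 : ℝ) ≤ X := by exact_mod_cast hX3
    rw [Real.le_log_iff_exp_le (by linarith)]
    have := Real.exp_one_lt_d9
    linarith
  have hqX1 : q ≤ X := (Nat.le_self_pow (by norm_num) q).trans hqX
  have hunc := HU X hXU q b H hq hqX1 (by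
    rcases hcond with h | ⟨h, h2⟩
    · exact Or.inl h
    · refine Or.inr ⟨h, ?_⟩
      refine le_trans ?_ (h2.trans (min_le_left _ _))
      refine sum_le_sum_of_subset_of_nonneg (fun p hp => ?_) fun _ _ _ => by positivity
      rw [mem_filter] at hp ⊢
      refine ⟨hp.1, lt_of_le_of_lt ?_ hp.2.1, hp.2.2⟩
      exact Real.rpow_le_rpow_of_exponent_le hlX (min_le_left _ _))
  have hφ : (0 : ℝ) < q.totient := by exact_mod_cast Nat.totient_pos.2 hq
  have hq0 : (0 : ℝ) < q := by exact_mod_cast hq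
  -- one `h`
  have hone : ∀ h ∈ Un q b H, cP / q.totient ≤
      ∑ N ∈ II X K q b, 1 / (N : ℝ) * (if (N + h).Prime then (1 : ℝ) else 0) := by
    intro h hh
    rw [Un, mem_filter, mem_Icc] at hh
    have h1 := H1 q (b + h) hq hqX hndvd hh.2
    refine h1.trans ?_
    have h2 : ∑ N ∈ II X K q b, 1 / (N : ℝ) * (if (N + h).Prime then (1 : ℝ) else 0) =
        ∑ N ∈ (II X K q b).filter (fun N => (N + h).Prime), 1 / (N : ℝ) := by
      rw [sum_filter]
      refine sum_congr rfl fun N _ => ?_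
      split_ifs <;> simp
    rw [h2]
    obtain ⟨S, hS⟩ : ∃ S, S = (Ioc X (X ^ K)).filter (fun p => p.Prime ∧ p ≡ b + h [MOD q]) :=
      ⟨_, rfl⟩
    rw [← hS]
    have hSm : ∀ p ∈ S, X < p ∧ p ≤ X ^ K ∧ p.Prime ∧ p ≡ b + h [MOD q] := fun p hp => by
      rw [hS, mem_filter, mem_Ioc] at hp
      exact ⟨hp.1.1, hp.1.2, hp.2⟩
    have h3 : ∑ p ∈ S, (1 : ℝ) / p ≤ ∑ p ∈ S, (1 : ℝ) / ((p - h : ℕ) : ℝ) := by
      refine sum_le_sum fun p hp => ?_
      have h4 := hSm p hp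
      refine one_div_le_one_div_of_le ?_ ?_
      · exact_mod_cast (by omega : 0 < p - h)
      · exact_mod_cast Nat.sub_le _ _
    have h4 : ∑ p ∈ S, (1 : ℝ) / ((p - h : ℕ) : ℝ) = ∑ N ∈ S.image (fun p => p - h), 1 / (N : ℝ) := by
      rw [sum_image]
      intro p hp p' hp' heq
      have h5 := hSm p (mem_coe.1 hp)
      have h6 := hSm p' (mem_coe.1 hp')
      simp only at heq
      omega
    rw [h4] at h3
    refine h3.trans (sum_le_sum_of_subset_of_nonneg (fun N hN => ?_) fun _ _ _ => by positivity)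
    rw [mem_image] at hN
    obtain ⟨p, hp, rfl⟩ := hN
    obtain ⟨h5, h6, h7, h8⟩ := hSm p hp
    rw [mem_filter, mem_II]
    have h9 : p - h + h = p := by omega
    refine ⟨⟨⟨by omega, by omega⟩, ?_⟩, by rw [h9]; exact h7⟩
    have h10 : p - h + h ≡ b + h [MOD q] := by rw [h9]; exact h8
    exact Nat.ModEq.add_right_cancel' h h10
  have h1 : ∑ N ∈ II X K q b, 1 / (N : ℝ) * rp N H =
      ∑ h ∈ Un q b H, ∑ N ∈ II X K q b, 1 / (N : ℝ) * (if (N + h).Prime then (1 : ℝ) else 0) := by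
    rw [sum_comm]
    refine sum_congr rfl fun N hN => ?_
    rw [rp_eq hq (by
      have h2 : 2 * q ≤ q ^ 16 ∨ q = 1 := by
        rcases Nat.lt_or_ge q 2 with h | h
        · right; omega
        · left
          calc 2 * q ≤ q * q := Nat.mul_le_mul_right _ h
            _ = q ^ 2 := (sq q).symm
            _ ≤ q ^ 16 := Nat.pow_le_pow_right hq (by norm_num)
      omega) hN, mul_sum]
  rw [h1]
  have h2 : (cP / q.totient) * (Un q b H).card ≤
      ∑ h ∈ Un q b H, ∑ N ∈ II X K q b, 1 / (N : ℝ) * (if (N + h).Prime then (1 : ℝ) else 0) := by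
    have := card_nsmul_le_sum (Un q b H) _ (cP / q.totient) hone
    rw [nsmul_eq_mul] at this
    linarith
  refine le_trans ?_ h2
  have h3 : cU * (H * ((q.totient : ℝ) / q)) ≤ ((Un q b H).card : ℝ) := hunc.trans (le_of_eq (by
    unfold Un
    congr!))
  calc min cU (cP * cU) * (H / q) ≤ cP * cU * (H / q) :=
        mul_le_mul_of_nonneg_right (min_le_right _ _) (by positivity)
    _ = (cP / q.totient) * (cU * (H * ((q.totient : ℝ) / q))) := by field_simp
    _ ≤ _ := mul_le_mul_of_nonneg_left h3 (by positivity)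

open Classical in
/-- the second moment -/
theorem second (K : ℕ) : ∃ (C : ℝ) (X0 : ℕ), 0 < C ∧ ∀ X : ℕ, X0 ≤ X → ∀ q b H : ℕ, 0 < q →
    q ^ 16 ≤ X → Real.log X ≤ H →
    ∑ N ∈ II X K q b, 1 / (N : ℝ) * (rp N H : ℝ) ^ 2 ≤ C * (H ^ 2 / (q * Real.log X)) := by
  obtain ⟨C1, X1, hC1, H1⟩ := single K
  obtain ⟨C2, X2, hC2, H2⟩ := pairl K
  obtain ⟨C3, X3, hC3, H3⟩ := pair_sum
  obtain ⟨C4, X4, hC4, H4⟩ := unc_class
  refine ⟨C4 * (C1 + C2 * C3), max (max (max X1 X2) (max X3 X4)) 3, by positivity, ?_⟩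
  intro X hX q b H hq hqX hH
  simp only [max_le_iff] at hX
  obtain ⟨⟨⟨x1, x2⟩, x3, x4⟩, x5⟩ := hX
  have hlX : 1 ≤ Real.log X := by
    have h3 : (3 : ℝ) ≤ X := by exact_mod_cast x5
    rw [Real.le_log_iff_exp_le (by linarith)]
    have := Real.exp_one_lt_d9
    linarith
  have hlX0 : 0 < Real.log X := by linarith
  have hqX1 : q ≤ X := (Nat.le_self_pow (by norm_num) q).trans hqX
  have hq0 : (0 : ℝ) < q := by exact_mod_cast hq
  have hraq := ra_pos hq
  have hH0 : (0 : ℝ) < H := by linarith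
  have h2q : 2 * q ≤ X := by
    have h2 : 2 * q ≤ q ^ 16 ∨ q = 1 := by
      rcases Nat.lt_or_ge q 2 with h | h
      · right; omega
      · left
        calc 2 * q ≤ q * q := Nat.mul_le_mul_right _ h
          _ = q ^ 2 := (sq q).symm
          _ ≤ q ^ 16 := Nat.pow_le_pow_right hq (by norm_num)
    omega
  obtain ⟨a, ha⟩ : ∃ a : ℕ → ℕ → ℝ, a = fun N h => if (N + h).Prime then (1 : ℝ) else 0 := ⟨_, rfl⟩
  have e1 : ∑ N ∈ II X K q b, 1 / (N : ℝ) * (rp N H : ℝ) ^ 2 =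
      ∑ h ∈ Un q b H, ∑ h' ∈ Un q b H, ∑ N ∈ II X K q b, 1 / (N : ℝ) * (a N h * a N h') := by
    have h5 : ∀ N ∈ II X K q b, 1 / (N : ℝ) * (rp N H : ℝ) ^ 2 =
        ∑ h ∈ Un q b H, ∑ h' ∈ Un q b H, 1 / (N : ℝ) * (a N h * a N h') := by
      intro N hN
      rw [rp_eq hq h2q hN, sq, sum_mul_sum, mul_sum, ha]
      refine sum_congr rfl fun h _ => ?_
      rw [mul_sum]
    rw [sum_congr rfl h5, sum_comm]
    refine sum_congr rfl fun h _ => ?_
    rw [sum_comm]
  have e2 : ∀ h h' : ℕ, ∑ N ∈ II X K q b, 1 / (N : ℝ) * (a N h * a N h') =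
      ∑ N ∈ (II X K q b).filter (fun N => (N + h).Prime ∧ (N + h').Prime), 1 / (N : ℝ) := by
    intro h h'
    rw [sum_filter, ha]
    refine sum_congr rfl fun N _ => ?_
    by_cases h5 : (N + h).Prime <;> by_cases h6 : (N + h').Prime <;> simp [h5, h6]
  have hUm : ∀ h ∈ Un q b H, h ∈ Icc 1 H := fun h hh => (mem_filter.1 hh).1
  have e3 : ∀ h ∈ Un q b H, ∑ h' ∈ Un q b H, ∑ N ∈ II X K q b, 1 / (N : ℝ) * (a N h * a N h') ≤
      C1 * (ra q / q) + C2 * (ra q ^ 2 / (q * Real.log X)) * (C3 * (H * (ra q)⁻¹)) := by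
    intro h hh
    rw [← add_sum_erase _ _ hh]
    refine add_le_add ?_ ?_
    · rw [e2]
      refine le_trans (le_of_eq ?_) (H1 X x1 q b h hq hqX)
      refine sum_congr (filter_congr fun N _ => and_self_iff) fun _ _ => rfl
    · have h5 : ∀ h' ∈ (Un q b H).erase h,
          ∑ N ∈ II X K q b, 1 / (N : ℝ) * (a N h * a N h') ≤
          C2 * (ra q ^ 2 / (q * Real.log X)) * ra (Nat.dist h h') ^ 2 := by
        intro h' hh'
        rw [e2]
        refine (H2 X x2 q b h h' hq hqX (mem_erase.1 hh').1).trans (le_of_eq ?_)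
        ring
      refine (sum_le_sum h5).trans ?_
      rw [← mul_sum]
      refine mul_le_mul_of_nonneg_left ?_ (by positivity)
      refine le_trans (le_of_eq ?_) (H3 X x3 q b H h hq hqX1 hH (hUm h hh))
      refine sum_congr ?_ fun _ _ => rfl
      ext h'
      rw [mem_erase, Un, mem_filter, mem_filter]
      tauto
  have hcard : ((Un q b H).card : ℝ) ≤ C4 * (H * (ra q)⁻¹) := by
    have h5 := H4 X x4 q b H 0 1 hq hqX1 hH le_rfl (by
      push_cast
      linarith)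
    have h6 : (Icc 1 H).filter (fun h => (b + h).Coprime q ∧ h % 1 = 0 % 1) = Un q b H := by
      unfold Un
      refine filter_congr fun h _ => ?_
      rw [Nat.mod_one, Nat.mod_one]
      simp
    rw [h6] at h5
    have h7 : ra 1 = 1 := by unfold ra; simp
    rw [h7] at h5
    simpa using h5
  rw [e1]
  refine (sum_le_card_nsmul _ _ _ e3).trans ?_
  rw [nsmul_eq_mul]
  have h5 : C1 * (ra q / q) + C2 * (ra q ^ 2 / (q * Real.log X)) * (C3 * (H * (ra q)⁻¹)) ≤
      (C1 + C2 * C3) * (ra q * H / (q * Real.log X)) := by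
    have h6 : C2 * (ra q ^ 2 / (q * Real.log X)) * (C3 * (H * (ra q)⁻¹)) =
        C2 * C3 * (ra q * H / (q * Real.log X)) := by
      field_simp
    have h7 : ra q / q ≤ ra q * H / (q * Real.log X) := by
      rw [div_le_div_iff₀ hq0 (by positivity)]
      calc ra q * (q * Real.log X) = ra q * q * Real.log X := by ring
        _ ≤ ra q * q * H := mul_le_mul_of_nonneg_left hH (by positivity)
        _ = ra q * H * q := by ring
    rw [h6]
    have h8 := mul_le_mul_of_nonneg_left h7 hC1.le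
    linarith
  calc ((Un q b H).card : ℝ) *
        (C1 * (ra q / q) + C2 * (ra q ^ 2 / (q * Real.log X)) * (C3 * (H * (ra q)⁻¹))) ≤
        (C4 * (H * (ra q)⁻¹)) * ((C1 + C2 * C3) * (ra q * H / (q * Real.log X))) :=
        mul_le_mul hcard h5 (by positivity) (by positivity)
    _ = C4 * (C1 + C2 * C3) * (H ^ 2 / (q * Real.log X)) := by
        field_simp

open Classical in
/-- a positive proportion -/
theorem partD (η : ℝ) (hη : 0 < η) (hη1 : η ≤ 1) : ∃ (K : ℕ) (c : ℝ) (X0 : ℕ), 1 ≤ K ∧ 0 < c ∧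
    c ≤ 1 ∧ ∀ X : ℕ, X0 ≤ X → ∃ q₁ : ℕ, 2 ≤ q₁ ∧ ∀ q b H : ℕ, 0 < q → q ^ 16 ≤ X → ¬ q₁ ∣ q →
    2 * H ≤ X → (Real.log X ^ (2 + η) ≤ H ∨ (Real.log X ^ (1 + η) ≤ H ∧
      ∑ p ∈ q.primeFactors.filter (fun p : ℕ => Real.log X ^ c < p ∧ ¬ p ∣ b), 1 / (p : ℝ) ≤ c)) →
    c * (Real.log X / q) ≤
      ∑ N ∈ (II X K q b).filter (fun N => c * (H / Real.log X) ≤ rp N H), 1 / (N : ℝ) := by
  obtain ⟨K, c, X1, hK, hc, hc1, H1⟩ := first η hη hη1
  obtain ⟨C2, X2, hC2, H2⟩ := second K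
  obtain ⟨CT, X3, hCT, H3⟩ := tot K
  obtain ⟨δ, hδ⟩ : ∃ δ : ℝ, δ = min c (min (c / (2 * CT)) (c ^ 2 / (4 * C2))) := ⟨_, rfl⟩
  have hδ0 : 0 < δ := by rw [hδ]; positivity
  have hδc : δ ≤ c := by rw [hδ]; exact min_le_left _ _
  have hδT : δ ≤ c / (2 * CT) := by rw [hδ]; exact (min_le_right _ _).trans (min_le_left _ _)
  have hδ2 : δ ≤ c ^ 2 / (4 * C2) := by rw [hδ]; exact (min_le_right _ _).trans (min_le_right _ _)
  refine ⟨K, δ, max (max X1 X2) (max X3 3), hK, hδ0, hδc.trans hc1, fun X hX => ?_⟩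
  simp only [max_le_iff] at hX
  obtain ⟨⟨x1, x2⟩, x3, x4⟩ := hX
  obtain ⟨q₁, hq₁, H1'⟩ := H1 X x1
  refine ⟨q₁, hq₁, fun q b H hq hqX hndvd hHX hcond => ?_⟩
  have hlX : 1 ≤ Real.log X := by
    have h3 : (3 : ℝ) ≤ X := by exact_mod_cast x4
    rw [Real.le_log_iff_exp_le (by linarith)]
    have := Real.exp_one_lt_d9
    linarith
  have hlX0 : 0 < Real.log X := by linarith
  have hq0 : (0 : ℝ) < q := by exact_mod_cast hq
  have hH : Real.log X ≤ H := by
    have h5 : Real.log X ≤ Real.log X ^ (1 + η) := by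
      calc Real.log X = Real.log X ^ (1 : ℝ) := (Real.rpow_one _).symm
        _ ≤ _ := Real.rpow_le_rpow_of_exponent_le hlX (by linarith)
    have h6 : Real.log X ^ (1 + η) ≤ Real.log X ^ (2 + η) :=
      Real.rpow_le_rpow_of_exponent_le hlX (by linarith)
    rcases hcond with h | ⟨h, -⟩
    · exact h5.trans (h6.trans h)
    · exact h5.trans h
  have hH0 : (0 : ℝ) < H := by linarith
  have h1 := H1' q b H hq hqX hndvd hHX (by
    rcases hcond with h | ⟨h, h2⟩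
    · exact Or.inl h
    · refine Or.inr ⟨h, ?_⟩
      refine le_trans ?_ (h2.trans hδc)
      refine sum_le_sum_of_subset_of_nonneg (fun p hp => ?_) fun _ _ _ => by positivity
      rw [mem_filter] at hp ⊢
      refine ⟨hp.1, lt_of_le_of_lt ?_ hp.2.1, hp.2.2⟩
      exact Real.rpow_le_rpow_of_exponent_le hlX hδc)
  have h2 := H2 X x2 q b H hq hqX hH
  have h3 := H3 X x3 q b hq hqX
  obtain ⟨A, hA⟩ : ∃ A, A = (II X K q b).filter (fun N => δ * (H / Real.log X) ≤ rp N H) := ⟨_, rfl⟩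
  rw [← hA]
  have h4 := sum_filter_add_sum_filter_not (II X K q b) (fun N => δ * (H / Real.log X) ≤ rp N H)
    (fun N => 1 / (N : ℝ) * rp N H)
  rw [← hA] at h4
  have h5 : ∑ N ∈ (II X K q b).filter (fun N => ¬ δ * (H / Real.log X) ≤ rp N H),
      1 / (N : ℝ) * rp N H ≤ c / 2 * (H / q) := by
    calc _ ≤ ∑ N ∈ (II X K q b).filter (fun N => ¬ δ * (H / Real.log X) ≤ rp N H),
          1 / (N : ℝ) * (δ * (H / Real.log X)) := by
          refine sum_le_sum fun N hN => ?_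
          rw [mem_filter, not_le] at hN
          exact mul_le_mul_of_nonneg_left hN.2.le (by positivity)
      _ ≤ ∑ N ∈ II X K q b, 1 / (N : ℝ) * (δ * (H / Real.log X)) :=
          sum_le_sum_of_subset_of_nonneg (filter_subset _ _) fun _ _ _ => by positivity
      _ = (∑ N ∈ II X K q b, 1 / (N : ℝ)) * (δ * (H / Real.log X)) := by rw [sum_mul]
      _ ≤ (CT * (Real.log X / q)) * (c / (2 * CT) * (H / Real.log X)) := by
          gcongr
      _ = c / 2 * (H / q) := by field_simp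
  have h6 : c / 2 * (H / q) ≤ ∑ N ∈ A, 1 / (N : ℝ) * rp N H := by
    have h7 : c * ((H : ℝ) / q) = c / 2 * (H / q) + c / 2 * (H / q) := by ring
    linarith
  have h7 : (∑ N ∈ A, 1 / (N : ℝ) * rp N H) ^ 2 ≤
      (∑ N ∈ A, 1 / (N : ℝ)) * ∑ N ∈ A, 1 / (N : ℝ) * (rp N H : ℝ) ^ 2 := by
    apply Finset.sum_sq_le_sum_mul_sum_of_sq_eq_mul
    · intro N _; positivity
    · intro N _; positivity
    · intro N _; ring
  have h8 : ∑ N ∈ A, 1 / (N : ℝ) * (rp N H : ℝ) ^ 2 ≤ C2 * (H ^ 2 / (q * Real.log X)) := by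
    refine le_trans (sum_le_sum_of_subset_of_nonneg ?_ fun _ _ _ => by positivity) h2
    rw [hA]
    exact filter_subset _ _
  have hS0 : 0 ≤ ∑ N ∈ A, 1 / (N : ℝ) := sum_nonneg fun _ _ => by positivity
  have h9 : (c / 2 * (H / q)) ^ 2 ≤ (∑ N ∈ A, 1 / (N : ℝ)) * (C2 * (H ^ 2 / (q * Real.log X))) := by
    calc (c / 2 * ((H : ℝ) / q)) ^ 2 ≤ (∑ N ∈ A, 1 / (N : ℝ) * rp N H) ^ 2 :=
          pow_le_pow_left₀ (by positivity) h6 2
      _ ≤ _ := h7
      _ ≤ _ := mul_le_mul_of_nonneg_left h8 hS0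
  have h10 : c ^ 2 / (4 * C2) * (Real.log X / q) ≤ ∑ N ∈ A, 1 / (N : ℝ) := by
    have h11 : 0 < C2 * ((H : ℝ) ^ 2 / (q * Real.log X)) := by positivity
    rw [← div_le_iff₀ h11] at h9
    refine le_trans (le_of_eq ?_) h9
    field_simp
    norm_num
  refine le_trans ?_ h10
  exact mul_le_mul_of_nonneg_right hδ2 (by positivity)

end Pool.Agent.Y835.SC
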