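import Pool.Agent.Y835.SC.Fin2

/-!
The covering theorem in one statement.
-/

set_option autoImplicit false

namespace Pool.Agent.Y835.SC

open Finset

open Classical in
theorem partE : ∃ (c C : ℝ) (Y0 : ℕ), 0 < c ∧ 0 < C ∧
    ∀ (y U z : ℕ) (n : ℤ) (P : Finset ℕ), Y0 ≤ y → C * y ≤ U → 2 ≤ z → (z : ℝ) ≤ (y : ℝ) ^ c →
      (∀ p ∈ P, p.Prime ∧ p ≤ y) → ∀ θ : ℝ,
      θ = min 1 (Real.log ((U : ℝ) / y) / Real.log y) *
        min 1 (Real.log ((U : ℝ) / y) / Real.log z) →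
      ∑ p ∈ P.filter (fun p : ℕ => z < p ∧ ¬ (p : ℤ) ∣ n), 1 / (p : ℝ) ≤ c * θ →
      c * θ * (U * V P) ≤
        (((Icc 1 U).filter (fun h : ℕ => ∀ p ∈ P, ¬ (p : ℤ) ∣ n + h)).card : ℝ) := by
  obtain ⟨cA, K0, YA, hcA, hcA1, hK0, hYA, HA⟩ := partA
  obtain ⟨cU, YU, hcU, HU⟩ := partU
  refine ⟨min cA cU, K0, max YA YU, lt_min hcA hcU, by exact_mod_cast (by omega : 0 < K0), ?_⟩
  intro y U z n P hy hU hz hzy hP θ hθ hS
  have hyA : YA ≤ y := (le_max_left _ _).trans hy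
  have hyU : YU ≤ y := (le_max_right _ _).trans hy
  have hVP : 0 < V P := V_pos fun p hp => (hP p hp).1
  have hy3 : 3 ≤ y := hYA.trans hyA
  have hyr : (3 : ℝ) ≤ y := by exact_mod_cast hy3
  have hy0 : (0 : ℝ) < y := by linarith
  have hly : 0 < Real.log y := Real.log_pos (by linarith)
  have hlz : 0 < Real.log z := Real.log_pos (by exact_mod_cast (by omega : 1 < z))
  have hUK : K0 * y ≤ U := by exact_mod_cast hU
  have hUy : (2 : ℝ) ≤ (U : ℝ) / y := by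
    rw [le_div_iff₀ hy0]
    have : (2 * y : ℝ) ≤ K0 * y := by
      have : (2 : ℝ) ≤ K0 := by exact_mod_cast hK0
      nlinarith
    linarith
  have hL0 : 0 < Real.log ((U : ℝ) / y) := Real.log_pos (by linarith)
  have hm0 : 0 < min 1 (Real.log ((U : ℝ) / y) / Real.log z) := lt_min one_pos (by positivity)
  have hm1 : min 1 (Real.log ((U : ℝ) / y) / Real.log z) ≤ 1 := min_le_left _ _
  have hk0 : 0 < min 1 (Real.log ((U : ℝ) / y) / Real.log y) := lt_min one_pos (by positivity)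
  have hk1 : min 1 (Real.log ((U : ℝ) / y) / Real.log y) ≤ 1 := min_le_left _ _
  have hθ0 : 0 < θ := by rw [hθ]; positivity
  have hθ1 : θ ≤ 1 := by
    rw [hθ]
    calc _ ≤ 1 * (1 : ℝ) := mul_le_mul hk1 hm1 hm0.le zero_le_one
      _ = 1 := one_mul 1
  rcases le_total (y ^ 3) U with hc | hc
  · refine le_trans ?_ (HU y U n hyU hc P hP)
    refine mul_le_mul_of_nonneg_right ?_ (by positivity)
    calc min cA cU * θ ≤ cU * 1 := mul_le_mul (min_le_right _ _) hθ1 hθ0.le hcU.le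
      _ = cU := mul_one _
  · obtain ⟨θA, hθA⟩ : ∃ θA : ℝ, θA = Real.log ((U : ℝ) / y) / Real.log y *
        min 1 (Real.log ((U : ℝ) / y) / Real.log z) := ⟨_, rfl⟩
    have hle : θ ≤ θA := by
      rw [hθ, hθA]
      exact mul_le_mul_of_nonneg_right (min_le_right _ _) hm0.le
    have hle2 : min cA cU * θ ≤ cA * θA :=
      mul_le_mul (min_le_left _ _) hle hθ0.le hcA.le
    have h1 := HA y U z n hyA hUK hc hz (hzy.trans (Real.rpow_le_rpow_of_exponent_le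
      (by linarith) (min_le_left _ _))) P hP θA hθA (hS.trans hle2)
    exact le_trans (mul_le_mul_of_nonneg_right hle2 (by positivity)) h1

open Classical in
theorem partF : ∃ (c C : ℝ) (Y0 : ℕ), 0 < c ∧ 0 < C ∧
    ∀ (y U z : ℕ) (n : ℤ) (P : Finset ℕ), Y0 ≤ y → C * y ≤ U → 2 ≤ z → (z : ℝ) ≤ (y : ℝ) ^ c →
      (∀ p ∈ P, p.Prime ∧ p ≤ y) →
      (∀ θ : ℝ, θ = min 1 (Real.log ((U : ℝ) / y) / Real.log y) *
        min 1 (Real.log ((U : ℝ) / y) / Real.log z) →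
      ∑ p ∈ P.filter (fun p : ℕ => z < p ∧ ¬ (p : ℤ) ∣ n), 1 / (p : ℝ) ≤ c * θ →
      c * θ * (U * V P) ≤
        (((Icc 1 U).filter (fun h : ℕ => ∀ p ∈ P, ¬ (p : ℤ) ∣ n + h)).card : ℝ)) ∧
      ((∀ p ∈ P, z < p → 2 * p ≤ y → (p : ℤ) ∣ n) → C * y * Real.exp (C * √(Real.log z)) ≤ U →
        ∃ h : ℕ, 1 ≤ h ∧ h ≤ U ∧ ∀ p ∈ P, ¬ (p : ℤ) ∣ n + h) := by
  obtain ⟨c1, C1, Y1, hc1, hC1, H1⟩ := partE
  obtain ⟨C2, c2, Y2, hC2, hc2, H2⟩ := partC
  refine ⟨min c1 c2, max C1 C2, max (max Y1 Y2) 1, lt_min hc1 hc2, lt_max_of_lt_left hC1, ?_⟩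
  intro y U z n P hy hU hz hzy hP
  have hy1 : Y1 ≤ y := (le_max_left _ _).trans ((le_max_left _ _).trans hy)
  have hy2 : Y2 ≤ y := (le_max_right _ _).trans ((le_max_left _ _).trans hy)
  have hyr : (1 : ℝ) ≤ y := by exact_mod_cast (le_max_right _ _).trans hy
  have hy0 : (0 : ℝ) < y := by linarith
  have hVP : 0 < V P := V_pos fun p hp => (hP p hp).1
  have hz1 : (z : ℝ) ≤ (y : ℝ) ^ c1 :=
    hzy.trans (Real.rpow_le_rpow_of_exponent_le hyr (min_le_left _ _))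
  have hz2 : (z : ℝ) ≤ (y : ℝ) ^ c2 :=
    hzy.trans (Real.rpow_le_rpow_of_exponent_le hyr (min_le_right _ _))
  have hU1 : C1 * y ≤ U := le_trans (mul_le_mul_of_nonneg_right (le_max_left _ _) hy0.le) hU
  have hlz : 0 < Real.log z := Real.log_pos (by exact_mod_cast (by omega : 1 < z))
  refine ⟨fun θ hθ hS => ?_, fun hn hU2 => ?_⟩
  · have hUy : 0 < Real.log ((U : ℝ) / y) ∨ Real.log ((U : ℝ) / y) ≤ 0 := lt_or_ge _ _
    rcases le_total 0 θ with hθ0 | hθ0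
    · have h1 : min c1 c2 * θ ≤ c1 * θ := mul_le_mul_of_nonneg_right (min_le_left _ _) hθ0
      refine le_trans (mul_le_mul_of_nonneg_right h1 (by positivity)) ?_
      exact H1 y U z n P hy1 hU1 hz hz1 hP θ hθ (hS.trans h1)
    · refine le_trans ?_ (Nat.cast_nonneg _)
      exact mul_nonpos_of_nonpos_of_nonneg
        (mul_nonpos_of_nonneg_of_nonpos (lt_min hc1 hc2).le hθ0) (by positivity)
  · refine H2 y U z n hy2 hz hz2 (le_trans ?_ hU2) P hP hn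
    have h3 : C2 ≤ max C1 C2 := le_max_right _ _
    have h4 : Real.exp (C2 * √(Real.log z)) ≤ Real.exp (max C1 C2 * √(Real.log z)) :=
      Real.exp_le_exp.2 (mul_le_mul_of_nonneg_right h3 (Real.sqrt_nonneg _))
    refine mul_le_mul (mul_le_mul_of_nonneg_right h3 hy0.le) h4 (Real.exp_pos _).le ?_
    have : 0 < max C1 C2 := lt_max_of_lt_left hC1
    positivity

end Pool.Agent.Y835.SC
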