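import Pool.Agent.Y835.SC.Prod
import Pool.Agent.Y835.SB.Cnt

/-!
The integers `h ≤ U` with `q ∣ n + h` such that `n + h` is free of small primes: upper bound.
-/

set_option autoImplicit false

namespace Pool.Agent.Y835.SC

open Finset

open Classical in
theorem rem_bound : ∃ (τ K1 : ℝ), 0 < τ ∧ τ ≤ 1 / 2 ∧ 1 ≤ K1 ∧ ∀ κ : ℝ, K1 ≤ κ → ∀ w : ℕ,
    w = ⌊κ ^ τ⌋₊ → 3 ≤ w ∧ κ ^ (τ / 2) ≤ w ∧ ∀ P : Finset ℕ, (∀ p ∈ P, p.Prime ∧ p ≤ w) →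
    ∀ q : ℕ, 0 < q → (∀ p ∈ P, ¬ p ∣ q) → ∀ n U : ℕ, κ * q ≤ U →
    (((Icc 1 U).filter (fun h => q ∣ n + h ∧ ∀ p ∈ P, ¬ p ∣ n + h)).card : ℝ) ≤
      3 * (U / q * V P) := by
  obtain ⟨C0, K0, hC0, hK0, H⟩ := Pool.Agent.Y835.SB.rcount
  obtain ⟨cM, hcM, HM⟩ := Pool.Agent.Y835.SB.prod_ge
  obtain ⟨e, he⟩ : ∃ e : ℕ, e = 4 * C0 * C0 + 1 := ⟨_, rfl⟩
  obtain ⟨τ, hτ⟩ : ∃ τ : ℝ, τ = 1 / (2 * ((e : ℝ) + 1)) := ⟨_, rfl⟩
  have he1 : (1 : ℝ) ≤ e := by exact_mod_cast (by omega : 1 ≤ e)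
  have hτ0 : 0 < τ := by rw [hτ]; positivity
  have hτ1 : τ ≤ 1 / 2 := by
    rw [hτ]
    exact one_div_le_one_div_of_le (by norm_num) (by linarith)
  have hK0' : (0 : ℝ) < K0 := by exact_mod_cast hK0
  have hev1 : ∀ᶠ κ : ℝ in Filter.atTop, (4 : ℝ) ≤ κ ^ (τ / 2) :=
    (tendsto_rpow_atTop (by positivity : 0 < τ / 2)).eventually_ge_atTop _
  have hev2 : ∀ᶠ κ : ℝ in Filter.atTop, 4 * K0 / cM ≤ κ ^ (1 / 2 : ℝ) :=
    (tendsto_rpow_atTop (by norm_num : (0:ℝ) < 1 / 2)).eventually_ge_atTop _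
  obtain ⟨K1, hK1⟩ := Filter.eventually_atTop.1 (hev1.and hev2)
  refine ⟨τ, max K1 1, hτ0, hτ1, le_max_right _ _, fun κ hκ w hw => ?_⟩
  obtain ⟨h1, h2⟩ := hK1 κ ((le_max_left _ _).trans hκ)
  have hκ1 : 1 ≤ κ := (le_max_right _ _).trans hκ
  have hκ0 : 0 < κ := by linarith
  have hsq : κ ^ τ = κ ^ (τ / 2) * κ ^ (τ / 2) := by
    rw [← Real.rpow_add hκ0]
    congr 1
    ring
  have hwl : κ ^ (τ / 2) ≤ w := by
    rw [hw]
    have h3 := Nat.lt_floor_add_one (κ ^ τ)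
    nlinarith
  have hw3 : 3 ≤ w := by
    have h3 : (4 : ℝ) ≤ w := h1.trans hwl
    have h4 : 4 ≤ w := by exact_mod_cast h3
    omega
  refine ⟨hw3, hwl, fun P hP q hq hPq n U hU => ?_⟩
  have hq0 : (0 : ℝ) < q := by exact_mod_cast hq
  have h3 := H C0 le_rfl w hw3 P hP q hq hPq n U
  have hVp : 0 < V P := V_pos fun p hp => (hP p hp).1
  have h4 := (abs_le.1 h3).2
  have h5 : (1 / 2 : ℝ) ^ C0 ≤ 1 := pow_le_one₀ (by norm_num) (by norm_num)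
  have hUq : κ ≤ (U : ℝ) / q := by rw [le_div_iff₀ hq0]; exact hU
  have hw0 : (0 : ℝ) < w := by exact_mod_cast (by omega : 0 < w)
  have hw1 : (1 : ℝ) < w := by exact_mod_cast (by omega : 1 < w)
  have hlw : 0 < Real.log w := Real.log_pos hw1
  have hVl : cM / w ≤ V P := by
    have h6 := HM w (by omega) P hP
    refine le_trans (div_le_div_of_nonneg_left hcM.le hlw ?_) h6
    have := Real.log_le_sub_one_of_pos hw0
    linarith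
  have h6 : (w : ℝ) ^ (e + 1) ≤ κ ^ (1 / 2 : ℝ) := by
    have h7 : (w : ℝ) ≤ κ ^ τ := by
      rw [hw]
      exact Nat.floor_le (by positivity)
    calc (w : ℝ) ^ (e + 1) ≤ (κ ^ τ) ^ (e + 1) := pow_le_pow_left₀ hw0.le h7 _
      _ = κ ^ (1 / 2 : ℝ) := by
        rw [← Real.rpow_natCast, ← Real.rpow_mul hκ0.le]
        congr 1
        rw [hτ]
        push_cast
        field_simp
  have hhalf : κ ^ (1 / 2 : ℝ) * κ ^ (1 / 2 : ℝ) = κ := by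
    rw [← Real.rpow_add hκ0]
    norm_num
  have hh0 : 0 < κ ^ (1 / 2 : ℝ) := by positivity
  have h8 : 4 * K0 * (w : ℝ) ^ e ≤ U / q * V P := by
    calc 4 * K0 * (w : ℝ) ^ e = (4 * K0 / cM * (w : ℝ) ^ (e + 1)) * (cM / w) := by
          rw [pow_succ]
          field_simp
      _ ≤ (κ ^ (1 / 2 : ℝ) * κ ^ (1 / 2 : ℝ)) * (cM / w) := by
          refine mul_le_mul_of_nonneg_right ?_ (by positivity)
          exact mul_le_mul h2 h6 (by positivity) hh0.le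
      _ = κ * (cM / w) := by rw [hhalf]
      _ ≤ U / q * V P := mul_le_mul hUq hVl (by positivity) (by positivity)
  have h9 : (1 / 2 : ℝ) ^ C0 * (U / q * V P) ≤ 1 * (U / q * V P) :=
    mul_le_mul_of_nonneg_right h5 (by positivity)
  rw [he] at h8
  have h10 : V P = ∏ p ∈ P, (1 - 1 / (p : ℝ)) := rfl
  rw [h10] at h8 h9 ⊢
  linarith

end Pool.Agent.Y835.SC
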