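import Pool.Agent.Y835.SC.Cov
import Pool.Agent.Y835.SC.Rem

/-!
Many integers `h ≤ U` such that `n + h` is free of the primes of `P`, if `n` is divisible by most of
the large primes of `P`.
-/

set_option autoImplicit false

namespace Pool.Agent.Y835.SC

open Finset

open Classical in
theorem cover_B {P : Finset ℕ} {n z w U : ℕ} {a : ℝ}
    (hR : ∀ q ∈ P.filter (fun p => z < p ∧ ¬ p ∣ n),
      (((Icc 1 U).filter (fun h => q ∣ n + h ∧
        ∀ p ∈ P.filter (fun p => p ≤ w) \ P.filter (fun p => z < p ∧ ¬ p ∣ n), ¬ p ∣ n + h)).card : ℝ)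
        ≤ a * (1 / (q : ℝ))) :
    (((Icc 1 U).filter (fun h => ∀ p ∈ P, (z < p → p ∣ n) → ¬ p ∣ n + h)).card : ℝ) ≤
      (((Icc 1 U).filter (fun h => ∀ p ∈ P, ¬ p ∣ n + h)).card : ℝ) +
        a * ∑ p ∈ P.filter (fun p => z < p ∧ ¬ p ∣ n), 1 / (p : ℝ) := by
  have h1 : (Icc 1 U).filter (fun h => ∀ p ∈ P, (z < p → p ∣ n) → ¬ p ∣ n + h) ⊆
      (Icc 1 U).filter (fun h => ∀ p ∈ P, ¬ p ∣ n + h) ∪
      (P.filter (fun p => z < p ∧ ¬ p ∣ n)).biUnion (fun q => (Icc 1 U).filter (fun h => q ∣ n + h ∧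
        ∀ p ∈ P.filter (fun p => p ≤ w) \ P.filter (fun p => z < p ∧ ¬ p ∣ n), ¬ p ∣ n + h)) := by
    intro h hh
    simp only [mem_filter, mem_union, mem_biUnion, mem_sdiff] at hh ⊢
    obtain ⟨h2, h3⟩ := hh
    by_cases h4 : ∀ p ∈ P, ¬ p ∣ n + h
    · exact Or.inl ⟨h2, h4⟩
    · right
      push Not at h4
      obtain ⟨q, hq, hqd⟩ := h4
      have h5 : z < q ∧ ¬ q ∣ n := by
        by_contra hc
        apply h3 q hq _ hqd
        intro h6
        by_contra h7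
        exact hc ⟨h6, h7⟩
      refine ⟨q, ⟨hq, h5⟩, h2, hqd, ?_⟩
      rintro p ⟨⟨hp, -⟩, hpB⟩
      apply h3 p hp
      intro h6
      by_contra h7
      exact hpB ⟨hp, h6, h7⟩
  have h2 := card_le_card h1
  have h3 := h2.trans (card_union_le _ _)
  have h4 : (((P.filter (fun p => z < p ∧ ¬ p ∣ n)).biUnion (fun q =>
      (Icc 1 U).filter (fun h => q ∣ n + h ∧
        ∀ p ∈ P.filter (fun p => p ≤ w) \ P.filter (fun p => z < p ∧ ¬ p ∣ n),
          ¬ p ∣ n + h))).card : ℝ) ≤ a * ∑ p ∈ P.filter (fun p => z < p ∧ ¬ p ∣ n), 1 / (p : ℝ) := by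
    have h5 := card_biUnion_le (s := P.filter (fun p => z < p ∧ ¬ p ∣ n)) (t := fun q =>
      (Icc 1 U).filter (fun h => q ∣ n + h ∧
        ∀ p ∈ P.filter (fun p => p ≤ w) \ P.filter (fun p => z < p ∧ ¬ p ∣ n), ¬ p ∣ n + h))
    refine (Nat.cast_le (α := ℝ).2 h5).trans ?_
    rw [Nat.cast_sum, mul_sum]
    exact sum_le_sum hR
  have h5 : (((Icc 1 U).filter (fun h => ∀ p ∈ P, (z < p → p ∣ n) → ¬ p ∣ n + h)).card : ℝ) ≤
      (((Icc 1 U).filter (fun h => ∀ p ∈ P, ¬ p ∣ n + h)).card : ℝ) +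
      (((P.filter (fun p => z < p ∧ ¬ p ∣ n)).biUnion (fun q =>
      (Icc 1 U).filter (fun h => q ∣ n + h ∧
        ∀ p ∈ P.filter (fun p => p ≤ w) \ P.filter (fun p => z < p ∧ ¬ p ∣ n),
          ¬ p ∣ n + h))).card : ℝ) := by exact_mod_cast h3
  linarith

theorem V_sdiff {A B : Finset ℕ} (hA : ∀ p ∈ A, p.Prime) (hB : ∀ p ∈ B, p.Prime)
    (hs : ∑ p ∈ B, 1 / (p : ℝ) ≤ 1) : V (A \ B) ≤ 8 * V A := by
  classical
  have h1 : V A = V (A \ B) * V (A ∩ B) := by
    rw [← V_disj (disjoint_sdiff_inter A B), sdiff_union_inter]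
  have h2 : Real.exp (-2) ≤ V (A ∩ B) := by
    refine le_trans (Real.exp_le_exp.2 ?_) (V_exp2 fun p hp => hB p (mem_inter.1 hp).2)
    have h3 : ∑ p ∈ A ∩ B, 1 / (p : ℝ) ≤ ∑ p ∈ B, 1 / (p : ℝ) :=
      sum_le_sum_of_subset_of_nonneg inter_subset_right fun p _ _ => by positivity
    linarith
  have h3 : (1 / 8 : ℝ) ≤ Real.exp (-2) := by
    have h4 : Real.exp (-2) = (Real.exp 1)⁻¹ * (Real.exp 1)⁻¹ := by
      rw [← Real.exp_neg, ← Real.exp_add]; norm_num
    have h5 := Real.exp_one_lt_d9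
    have h6 : (1 / 2.8 : ℝ) ≤ (Real.exp 1)⁻¹ := by
      rw [one_div]
      exact inv_anti₀ (Real.exp_pos _) (by linarith)
    rw [h4]
    nlinarith
  have h4 : 0 < V (A \ B) := V_pos fun p hp => hA p (mem_sdiff.1 hp).1
  rw [h1]
  nlinarith

theorem low_prod {cR τ : ℝ} (hcR : 0 < cR)
    (RAT : ∀ w x : ℕ, 2 ≤ w → w ≤ x → ∀ Q : Finset ℕ, (∀ p ∈ Q, p.Prime ∧ w < p ∧ p ≤ x) →
      cR * (Real.log w / Real.log x) ≤ V Q) {P : Finset ℕ} (hP : ∀ p ∈ P, p.Prime)
    {w z M : ℕ} {κ : ℝ} (hw : 3 ≤ w) (hz : 2 ≤ z) (hκ : 1 < κ) (hwκ : (w : ℝ) ≤ κ)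
    (hMκ : (M : ℝ) ≤ κ) (hwl : κ ^ (τ / 2) ≤ w) (hτ : 0 < τ) :
    cR * (τ / 2) * min 1 (Real.log κ / Real.log z) * V (P.filter (fun p => p ≤ w)) ≤
      V (P.filter (fun p => p ≤ max z M)) := by
  classical
  have hL : 0 < Real.log κ := Real.log_pos hκ
  have hlz : 0 < Real.log z := Real.log_pos (by exact_mod_cast (by omega : 1 < z))
  have hVw : 0 < V (P.filter (fun p => p ≤ w)) := V_pos fun p hp => hP p (mem_filter.1 hp).1
  obtain ⟨X, hX⟩ : ∃ X : ℕ, X = max (max z M) w := ⟨_, rfl⟩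
  have h1 : V (P.filter (fun p => p ≤ X)) ≤ V (P.filter (fun p => p ≤ max z M)) :=
    V_anti (fun p hp => mem_filter.2 ⟨(mem_filter.1 hp).1, (mem_filter.1 hp).2.trans (by
      rw [hX]; exact le_max_left _ _)⟩) fun p hp => hP p (mem_filter.1 hp).1
  have h2 : V (P.filter (fun p => p ≤ X)) =
      V (P.filter (fun p => p ≤ w)) * V (P.filter (fun p => w < p ∧ p ≤ X)) := by
    rw [← V_disj]
    · congr 1
      ext p
      simp only [mem_filter, mem_union]
      constructor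
      · rintro ⟨h3, h4⟩
        rcases le_or_gt p w with h5 | h5
        · exact Or.inl ⟨h3, h5⟩
        · exact Or.inr ⟨h3, h5, h4⟩
      · rintro (⟨h3, h4⟩ | ⟨h3, h4, h5⟩)
        · exact ⟨h3, h4.trans (by rw [hX]; exact le_max_right _ _)⟩
        · exact ⟨h3, h5⟩
    · rw [disjoint_left]
      intro p hp hp'
      have h3 := (mem_filter.1 hp).2
      have h4 := (mem_filter.1 hp').2.1
      omega
  have h3 := RAT w X (by omega) (by rw [hX]; exact le_max_right _ _)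
    (P.filter (fun p => w < p ∧ p ≤ X)) (fun p hp => by
      have h4 := mem_filter.1 hp
      exact ⟨hP p h4.1, h4.2⟩)
  have hX3 : 3 ≤ X := by rw [hX]; omega
  have hlX : 0 < Real.log X := Real.log_pos (by exact_mod_cast (by omega : 1 < X))
  have hlXle : Real.log X ≤ max (Real.log z) (Real.log κ) := by
    have h4 : X = z ∨ X = M ∨ X = w := by rw [hX]; omega
    rcases h4 with h4 | h4 | h4
    · rw [h4]; exact le_max_left _ _
    · refine le_trans (Real.log_le_log (by exact_mod_cast (by omega : 0 < X)) ?_) (le_max_right _ _)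
      rw [h4]; exact hMκ
    · refine le_trans (Real.log_le_log (by exact_mod_cast (by omega : 0 < X)) ?_) (le_max_right _ _)
      rw [h4]; exact hwκ
  have hlw : τ / 2 * Real.log κ ≤ Real.log w := by
    rw [← Real.log_rpow (by linarith)]
    exact Real.log_le_log (by positivity) hwl
  have h5 : τ / 2 * min 1 (Real.log κ / Real.log z) ≤ Real.log w / Real.log X := by
    rw [le_div_iff₀ hlX]
    have h6 : min 1 (Real.log κ / Real.log z) * Real.log X ≤ Real.log κ := by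
      rcases max_cases (Real.log z) (Real.log κ) with ⟨h7, -⟩ | ⟨h7, -⟩
      · rw [h7] at hlXle
        calc min 1 (Real.log κ / Real.log z) * Real.log X ≤
            (Real.log κ / Real.log z) * Real.log z :=
              mul_le_mul (min_le_right _ _) hlXle hlX.le (by positivity)
          _ = Real.log κ := by field_simp
      · rw [h7] at hlXle
        calc min 1 (Real.log κ / Real.log z) * Real.log X ≤ 1 * Real.log κ :=
              mul_le_mul (min_le_left _ _) hlXle hlX.le (by norm_num)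
          _ = Real.log κ := one_mul _
    calc τ / 2 * min 1 (Real.log κ / Real.log z) * Real.log X =
        τ / 2 * (min 1 (Real.log κ / Real.log z) * Real.log X) := by ring
      _ ≤ τ / 2 * Real.log κ := mul_le_mul_of_nonneg_left h6 (by positivity)
      _ ≤ Real.log w := hlw
  refine le_trans ?_ h1
  rw [h2, mul_comm (V (P.filter (fun p => p ≤ w)))]
  refine mul_le_mul_of_nonneg_right ?_ hVw.le
  refine le_trans ?_ h3
  rw [mul_assoc]
  exact mul_le_mul_of_nonneg_left h5 hcR.le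

open Classical in
/-- the covering theorem -/
theorem main : ∃ (c : ℝ) (K0 Y0 : ℕ), 0 < c ∧ c ≤ 1 ∧ 2 ≤ K0 ∧ 3 ≤ Y0 ∧ ∀ y U z n : ℕ, Y0 ≤ y →
    K0 * y ≤ U → U ≤ y ^ 3 → 2 ≤ z → (z : ℝ) ≤ (y : ℝ) ^ c →
    ∀ P : Finset ℕ, (∀ p ∈ P, p.Prime ∧ p ≤ y) → ∀ θ : ℝ,
    θ = Real.log ((U : ℝ) / y) / Real.log y * min 1 (Real.log ((U : ℝ) / y) / Real.log z) →
    ∑ p ∈ P.filter (fun p => z < p ∧ ¬ p ∣ n), 1 / (p : ℝ) ≤ c * θ →
    c * θ * (U * V P) ≤ (((Icc 1 U).filter (fun h => ∀ p ∈ P, ¬ p ∣ n + h)).card : ℝ) := by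
  obtain ⟨m₀, K, Y1, c9, hm₀, hK, hc9, LOW⟩ := low
  obtain ⟨τ, K1, hτ0, hτ1, hK1, REM⟩ := rem_bound
  obtain ⟨cR, hcR, hcR1, RAT⟩ := V_ratio
  obtain ⟨c10, hc10⟩ : ∃ c10 : ℝ, c10 = c9 * cR * τ / 8 := ⟨_, rfl⟩
  have hc10' : 0 < c10 := by rw [hc10]; positivity
  have hKr : (1 : ℝ) ≤ K := by exact_mod_cast hK
  have hm₀r : (1 : ℝ) ≤ m₀ := by exact_mod_cast hm₀
  obtain ⟨c, hc⟩ : ∃ c : ℝ, c = min (c10 / 48) (min (1 / K) (1 / 2)) := ⟨_, rfl⟩
  have hc0 : 0 < c := by rw [hc]; positivity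
  have hcc : c ≤ c10 / 48 := by rw [hc]; exact min_le_left _ _
  have hcK : c ≤ 1 / K := by rw [hc]; exact (min_le_right _ _).trans (min_le_left _ _)
  have hc2 : c ≤ 1 / 2 := by rw [hc]; exact (min_le_right _ _).trans (min_le_right _ _)
  refine ⟨c, max (max ⌈K1⌉₊ ((20 * m₀) ^ 4)) 2, max Y1 3, hc0, by linarith, le_max_right _ _,
    le_max_right _ _, ?_⟩
  intro y U z n hy hU hUy hz hzy P hP θ hθ hS
  have hy1 : Y1 ≤ y := (le_max_left _ _).trans hy
  have hy3 : 3 ≤ y := (le_max_right _ _).trans hy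
  have hPp : ∀ p ∈ P, p.Prime := fun p hp => (hP p hp).1
  have hyr : (3 : ℝ) ≤ y := by exact_mod_cast hy3
  have hy0 : (0 : ℝ) < y := by linarith
  have hly : 0 < Real.log y := Real.log_pos (by linarith)
  have hlz : 0 < Real.log z := Real.log_pos (by exact_mod_cast (by omega : 1 < z))
  obtain ⟨κ, hκ⟩ : ∃ κ : ℝ, κ = (U : ℝ) / y := ⟨_, rfl⟩
  rw [← hκ] at hθ
  have hκy : κ * y = U := by rw [hκ]; field_simp
  have hκK : ((max (max ⌈K1⌉₊ ((20 * m₀) ^ 4)) 2 : ℕ) : ℝ) ≤ κ := by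
    rw [hκ, le_div_iff₀ hy0]; exact_mod_cast hU
  have hκ1 : K1 ≤ κ := by
    refine (Nat.le_ceil K1).trans (le_trans ?_ hκK)
    exact_mod_cast (le_max_left _ _).trans (le_max_left _ _)
  have hκ2 : (20 * (m₀ : ℝ)) ^ 4 ≤ κ := by
    refine le_trans ?_ hκK
    have h1 : (20 * m₀) ^ 4 ≤ max (max ⌈K1⌉₊ ((20 * m₀) ^ 4)) 2 :=
      (le_max_right _ _).trans (le_max_left _ _)
    calc (20 * (m₀ : ℝ)) ^ 4 = (((20 * m₀) ^ 4 : ℕ) : ℝ) := by push_cast; ring
      _ ≤ _ := by exact_mod_cast h1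
  have hκ3 : (2 : ℝ) ≤ κ := by
    refine le_trans ?_ hκK
    exact_mod_cast le_max_right _ _
  have hκ0 : 0 < κ := by linarith
  have hL : 0 < Real.log κ := Real.log_pos (by linarith)
  have hκy2 : κ ≤ (y : ℝ) ^ 2 := by
    rw [hκ, div_le_iff₀ hy0]
    calc (U : ℝ) ≤ (y : ℝ) ^ 3 := by exact_mod_cast hUy
      _ = (y : ℝ) ^ 2 * y := by ring
  have hL2 : Real.log κ ≤ 2 * Real.log y := by
    have h1 := Real.log_le_log hκ0 hκy2
    rw [Real.log_pow] at h1
    exact_mod_cast h1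
  have hmin0 : 0 < min 1 (Real.log κ / Real.log z) := lt_min one_pos (by positivity)
  have hθ0 : 0 < θ := by rw [hθ]; positivity
  have hθ2 : θ ≤ 2 := by
    rw [hθ]
    calc Real.log κ / Real.log y * min 1 (Real.log κ / Real.log z) ≤ 2 * 1 :=
          mul_le_mul (by rw [div_le_iff₀ hly]; exact hL2) (min_le_left _ _) hmin0.le (by norm_num)
      _ = 2 := by norm_num
  have hS1 : ∑ p ∈ P.filter (fun p => z < p ∧ ¬ p ∣ n), 1 / (p : ℝ) ≤ 1 := by
    refine hS.trans ?_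
    calc c * θ ≤ 1 / 2 * 2 := mul_le_mul hc2 hθ2 hθ0.le (by norm_num)
      _ = 1 := by norm_num
  -- the parameters
  obtain ⟨w, hw⟩ : ∃ w : ℕ, w = ⌊κ ^ τ⌋₊ := ⟨_, rfl⟩
  obtain ⟨hw3, hwl, REM'⟩ := REM κ hκ1 w hw
  have hwκ : (w : ℝ) ≤ κ := by
    rw [hw]
    refine (Nat.floor_le (by positivity)).trans ?_
    calc κ ^ τ ≤ κ ^ (1 : ℝ) := Real.rpow_le_rpow_of_exponent_le (by linarith) (by linarith)
      _ = κ := Real.rpow_one κ
  obtain ⟨x, hx⟩ : ∃ x : ℝ, x = κ ^ (1 / 4 : ℝ) := ⟨_, rfl⟩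
  have hx0 : 0 < x := by rw [hx]; positivity
  have hx4 : x ^ 4 = κ := by
    rw [hx, ← Real.rpow_natCast, ← Real.rpow_mul hκ0.le]
    norm_num
  have hxm : 20 * (m₀ : ℝ) ≤ x := by
    rw [← hx4] at hκ2
    exact le_of_pow_le_pow_left₀ (by norm_num) hx0.le hκ2
  obtain ⟨M, hM⟩ : ∃ M : ℕ, M = ⌊x ^ 2 / (10 * m₀)⌋₊ := ⟨_, rfl⟩
  have hMle : (M : ℝ) ≤ x ^ 2 / (10 * m₀) := by rw [hM]; exact Nat.floor_le (by positivity)
  have hMge : x ≤ M := by
    have h1 := Nat.lt_floor_add_one (x ^ 2 / (10 * m₀))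
    rw [← hM] at h1
    have h2 : 2 * x ≤ x ^ 2 / (10 * m₀) := by
      rw [le_div_iff₀ (by positivity)]
      nlinarith
    linarith
  have hM1 : 1 ≤ M := by
    have h1 : (1 : ℝ) ≤ M := by linarith
    exact_mod_cast h1
  have hx2y : x ^ 2 ≤ y := by
    have h1 : (x ^ 2) ^ 2 ≤ (y : ℝ) ^ 2 := by
      calc (x ^ 2) ^ 2 = x ^ 4 := by ring
        _ ≤ _ := by rw [hx4]; exact hκy2
    exact le_of_pow_le_pow_left₀ (by norm_num) hy0.le h1
  have hMx : (M : ℝ) ≤ x ^ 2 := hMle.trans (div_le_self (by positivity) (by linarith))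
  have hMy : M ≤ y := by exact_mod_cast hMx.trans hx2y
  have hxx : x ^ 2 ≤ κ := by
    rw [← hx4]
    have h1 : 1 ≤ x ^ 2 := by nlinarith
    nlinarith
  have hMκ : (M : ℝ) ≤ κ := hMx.trans hxx
  have hlM : Real.log κ / 4 ≤ Real.log M := by
    have h1 : Real.log x = Real.log κ / 4 := by
      rw [hx, Real.log_rpow hκ0]; ring
    rw [← h1]
    exact Real.log_le_log hx0 hMge
  have hUM : 10 * m₀ * y * M ≤ U := by
    have h1 : (10 * m₀ * y * M : ℝ) ≤ U := by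
      rw [← hκy]
      have h2 : (M : ℝ) * (10 * m₀) ≤ x ^ 2 := by
        rwa [le_div_iff₀ (by positivity)] at hMle
      nlinarith
    exact_mod_cast h1
  have hzK : z ^ K ≤ y := by
    have h1 : (z : ℝ) ^ K ≤ y := by
      calc (z : ℝ) ^ K ≤ ((y : ℝ) ^ c) ^ K := pow_le_pow_left₀ (Nat.cast_nonneg z) hzy K
        _ = (y : ℝ) ^ (c * K) := by rw [← Real.rpow_natCast, ← Real.rpow_mul hy0.le]
        _ ≤ (y : ℝ) ^ (1 : ℝ) := by
          refine Real.rpow_le_rpow_of_exponent_le (by linarith) ?_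
          rw [le_div_iff₀ (by linarith)] at hcK
          exact hcK
        _ = y := Real.rpow_one _
    exact_mod_cast h1
  have hUy4 : U ≤ y ^ 4 := hUy.trans (Nat.pow_le_pow_right (by omega) (by norm_num))
  have h1 := LOW y U z M n hy1 hUM hUy4 hz hzK hM1 hMy P hP
  have h2 := low_prod hcR RAT hPp hw3 hz (by linarith) hwκ hMκ hwl hτ0
  have hVw : 0 < V (P.filter (fun p => p ≤ w)) := V_pos fun p hp => hPp p (mem_filter.1 hp).1
  have hVP : 0 < V P := V_pos hPp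
  have hVPw : V P ≤ V (P.filter (fun p => p ≤ w)) := V_anti (filter_subset _ _) hPp
  have h3 : c10 * θ * (U * V (P.filter (fun p => p ≤ w))) ≤
      c9 * (U * (Real.log M / Real.log y) * V (P.filter (fun p => p ≤ max z M))) := by
    calc c10 * θ * (U * V (P.filter (fun p => p ≤ w))) =
        c9 * (U * (Real.log κ / 4 / Real.log y) *
          (cR * (τ / 2) * min 1 (Real.log κ / Real.log z) * V (P.filter (fun p => p ≤ w)))) := by
          rw [hθ, hc10]; ring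
      _ ≤ _ := by
          refine mul_le_mul_of_nonneg_left ?_ hc9.le
          refine mul_le_mul ?_ h2 (by positivity) (by positivity)
          exact mul_le_mul_of_nonneg_left (div_le_div_of_nonneg_right hlM hly.le)
            (Nat.cast_nonneg U)
  have hVs := V_sdiff (A := P.filter (fun p => p ≤ w)) (B := P.filter (fun p => z < p ∧ ¬ p ∣ n))
    (fun p hp => hPp p (mem_filter.1 hp).1) (fun p hp => hPp p (mem_filter.1 hp).1) hS1
  have h4 := cover_B (P := P) (n := n) (z := z) (w := w) (U := U)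
    (a := 24 * (U * V (P.filter (fun p => p ≤ w)))) (by
      intro q hq
      have h5 := mem_filter.1 hq
      have hqp := hPp q h5.1
      have h6 := REM' (P.filter (fun p => p ≤ w) \ P.filter (fun p => z < p ∧ ¬ p ∣ n))
        (fun p hp => by
          have h7 := mem_filter.1 (mem_sdiff.1 hp).1
          exact ⟨hPp p h7.1, h7.2⟩) q hqp.pos (fun p hp hd => by
          have h7 := mem_sdiff.1 hp
          have h8 := (Nat.prime_dvd_prime_iff_eq (hPp p (mem_filter.1 h7.1).1) hqp).1 hd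
          exact h7.2 (h8 ▸ hq)) n U (by
          rw [← hκy]
          exact mul_le_mul_of_nonneg_left (by exact_mod_cast (hP q h5.1).2) hκ0.le)
      refine h6.trans ?_
      have hq0 : (0 : ℝ) < q := by exact_mod_cast hqp.pos
      calc 3 * ((U : ℝ) / q * V (P.filter (fun p => p ≤ w) \ P.filter (fun p => z < p ∧ ¬ p ∣ n))) ≤
          3 * ((U : ℝ) / q * (8 * V (P.filter (fun p => p ≤ w)))) :=
            mul_le_mul_of_nonneg_left (mul_le_mul_of_nonneg_left hVs (by positivity)) (by norm_num)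
        _ = 24 * (U * V (P.filter (fun p => p ≤ w))) * (1 / (q : ℝ)) := by ring)
  have h5 : 24 * (U * V (P.filter (fun p => p ≤ w))) *
      ∑ p ∈ P.filter (fun p => z < p ∧ ¬ p ∣ n), 1 / (p : ℝ) ≤
      c10 / 2 * θ * (U * V (P.filter (fun p => p ≤ w))) := by
    calc _ ≤ 24 * (U * V (P.filter (fun p => p ≤ w))) * (c * θ) :=
          mul_le_mul_of_nonneg_left hS (by positivity)
      _ ≤ 24 * (U * V (P.filter (fun p => p ≤ w))) * (c10 / 48 * θ) :=
          mul_le_mul_of_nonneg_left (mul_le_mul_of_nonneg_right hcc hθ0.le) (by positivity)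
      _ = _ := by ring
  have h6 : c * θ * (U * V P) ≤ c10 / 2 * θ * (U * V (P.filter (fun p => p ≤ w))) := by
    have h7 : c ≤ c10 / 2 := by linarith
    have h8 : c * θ ≤ c10 / 2 * θ := mul_le_mul_of_nonneg_right h7 hθ0.le
    exact mul_le_mul h8 (mul_le_mul_of_nonneg_left hVPw (Nat.cast_nonneg U)) (by positivity)
      (by positivity)
  linarith

end Pool.Agent.Y835.SC
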