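import Mathlib

/-!
A Chebyshev lower bound for the number of primes of an interval.
-/

set_option autoImplicit false

namespace Pool.Agent.Y835.SC

open Finset

theorem theta_low : ∃ Y0 : ℕ, ∀ v : ℕ, Y0 ≤ v → (64 / 100 : ℝ) * v ≤ Chebyshev.theta v := by
  have h1 : ∀ᶠ v : ℕ in Filter.atTop, (1000 : ℝ) ≤ (v : ℝ) ^ (1 / 4 : ℝ) :=
    ((tendsto_rpow_atTop (by norm_num : (0:ℝ) < 1 / 4)).comp
      tendsto_natCast_atTop_atTop).eventually_ge_atTop _
  obtain ⟨Y0, h2⟩ := Filter.eventually_atTop.1 h1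
  refine ⟨max Y0 1, fun v hv => ?_⟩
  have h3 := h2 v ((le_max_left _ _).trans hv)
  have hv1 : 1 ≤ v := (le_max_right _ _).trans hv
  have hv0 : (1 : ℝ) ≤ v := by exact_mod_cast hv1
  have h4 := Chebyshev.theta_ge v
  set x : ℝ := (v : ℝ) ^ (1 / 4 : ℝ) with hx
  have hx0 : 0 < x := by linarith
  have hvx : (v : ℝ) = x ^ 4 := by
    rw [hx, ← Real.rpow_natCast, ← Real.rpow_mul (by linarith)]
    norm_num
  have hsq : √(v : ℝ) = x ^ 2 := by
    rw [hvx, show x ^ 4 = (x ^ 2) ^ 2 by ring]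
    exact Real.sqrt_sq (by positivity)
  have hlx : Real.log x ≤ x := by
    have := Real.log_le_sub_one_of_pos hx0
    linarith
  have hlv : Real.log v ≤ 4 * x := by
    rw [hvx, Real.log_pow]
    push_cast
    linarith
  have hlv0 : 0 ≤ Real.log v := Real.log_nonneg hv0
  have hl1 : Real.log ((v : ℝ) + 1) ≤ 8 * x := by
    have h5 : Real.log ((v : ℝ) + 1) ≤ Real.log ((v : ℝ) * 2) :=
      Real.log_le_log (by linarith) (by linarith)
    rw [Real.log_mul (by linarith) (by norm_num)] at h5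
    have := Real.log_two_lt_d9
    linarith
  have hl2 := Real.log_two_gt_d9
  rw [hsq] at h4
  have h6 : 2 * x ^ 2 * Real.log v ≤ 8 * x ^ 3 := by
    calc 2 * x ^ 2 * Real.log v ≤ 2 * x ^ 2 * (4 * x) :=
          mul_le_mul_of_nonneg_left hlv (by positivity)
      _ = 8 * x ^ 3 := by ring
  have h7 : 8 * x ≤ x ^ 3 := by
    have : 8 ≤ x ^ 2 := by nlinarith
    calc 8 * x ≤ x ^ 2 * x := mul_le_mul_of_nonneg_right this hx0.le
      _ = x ^ 3 := by ring
  have h8 : 9 * x ^ 3 ≤ (9 / 1000) * x ^ 4 := by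
    have : 9 * x ^ 3 = (9 / 1000) * (1000 * x ^ 3) := by ring
    rw [this]
    refine mul_le_mul_of_nonneg_left ?_ (by norm_num)
    calc 1000 * x ^ 3 ≤ x * x ^ 3 := mul_le_mul_of_nonneg_right h3 (by positivity)
      _ = x ^ 4 := by ring
  have h9 : (v : ℝ) * Real.log 2 ≥ (693 / 1000) * v := by nlinarith
  rw [← hvx] at h8
  linarith

/-- the primes of `(y, v]` -/
theorem primes_low : ∃ Y0 : ℕ, ∀ y v : ℕ, Y0 ≤ y → 10 * y ≤ v →
    (v : ℝ) / (2 * Real.log v) ≤ (((Ioc y v).filter Nat.Prime).card : ℝ) := by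
  obtain ⟨Y0, h⟩ := theta_low
  refine ⟨max Y0 2, fun y v hy hyv => ?_⟩
  have hy0 : Y0 ≤ y := (le_max_left _ _).trans hy
  have hy2 : 2 ≤ y := (le_max_right _ _).trans hy
  have hyv' : y ≤ v := by omega
  have h1 := h v (by omega)
  have h2 := Chebyshev.theta_le_log4_mul_x (x := (y : ℝ)) (by positivity)
  have hl4 : Real.log 4 ≤ 1.3863 := by
    have := Real.log_two_lt_d9
    rw [show (4 : ℝ) = 2 ^ 2 by norm_num, Real.log_pow]
    push_cast
    linarith
  have hv1 : (1 : ℝ) < v := by exact_mod_cast (by omega : 1 < v)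
  have hlv : 0 < Real.log v := Real.log_pos hv1
  have h3 : Chebyshev.theta v - Chebyshev.theta y ≤
      (((Ioc y v).filter Nat.Prime).card : ℝ) * Real.log v := by
    have e1 : Chebyshev.theta v = Chebyshev.theta y +
        ∑ p ∈ (Ioc y v).filter Nat.Prime, Real.log p := by
      unfold Chebyshev.theta
      rw [Nat.floor_natCast, Nat.floor_natCast, ← Ioc_union_Ioc_eq_Ioc (Nat.zero_le y) hyv',
        filter_union, sum_union]
      rw [disjoint_left]
      intro p hp hp'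
      rw [mem_filter, mem_Ioc] at hp hp'
      omega
    rw [e1, add_sub_cancel_left]
    refine (sum_le_card_nsmul _ _ (Real.log v) fun p hp => ?_).trans ?_
    · rw [mem_filter, mem_Ioc] at hp
      exact Real.log_le_log (by exact_mod_cast hp.2.pos) (by exact_mod_cast hp.1.2)
    · rw [nsmul_eq_mul]
  have hyv2 : (10 : ℝ) * y ≤ v := by exact_mod_cast hyv
  have h4 : Real.log 4 * y ≤ 1.3863 * y := mul_le_mul_of_nonneg_right hl4 (by positivity)
  rw [div_le_iff₀ (by positivity)]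
  nlinarith

end Pool.Agent.Y835.SC
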