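import Pool.Agent.Y835.SB.Sub

/-!
Products `∏ (1 - 1 / p)` over finite sets of primes.
-/

set_option autoImplicit false

namespace Pool.Agent.Y835.SC

open Finset

/-- the product of `1 - 1 / p` -/
noncomputable def V (P : Finset ℕ) : ℝ := ∏ p ∈ P, (1 - 1 / (p : ℝ))

theorem f_nonneg {p : ℕ} (h : 2 ≤ p) : 0 < 1 - 1 / (p : ℝ) := by
  have h1 : (2 : ℝ) ≤ p := by exact_mod_cast h
  rw [sub_pos, div_lt_one (by linarith)]
  linarith

theorem f_le_one (p : ℕ) : 1 - 1 / (p : ℝ) ≤ 1 := by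
  have : 0 ≤ 1 / (p : ℝ) := by positivity
  linarith

theorem f_exp {p : ℕ} (h : 2 ≤ p) : Real.exp (-(1 / ((p : ℝ) - 1))) ≤ 1 - 1 / (p : ℝ) := by
  have h1 : (2 : ℝ) ≤ p := by exact_mod_cast h
  have h2 : (0 : ℝ) < (p : ℝ) - 1 := by linarith
  have h3 := Real.add_one_le_exp (1 / ((p : ℝ) - 1))
  rw [Real.exp_neg]
  have h4 : 1 - 1 / (p : ℝ) = (1 / ((p : ℝ) - 1) + 1)⁻¹ := by
    field_simp
    ring
  rw [h4]
  exact inv_anti₀ (by positivity) h3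

theorem V_pos {P : Finset ℕ} (h : ∀ p ∈ P, p.Prime) : 0 < V P :=
  prod_pos fun p hp => f_nonneg (h p hp).two_le

theorem V_le_one {P : Finset ℕ} (h : ∀ p ∈ P, p.Prime) : V P ≤ 1 :=
  prod_le_one (fun p hp => (f_nonneg (h p hp).two_le).le) fun p _ => f_le_one p

theorem V_anti {P Q : Finset ℕ} (hPQ : P ⊆ Q) (h : ∀ p ∈ Q, p.Prime) : V Q ≤ V P := by
  classical
  unfold V
  rw [← prod_sdiff hPQ]
  have h1 : ∏ p ∈ Q \ P, (1 - 1 / (p : ℝ)) ≤ 1 :=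
    V_le_one (P := Q \ P) fun p hp => h p (mem_sdiff.1 hp).1
  have h2 : 0 < ∏ p ∈ P, (1 - 1 / (p : ℝ)) := V_pos (P := P) fun p hp => h p (hPQ hp)
  calc _ ≤ 1 * ∏ p ∈ P, (1 - 1 / (p : ℝ)) := mul_le_mul_of_nonneg_right h1 h2.le
    _ = _ := one_mul _

theorem V_union {P Q : Finset ℕ} (hP : ∀ p ∈ P, p.Prime) (hQ : ∀ p ∈ Q, p.Prime) :
    V P * V Q ≤ V (P ∪ Q) := by
  classical
  have h := prod_union_inter (s₁ := P) (s₂ := Q) (f := fun p : ℕ => 1 - 1 / (p : ℝ))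
  unfold V
  rw [← h]
  have h1 : ∏ p ∈ P ∩ Q, (1 - 1 / (p : ℝ)) ≤ 1 :=
    V_le_one (P := P ∩ Q) fun p hp => hP p (mem_of_mem_inter_left hp)
  have h2 : 0 < ∏ p ∈ P ∪ Q, (1 - 1 / (p : ℝ)) :=
    V_pos (P := P ∪ Q) fun p hp => (mem_union.1 hp).elim (hP p) (hQ p)
  calc _ ≤ (∏ p ∈ P ∪ Q, (1 - 1 / (p : ℝ))) * 1 := mul_le_mul_of_nonneg_left h1 h2.le
    _ = _ := mul_one _

theorem V_disj {P Q : Finset ℕ} (h : Disjoint P Q) : V (P ∪ Q) = V P * V Q := by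
  classical
  exact prod_union h

theorem V_exp {P : Finset ℕ} (h : ∀ p ∈ P, p.Prime) :
    Real.exp (-(∑ p ∈ P, 1 / (p : ℝ) + 1)) ≤ V P := by
  have h1 : ∏ p ∈ P, Real.exp (-(1 / (p : ℝ) + 1 / ((p : ℝ) * (p - 1)))) ≤ V P := by
    refine prod_le_prod (fun p _ => (Real.exp_pos _).le) fun p hp => ?_
    have h2 := f_exp (h p hp).two_le
    have h3 : (2 : ℝ) ≤ p := by exact_mod_cast (h p hp).two_le
    have h4 : (0 : ℝ) < (p : ℝ) - 1 := by linarith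
    have h5 : 1 / (p : ℝ) + 1 / ((p : ℝ) * (p - 1)) = 1 / ((p : ℝ) - 1) := by
      field_simp
      ring
    rw [h5]
    exact h2
  refine le_trans ?_ h1
  rw [← Real.exp_sum]
  refine Real.exp_le_exp.2 ?_
  rw [sum_neg_distrib, sum_add_distrib]
  have h2 := Pool.Agent.Y835.SB.sum_tele P fun p hp => (h p hp).two_le
  linarith

theorem V_exp2 {P : Finset ℕ} (h : ∀ p ∈ P, p.Prime) :
    Real.exp (-(2 * ∑ p ∈ P, 1 / (p : ℝ))) ≤ V P := by
  have h1 : ∏ p ∈ P, Real.exp (-(2 * (1 / (p : ℝ)))) ≤ V P := by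
    refine prod_le_prod (fun p _ => (Real.exp_pos _).le) fun p hp => ?_
    refine le_trans ?_ (f_exp (h p hp).two_le)
    refine Real.exp_le_exp.2 (neg_le_neg ?_)
    have h3 : (2 : ℝ) ≤ p := by exact_mod_cast (h p hp).two_le
    have h4 : (0 : ℝ) < (p : ℝ) - 1 := by linarith
    rw [mul_one_div, div_le_div_iff₀ h4 (by linarith)]
    linarith
  refine le_trans ?_ h1
  rw [← Real.exp_sum]
  refine Real.exp_le_exp.2 ?_
  rw [sum_neg_distrib, mul_sum]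

/-- Mertens: primes between `w` and `x` -/
theorem V_ratio : ∃ c : ℝ, 0 < c ∧ c ≤ 1 ∧ ∀ w x : ℕ, 2 ≤ w → w ≤ x → ∀ Q : Finset ℕ,
    (∀ p ∈ Q, p.Prime ∧ w < p ∧ p ≤ x) → c * (Real.log w / Real.log x) ≤ V Q := by
  obtain ⟨C, hC0, hC⟩ := Pool.Agent.Helper923.HMertens.mertens_ratio
  have hl2 : 0 < Real.log 2 := Real.log_pos (by norm_num)
  refine ⟨Real.exp (-(C / Real.log 2 + 1)), Real.exp_pos _, by
    rw [Real.exp_le_one_iff]; have : 0 ≤ C / Real.log 2 := by positivity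
    linarith, fun w x hw hwx Q hQ => ?_⟩
  have hlw : 0 < Real.log w := Real.log_pos (by exact_mod_cast (by omega : 1 < w))
  have hlx : 0 < Real.log x := Real.log_pos (by exact_mod_cast (by omega : 1 < x))
  refine le_trans ?_ (V_exp fun p hp => (hQ p hp).1)
  have h1 := (abs_le.1 (hC w x hw hwx)).2
  have h2 : ∑ p ∈ Q, 1 / (p : ℝ) ≤ ∑ p ∈ (Ioc w x).filter Nat.Prime, (1 : ℝ) / p :=
    sum_le_sum_of_subset_of_nonneg (fun p hp => by
      obtain ⟨h3, h4, h5⟩ := hQ p hp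
      exact mem_filter.2 ⟨mem_Ioc.2 ⟨h4, h5⟩, h3⟩) fun p _ _ => by positivity
  have h3 : C / Real.log w ≤ C / Real.log 2 :=
    div_le_div_of_nonneg_left hC0 hl2 (Real.log_le_log (by norm_num) (by exact_mod_cast hw))
  have h4 : Real.log w / Real.log x = Real.exp (-(Real.log (Real.log x / Real.log w))) := by
    rw [Real.exp_neg, Real.exp_log (by positivity), inv_div]
  rw [h4, ← Real.exp_add]
  refine Real.exp_le_exp.2 ?_
  linarith

end Pool.Agent.Y835.SC
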