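import Pool.Agent.Y835.SC.Psl
import Pool.Agent.Y835.SC.Prod
import Pool.Agent.Y835.SC.PLow

/-!
The multiples `m q` (`q` prime) which avoid given residue classes modulo small primes.
-/

set_option autoImplicit false

namespace Pool.Agent.Y835.SC

open Finset Pool.Agent.TH423.SH

/-- the classes which `q` has to avoid -/
def Om (P : Finset ℕ) (m n p : ℕ) : Finset ℕ :=
  if p ∈ P ∧ ¬ p ∣ m then (range p).filter (fun c => p ∣ n + m * c) else ∅

theorem Om_card {P : Finset ℕ} {m n p : ℕ} (hp : p.Prime) : (Om P m n p).card ≤ 1 := by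
  unfold Om
  split_ifs with h
  · refine card_le_one.2 fun a ha b hb => ?_
    rw [mem_filter, mem_range] at ha hb
    rcases le_total a b with hab | hab
    · have h1 : p ∣ m * (b - a) := by
        have h2 := Nat.dvd_sub hb.2 ha.2
        have h3 : n + m * b - (n + m * a) = m * (b - a) := by
          rw [Nat.mul_sub]; omega
        rwa [h3] at h2
      rcases hp.dvd_mul.1 h1 with h2 | h2
      · exact absurd h2 h.2
      · have := Nat.eq_zero_of_dvd_of_lt h2 (by omega)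
        omega
    · have h1 : p ∣ m * (a - b) := by
        have h2 := Nat.dvd_sub ha.2 hb.2
        have h3 : n + m * a - (n + m * b) = m * (a - b) := by
          rw [Nat.mul_sub]; omega
        rwa [h3] at h2
      rcases hp.dvd_mul.1 h1 with h2 | h2
      · exact absurd h2 h.2
      · have := Nat.eq_zero_of_dvd_of_lt h2 (by omega)
        omega
  · simp

theorem Om_prod {S P : Finset ℕ} {m n : ℕ} (hPS : P ⊆ S) (hP : ∀ p ∈ P, p.Prime ∧ 5 ≤ p) :
    Real.exp (-2) * V P ≤ ∏ p ∈ S, (1 - ((Om P m n p).card : ℝ) / ((p : ℝ) - 1)) := by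
  have h1 : ∏ p ∈ S, (1 - ((Om P m n p).card : ℝ) / ((p : ℝ) - 1)) =
      ∏ p ∈ P, (1 - ((Om P m n p).card : ℝ) / ((p : ℝ) - 1)) := by
    refine (prod_subset hPS fun p _ hp => ?_).symm
    unfold Om
    rw [if_neg (fun h => hp h.1), card_empty]
    simp
  rw [h1]
  have h2 : ∏ p ∈ P, ((1 - 1 / (p : ℝ)) * Real.exp (-(2 * (1 / ((p : ℝ) * (p - 1)))))) ≤
      ∏ p ∈ P, (1 - ((Om P m n p).card : ℝ) / ((p : ℝ) - 1)) := by
    refine prod_le_prod (fun p hp => mul_nonneg (f_nonneg (hP p hp).1.two_le).le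
      (Real.exp_pos _).le) fun p hp => ?_
    obtain ⟨hpp, hp5⟩ := hP p hp
    have hp5' : (5 : ℝ) ≤ p := by exact_mod_cast hp5
    have e1 : (0 : ℝ) < (p : ℝ) - 1 := by linarith
    have e2 : (0 : ℝ) < (p : ℝ) - 2 := by linarith
    have e3 : ((Om P m n p).card : ℝ) / ((p : ℝ) - 1) ≤ 1 / ((p : ℝ) - 1) :=
      div_le_div_of_nonneg_right (by exact_mod_cast Om_card hpp) e1.le
    have e4 : Real.exp (-(2 * (1 / ((p : ℝ) * (p - 1))))) ≤
        ((p : ℝ) * (p - 2)) / ((p - 1) * (p - 1)) := by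
      have e5 := Real.add_one_le_exp (1 / ((p : ℝ) * (p - 2)))
      have e6 : ((p : ℝ) * (p - 2)) / ((p - 1) * (p - 1)) = (1 / ((p : ℝ) * (p - 2)) + 1)⁻¹ := by
        field_simp
        ring
      rw [e6, Real.exp_neg]
      refine inv_anti₀ (by positivity) (e5.trans (Real.exp_le_exp.2 ?_))
      rw [mul_one_div, div_le_div_iff₀ (by positivity) (by positivity)]
      nlinarith
    calc (1 - 1 / (p : ℝ)) * Real.exp (-(2 * (1 / ((p : ℝ) * (p - 1))))) ≤
        (1 - 1 / (p : ℝ)) * (((p : ℝ) * (p - 2)) / ((p - 1) * (p - 1))) :=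
          mul_le_mul_of_nonneg_left e4 (f_nonneg hpp.two_le).le
      _ = 1 - 1 / ((p : ℝ) - 1) := by
          field_simp
          ring
      _ ≤ _ := by linarith
  refine le_trans ?_ h2
  rw [prod_mul_distrib, ← Real.exp_sum, mul_comm]
  refine mul_le_mul_of_nonneg_left (Real.exp_le_exp.2 ?_) (V_pos fun p hp => (hP p hp).1).le
  rw [sum_neg_distrib, ← mul_sum]
  have := Pool.Agent.Y835.SB.sum_tele P fun p hp => (hP p hp).1.two_le
  linarith

theorem ex_J {z : ℕ} (hz : 2 ≤ z) : ∃ J : ℕ, z ≤ 2 ^ 2 ^ J ∧ 2 ^ 2 ^ J ≤ z ^ 2 := by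
  classical
  have hex : ∃ J : ℕ, z ≤ 2 ^ 2 ^ J :=
    ⟨z, (Nat.lt_two_pow_self.le).trans (Nat.pow_le_pow_right (by norm_num) Nat.lt_two_pow_self.le)⟩
  refine ⟨Nat.find hex, Nat.find_spec hex, ?_⟩
  rcases Nat.eq_zero_or_pos (Nat.find hex) with h | h
  · rw [h]
    simp only [pow_zero, pow_one]
    nlinarith
  · have h1 := Nat.find_min hex (m := Nat.find hex - 1) (by omega)
    rw [not_le] at h1
    have h2 : 2 ^ 2 ^ Nat.find hex = (2 ^ 2 ^ (Nat.find hex - 1)) ^ 2 := by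
      rw [← pow_mul, ← pow_succ, Nat.sub_add_cancel h]
    rw [h2]
    exact Nat.pow_le_pow_left h1.le 2

open Classical in
/-- for one `m` -/
theorem per_m : ∃ (m₀ K Y0 : ℕ) (c : ℝ), 1 ≤ m₀ ∧ (∀ p : ℕ, p.Prime → p ≤ 3 → p ∣ m₀) ∧
    1 ≤ K ∧ 0 < c ∧ ∀ y v z m n : ℕ, Y0 ≤ y → 10 * y ≤ v → v ≤ y ^ 4 → 2 ≤ z → z ^ K ≤ y →
    ∀ P : Finset ℕ, (∀ p ∈ P, p.Prime ∧ p ≤ z ∧ ¬ p ∣ n ∧ ¬ p ∣ m₀) →
    c * (v / Real.log y * V P) ≤
      (((Ioc y v).filter (fun q => q.Prime ∧ ∀ p ∈ P, ¬ p ∣ m → ¬ p ∣ n + m * q)).card : ℝ) := by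
  obtain ⟨C, hC1, HC⟩ := psl
  obtain ⟨cM, hcM, HM⟩ := Pool.Agent.Y835.SB.prod_ge
  obtain ⟨Y1, HY⟩ := primes_low
  obtain ⟨m₀, hm₀⟩ : ∃ m₀, m₀ = primorial (2 * C + 3) := ⟨_, rfl⟩
  have hm1 : 1 ≤ m₀ := by rw [hm₀]; exact primorial_pos _
  have hdvd : ∀ p : ℕ, p.Prime → p ≤ 2 * C + 3 → p ∣ m₀ := fun p hp h => by
    rw [hm₀]; exact (hp.dvd_primorial_iff).2 h
  obtain ⟨X₀, HX⟩ := HC 1 (2 * C) m₀ 3 (by omega) hm1 (fun p hp h => hdvd p hp (by omega))
  have hφ : (0 : ℝ) < Nat.totient m₀ := by exact_mod_cast Nat.totient_pos.2 (by omega)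
  obtain ⟨c1, hc1⟩ : ∃ c1 : ℝ, c1 = Real.exp (-2) / (4 * Nat.totient m₀) := ⟨_, rfl⟩
  have hc10 : 0 < c1 := by rw [hc1]; exact div_pos (Real.exp_pos _) (by linarith)
  have hev : ∀ᶠ y : ℕ in Filter.atTop, 2 / (c1 * cM) + 1 ≤ Real.log y :=
    (Real.tendsto_log_atTop.comp tendsto_natCast_atTop_atTop).eventually_ge_atTop _
  obtain ⟨Y2, HY2⟩ := Filter.eventually_atTop.1 hev
  refine ⟨m₀, 12 * C ^ 2, max (max X₀ Y1) (max Y2 3), c1 / 8, hm1,
    fun p hp h => hdvd p hp (by omega), by nlinarith, by positivity, ?_⟩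
  intro y v z m n hy hyv hvy hz hzy P hP
  simp only [max_le_iff] at hy
  obtain ⟨⟨y1, y2⟩, y3, y4⟩ := hy
  obtain ⟨J, hJ1, hJ2⟩ := ex_J hz
  have hR : ((2 ^ 2 ^ J) ^ (C * (2 * C))) ^ 3 ≤ v := by
    calc ((2 ^ 2 ^ J) ^ (C * (2 * C))) ^ 3 ≤ ((z ^ 2) ^ (C * (2 * C))) ^ 3 :=
          Nat.pow_le_pow_left (Nat.pow_le_pow_left hJ2 _) _
      _ = z ^ (12 * C ^ 2) := by rw [← pow_mul, ← pow_mul]; congr 1; ring
      _ ≤ y := hzy
      _ ≤ v := by omega
  have hPm : ∀ p ∈ P, p ∈ PS m₀ (2 ^ 2 ^ J) := by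
    intro p hp
    obtain ⟨h1, h2, h3, h4⟩ := hP p hp
    unfold PS
    rw [mem_filter, mem_Icc]
    exact ⟨⟨h1.one_le, h2.trans hJ1⟩, h1, h4⟩
  have hP5 : ∀ p ∈ P, p.Prime ∧ 5 ≤ p := by
    intro p hp
    obtain ⟨h1, h2, h3, h4⟩ := hP p hp
    refine ⟨h1, ?_⟩
    by_contra hc
    exact h4 (hdvd p h1 (by omega))
  have key := HX y v J 1 (by omega) (by omega) hR (Nat.coprime_one_left _) (Om P m n) (by
    intro p hp
    have hpp : p.Prime := (mem_filter.1 hp).2.1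
    refine ⟨Om_card hpp, ?_, ?_⟩
    · unfold Om
      split_ifs with h
      · rw [mem_filter]
        rintro ⟨-, h1⟩
        rw [mul_zero, add_zero] at h1
        exact (hP p h.1).2.2.1 h1
      · exact notMem_empty _
    · intro c hc
      unfold Om at hc
      split_ifs at hc with h
      · exact mem_range.1 (mem_filter.1 hc).1
      · exact absurd hc (notMem_empty _))
  have hsub : ((Ioc y v).filter (fun q => q.Prime ∧ q % m₀ = 1 % m₀ ∧
      ∀ p ∈ PS m₀ (2 ^ 2 ^ J), q % p ∉ Om P m n p)) ⊆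
      ((Ioc y v).filter (fun q => q.Prime ∧ ∀ p ∈ P, ¬ p ∣ m → ¬ p ∣ n + m * q)) := by
    intro q hq
    simp only [mem_filter] at hq ⊢
    refine ⟨hq.1, hq.2.1, fun p hp hpm hd => ?_⟩
    have h1 := hq.2.2.2 p (hPm p hp)
    apply h1
    unfold Om
    rw [if_pos ⟨hp, hpm⟩, mem_filter, mem_range]
    refine ⟨Nat.mod_lt _ (hP p hp).1.pos, ?_⟩
    have h2 : n + m * q = n + m * (q % p) + p * (m * (q / p)) := by
      conv_lhs => rw [← Nat.mod_add_div q p]
      ring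
    rw [h2] at hd
    exact (Nat.dvd_add_left (Dvd.intro _ rfl)).1 hd
  have hcard : (((Ioc y v).filter (fun q => q.Prime ∧ q % m₀ = 1 % m₀ ∧
      ∀ p ∈ PS m₀ (2 ^ 2 ^ J), q % p ∉ Om P m n p)).card : ℝ) ≤
      (((Ioc y v).filter (fun q => q.Prime ∧ ∀ p ∈ P, ¬ p ∣ m → ¬ p ∣ n + m * q)).card : ℝ) := by
    exact_mod_cast card_le_card hsub
  refine le_trans ?_ (key.trans hcard)
  have hpr := Om_prod (m := m) (n := n) hPm hP5
  have hpi := HY y v y2 hyv
  have hVP : 0 < V P := V_pos fun p hp => (hP p hp).1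
  have hy3 : (1 : ℝ) < y := by exact_mod_cast (by omega : 1 < y)
  have hly : 0 < Real.log y := Real.log_pos hy3
  have hlyv : Real.log y ≤ Real.log v :=
    Real.log_le_log (by linarith) (by exact_mod_cast (by omega : y ≤ v))
  have hlv : 0 < Real.log v := by linarith
  have hlv4 : Real.log v ≤ 4 * Real.log y := by
    have h1 : Real.log v ≤ Real.log ((y : ℝ) ^ 4) :=
      Real.log_le_log (by exact_mod_cast (by omega : 0 < v)) (by exact_mod_cast hvy)
    rw [Real.log_pow] at h1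
    exact_mod_cast h1
  have hv0 : (0 : ℝ) < v := by exact_mod_cast (by omega : 0 < v)
  -- the main term
  have hb : (1 / 2 : ℝ) ≤ 1 - (1 / 2 : ℝ) ^ (2 * C) := by
    have : (1 / 2 : ℝ) ^ (2 * C) ≤ (1 / 2 : ℝ) ^ 1 :=
      pow_le_pow_of_le_one (by norm_num) (by norm_num) (by omega)
    norm_num at this ⊢
    linarith
  have hmain : c1 * (v / Real.log v * V P) ≤ (1 - (1 / 2 : ℝ) ^ (2 * C)) *
      ((((Ioc y v).filter Nat.Prime).card : ℝ) / Nat.totient m₀) *
        ∏ p ∈ PS m₀ (2 ^ 2 ^ J), (1 - ((Om P m n p).card : ℝ) / ((p : ℝ) - 1)) := by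
    have e1 : c1 * (v / Real.log v * V P) =
        (1 / 2) * ((v / (2 * Real.log v)) / Nat.totient m₀) * (Real.exp (-2) * V P) := by
      rw [hc1]; field_simp; ring
    rw [e1]
    refine mul_le_mul (mul_le_mul hb (div_le_div_of_nonneg_right hpi hφ.le) (by positivity)
      (by linarith)) hpr (by positivity) (by
        have : (0:ℝ) ≤ 1 - (1 / 2 : ℝ) ^ (2 * C) := by linarith
        positivity)
  -- the error term
  have hV1 : cM / Real.log v ≤ V P := by
    have h1 := HM z hz P fun p hp => ⟨(hP p hp).1, (hP p hp).2.1⟩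
    have hz1 : (1 : ℝ) < z := by exact_mod_cast (by omega : 1 < z)
    have hzv : z ≤ v := by
      have h3 : z ^ 1 ≤ z ^ (12 * C ^ 2) := Nat.pow_le_pow_right (by omega) (by nlinarith)
      rw [pow_one] at h3
      omega
    refine le_trans ?_ h1
    exact div_le_div_of_nonneg_left hcM.le (Real.log_pos hz1)
      (Real.log_le_log (by linarith) (by exact_mod_cast hzv))
  have herr : (v : ℝ) / Real.log v ^ 3 ≤ c1 / 2 * (v / Real.log v * V P) := by
    have h1 := HY2 y y3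
    have h2 : c1 / 2 * (v / Real.log v * (cM / Real.log v)) ≤
        c1 / 2 * (v / Real.log v * V P) :=
      mul_le_mul_of_nonneg_left (mul_le_mul_of_nonneg_left hV1 (by positivity)) (by positivity)
    refine le_trans ?_ h2
    have h3 : c1 / 2 * (v / Real.log v * (cM / Real.log v)) =
        (v / Real.log v ^ 3) * (c1 * cM / 2 * Real.log v) := by
      field_simp
    rw [h3]
    have h4 : 1 ≤ c1 * cM / 2 * Real.log v := by
      have h5 : 2 / (c1 * cM) ≤ Real.log v := by linarith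
      rw [div_le_iff₀ (by positivity)] at h5
      linarith
    calc (v : ℝ) / Real.log v ^ 3 = (v / Real.log v ^ 3) * 1 := (mul_one _).symm
      _ ≤ _ := mul_le_mul_of_nonneg_left h4 (by positivity)
  have hfin : c1 / 8 * (v / Real.log y * V P) ≤ c1 / 2 * (v / Real.log v * V P) := by
    have h1 : (v : ℝ) / Real.log y ≤ 4 * (v / Real.log v) := by
      rw [div_le_iff₀ hly]
      have h5 : 4 * ((v : ℝ) / Real.log v) * Real.log y = (v / Real.log v) * (4 * Real.log y) := by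
        ring
      rw [h5]
      calc (v : ℝ) = (v / Real.log v) * Real.log v := by field_simp
        _ ≤ _ := mul_le_mul_of_nonneg_left hlv4 (by positivity)
    have h2 : (v : ℝ) / Real.log y * V P ≤ 4 * (v / Real.log v) * V P :=
      mul_le_mul_of_nonneg_right h1 hVP.le
    nlinarith
  linarith

end Pool.Agent.Y835.SC
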