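import Pool.Agent.TH423.SH.FLIP
import Pool.Agent.TH423.SH.FLLP
import Pool.Agent.TH423.SH.PRDP
import Pool.Agent.Y835.SC.Per

/-!
An upper bound sieve in a residue class, in logarithmic measure.
-/

set_option autoImplicit false

namespace Pool.Agent.Y835.SC

open Finset Pool.Agent.TH423.SH

theorem PIj_le (W R κ : ℕ) (hκ : ∀ p ∈ PS W R, κ ≤ p) : PIj W R κ ≤ PIj W R 1 ^ κ := by
  unfold PIj
  rw [← prod_pow]
  refine prod_le_prod (fun p hp => ?_) fun p hp => ?_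
  · have hpp : p.Prime := (mem_filter.1 hp).2.1
    have hp0 : (0 : ℝ) < p := by exact_mod_cast hpp.pos
    rw [sub_nonneg, div_le_one hp0]
    exact_mod_cast hκ p hp
  · have hpp : p.Prime := (mem_filter.1 hp).2.1
    have hp2 : (2 : ℝ) ≤ p := by exact_mod_cast hpp.two_le
    have h1 := one_add_mul_le_pow (a := -(1 / (p : ℝ))) (by
      have : 1 / (p : ℝ) ≤ 1 := by rw [div_le_one (by linarith)]; linarith
      linarith) κ
    have e1 : 1 + (κ : ℝ) * (-(1 / (p : ℝ))) = 1 - κ / p := by ring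
    have e2 : 1 + -(1 / (p : ℝ)) = 1 - ((1 : ℕ) : ℝ) / p := by push_cast; ring
    rw [e1, e2] at h1
    exact h1

theorem PIj_nonneg (W R κ : ℕ) (hκ : ∀ p ∈ PS W R, κ ≤ p) : 0 ≤ PIj W R κ := by
  refine prod_nonneg fun p hp => ?_
  have hpp : p.Prime := (mem_filter.1 hp).2.1
  have hp0 : (0 : ℝ) < p := by exact_mod_cast hpp.pos
  rw [sub_nonneg, div_le_one hp0]
  exact_mod_cast hκ p hp

/-- the dyadic decomposition -/
theorem dyad (S : Finset ℕ) (X' L : ℕ) (hX : 1 ≤ X') (hS : ∀ N ∈ S, X' < N ∧ N ≤ X' * 2 ^ L) :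
    ∑ N ∈ S, 1 / (N : ℝ) ≤ ∑ j ∈ range L, 1 / ((X' : ℝ) * 2 ^ j) *
      ((S.filter (fun N => X' * 2 ^ j < N ∧ N ≤ X' * 2 ^ (j + 1))).card : ℝ) := by
  classical
  have h1 : ∀ N ∈ S, 1 / (N : ℝ) ≤ ∑ j ∈ range L,
      if X' * 2 ^ j < N ∧ N ≤ X' * 2 ^ (j + 1) then 1 / ((X' : ℝ) * 2 ^ j) else 0 := by
    intro N hN
    obtain ⟨h2, h3⟩ := hS N hN
    have hex : ∃ j : ℕ, N ≤ X' * 2 ^ (j + 1) := ⟨L, h3.trans (Nat.mul_le_mul_left _
      (Nat.pow_le_pow_right (by norm_num) (by omega)))⟩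
    obtain ⟨j, hj⟩ : ∃ j, j = Nat.find hex := ⟨_, rfl⟩
    have h4 : N ≤ X' * 2 ^ (j + 1) := by rw [hj]; exact Nat.find_spec hex
    have h5 : X' * 2 ^ j < N := by
      rcases Nat.eq_zero_or_pos j with h | h
      · rw [h, pow_zero, mul_one]; exact h2
      · have h6 := Nat.find_min hex (m := j - 1) (by omega)
        rw [not_le, Nat.sub_add_cancel h] at h6
        exact h6
    have h7 : j < L := by
      by_contra hc
      have h8 : X' * 2 ^ L ≤ X' * 2 ^ j :=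
        Nat.mul_le_mul_left _ (Nat.pow_le_pow_right (by norm_num) (by omega))
      omega
    have h9 : 1 / (N : ℝ) ≤ 1 / ((X' : ℝ) * 2 ^ j) := by
      refine one_div_le_one_div_of_le (by positivity) ?_
      exact_mod_cast h5.le
    have h10 := single_le_sum (f := fun j : ℕ =>
      if X' * 2 ^ j < N ∧ N ≤ X' * 2 ^ (j + 1) then 1 / ((X' : ℝ) * 2 ^ j) else 0)
      (fun i _ => by
        split_ifs
        · positivity
        · exact le_rfl) (mem_range.2 h7)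
    rw [if_pos ⟨h5, h4⟩] at h10
    exact h9.trans h10
  refine (sum_le_sum h1).trans ?_
  rw [sum_comm]
  refine sum_le_sum fun j _ => ?_
  rw [← sum_filter, sum_const, nsmul_eq_mul, mul_comm]

/-- `W ↦ W / φ(W)` -/
noncomputable def ra (W : ℕ) : ℝ := (W : ℝ) / W.totient

theorem ra_pos {W : ℕ} (hW : 1 ≤ W) : 0 < ra W := by
  have h1 : (0 : ℝ) < W := by exact_mod_cast hW
  have h2 : (0 : ℝ) < W.totient := by exact_mod_cast Nat.totient_pos.2 hW
  exact div_pos h1 h2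

theorem one_le_ra {W : ℕ} (hW : 1 ≤ W) : 1 ≤ ra W := by
  have h2 : (0 : ℝ) < W.totient := by exact_mod_cast Nat.totient_pos.2 hW
  unfold ra
  rw [one_le_div h2]
  exact_mod_cast Nat.totient_le W

theorem ra_mul {a b : ℕ} (ha : 1 ≤ a) (hb : 1 ≤ b) : ra (a * b) ≤ ra a * ra b := by
  have h1 := Nat.totient_super_multiplicative a b
  have ha' : (0 : ℝ) < a.totient := by exact_mod_cast Nat.totient_pos.2 ha
  have hb' : (0 : ℝ) < b.totient := by exact_mod_cast Nat.totient_pos.2 hb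
  unfold ra
  rw [div_mul_div_comm, Nat.cast_mul]
  refine div_le_div_of_nonneg_left (by positivity) (by positivity) ?_
  exact_mod_cast h1

open Classical in
theorem sieve_log (κ K : ℕ) : ∃ (W0 : ℕ) (C : ℝ), 1 ≤ W0 ∧ 0 < C ∧ ∃ X0 : ℕ, ∀ X : ℕ, X0 ≤ X →
    ∃ R : ℕ, 4 * R ≤ X ∧ ∀ q W' b : ℕ, 1 ≤ q → q ^ 16 ≤ X → 1 ≤ W' → ∀ Om : ℕ → Finset ℕ,
    (∀ p ∈ PS (W0 * (q * W')) R, κ ≤ p ∧ ((κ ≤ p → (Om p).card = κ) ∧ ∀ c ∈ Om p, c < p)) →
    ∑ N ∈ (Ioc (X / 2) (X ^ K)).filter (fun N => N % q = b % q ∧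
      ∀ p ∈ PS (W0 * (q * W')) R, N % p ∉ Om p), 1 / (N : ℝ) ≤
      C * (ra q * ra W') ^ κ * Real.log X / (q * Real.log X ^ κ) := by
  obtain ⟨CF, hCF, HF⟩ := fli fll
  obtain ⟨bb, hbb⟩ : ∃ bb, bb = CF * (κ + 1) := ⟨_, rfl⟩
  obtain ⟨W0, hW0⟩ : ∃ W0, W0 = primorial (CF * (κ + 1)) := ⟨_, rfl⟩
  obtain ⟨e, he⟩ : ∃ e, e = CF * bb := ⟨_, rfl⟩
  have hbb1 : 1 ≤ bb := by rw [hbb]; nlinarith
  have he1 : 1 ≤ e := by rw [he]; nlinarith
  have he1' : (1 : ℝ) ≤ e := by exact_mod_cast he1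
  have hW01 : 1 ≤ W0 := by rw [hW0]; exact primorial_pos _
  obtain ⟨a, ha⟩ : ∃ a : ℝ, a = 1 / (8 * e) := ⟨_, rfl⟩
  have ha0 : 0 < a := by rw [ha]; positivity
  obtain ⟨C, hC⟩ : ∃ C : ℝ, C = 2 * (2 * K + 1) * (ra W0 * (16 * e)) ^ κ + 1 := ⟨_, rfl⟩
  have hraW := ra_pos hW01
  have hC0 : 0 < C := by rw [hC]; positivity
  -- large `X`
  have hev1 : ∀ᶠ x : ℝ in Filter.atTop, (2 : ℝ) ≤ x ^ (a / 2) :=
    (tendsto_rpow_atTop (by positivity : 0 < a / 2)).eventually_ge_atTop _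
  have hev2 : ∀ᶠ x : ℝ in Filter.atTop, (6 : ℝ) ≤ x ^ (1 / 8 : ℝ) :=
    (tendsto_rpow_atTop (by norm_num : (0:ℝ) < 1 / 8)).eventually_ge_atTop _
  have hev3 : ∀ᶠ x : ℝ in Filter.atTop, Real.log x ^ κ ≤ x ^ (1 / 8 : ℝ) := by
    have h1 := isLittleO_log_rpow_rpow_atTop (κ : ℝ) (show (0:ℝ) < 1 / 8 by norm_num)
    filter_upwards [h1.bound (show (0:ℝ) < 1 by norm_num), Filter.eventually_ge_atTop 1] with x h2 hx
    rw [Real.norm_of_nonneg (by have := Real.log_nonneg hx; positivity),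
      Real.norm_of_nonneg (by positivity), one_mul, Real.rpow_natCast] at h2
    exact h2
  obtain ⟨X1, hX1⟩ := Filter.eventually_atTop.1 (tendsto_natCast_atTop_atTop.eventually
    ((hev1.and (hev2.and hev3)).and (Filter.eventually_ge_atTop (16 : ℝ))))
  refine ⟨W0, C, hW01, hC0, X1, fun X hX => ?_⟩
  obtain ⟨⟨h1, h2, h3⟩, h4⟩ := hX1 X hX
  have hX0 : (0 : ℝ) < X := by linarith
  have hX1' : (1 : ℝ) ≤ X := by linarith
  have hX16 : 16 ≤ X := by exact_mod_cast h4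
  have hlX : 1 ≤ Real.log X := by
    rw [Real.le_log_iff_exp_le hX0]
    have := Real.exp_one_lt_d9
    linarith
  obtain ⟨z, hz⟩ : ∃ z : ℕ, z = ⌊(X : ℝ) ^ a⌋₊ := ⟨_, rfl⟩
  have hsq : (X : ℝ) ^ a = (X : ℝ) ^ (a / 2) * (X : ℝ) ^ (a / 2) := by
    rw [← Real.rpow_add hX0]; congr 1; ring
  have hzl : (X : ℝ) ^ (a / 2) ≤ z := by
    have h5 := Nat.lt_floor_add_one ((X : ℝ) ^ a)
    rw [← hz] at h5
    nlinarith
  have hz2 : 2 ≤ z := by exact_mod_cast h1.trans hzl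
  have hzu : (z : ℝ) ≤ (X : ℝ) ^ a := by rw [hz]; exact Nat.floor_le (by positivity)
  obtain ⟨J, hJ1, hJ2⟩ := ex_J hz2
  obtain ⟨R, hR⟩ : ∃ R : ℕ, R = 2 ^ 2 ^ J := ⟨_, rfl⟩
  rw [← hR] at hJ1 hJ2
  have hR2 : 2 ≤ R := hz2.trans hJ1
  have hRe : (R : ℝ) ^ e ≤ (X : ℝ) ^ (1 / 4 : ℝ) := by
    calc (R : ℝ) ^ e ≤ ((z : ℝ) ^ 2) ^ e :=
          pow_le_pow_left₀ (Nat.cast_nonneg R) (by exact_mod_cast hJ2) e
      _ ≤ (((X : ℝ) ^ a) ^ 2) ^ e :=
          pow_le_pow_left₀ (by positivity) (pow_le_pow_left₀ (Nat.cast_nonneg z) hzu 2) e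
      _ = (X : ℝ) ^ (1 / 4 : ℝ) := by
          rw [← Real.rpow_natCast, ← Real.rpow_natCast, ← Real.rpow_mul hX0.le,
            ← Real.rpow_mul hX0.le]
          congr 1
          rw [ha]
          push_cast
          field_simp
          norm_num
  have hlR : a / 2 * Real.log X ≤ Real.log R := by
    rw [← Real.log_rpow hX0]
    refine Real.log_le_log (by positivity) (hzl.trans ?_)
    exact_mod_cast hJ1
  have hX18 : (X : ℝ) ^ (1 / 4 : ℝ) * 6 ≤ (X : ℝ) ^ (3 / 8 : ℝ) := by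
    calc (X : ℝ) ^ (1 / 4 : ℝ) * 6 ≤ (X : ℝ) ^ (1 / 4 : ℝ) * (X : ℝ) ^ (1 / 8 : ℝ) :=
          mul_le_mul_of_nonneg_left h2 (by positivity)
      _ = (X : ℝ) ^ (3 / 8 : ℝ) := by rw [← Real.rpow_add hX0]; norm_num
  have hR4 : 4 * R ≤ X := by
    have h5 : (R : ℝ) ≤ (R : ℝ) ^ e := le_self_pow₀ (by exact_mod_cast (by omega : 1 ≤ R)) (by omega)
    have h6 : (X : ℝ) ^ (3 / 8 : ℝ) ≤ X := by
      calc (X : ℝ) ^ (3 / 8 : ℝ) ≤ (X : ℝ) ^ (1 : ℝ) :=
            Real.rpow_le_rpow_of_exponent_le hX1' (by norm_num)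
        _ = X := Real.rpow_one _
    have h7 : (4 * R : ℝ) ≤ X := by
      have h8 : 0 ≤ (X : ℝ) ^ (1 / 4 : ℝ) := by positivity
      linarith
    exact_mod_cast h7
  refine ⟨R, hR4, ?_⟩
  intro q W' b hq hqX hW' Om hOm
  obtain ⟨W, hW⟩ : ∃ W, W = W0 * (q * W') := ⟨_, rfl⟩
  rw [← hW] at hOm ⊢
  have hW1 : 1 ≤ W := by rw [hW]; exact Nat.one_le_iff_ne_zero.2 (by positivity)
  have hq0 : (0 : ℝ) < q := by exact_mod_cast hq
  obtain ⟨S, hS⟩ : ∃ S, S = (Ioc (X / 2) (X ^ K)).filter (fun N => N % q = b % q ∧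
      ∀ p ∈ PS W R, N % p ∉ Om p) := ⟨_, rfl⟩
  rw [← hS]
  obtain ⟨X', hX'⟩ : ∃ X', X' = X / 2 := ⟨_, rfl⟩
  have hX'1 : 1 ≤ X' := by omega
  have hX'3 : (X : ℝ) / 3 ≤ X' := by
    have : X ≤ 3 * X' := by omega
    have h5 : (X : ℝ) ≤ 3 * X' := by exact_mod_cast this
    linarith
  obtain ⟨L, hL⟩ : ∃ L : ℕ, L = Nat.clog 2 (X ^ K) := ⟨_, rfl⟩
  have hXL : X ^ K ≤ 2 ^ L := by rw [hL]; exact Nat.le_pow_clog (by norm_num) _
  have hLle : (L : ℝ) ≤ (2 * K + 1) * Real.log X := by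
    rcases Nat.eq_zero_or_pos L with h | h
    · rw [h]; push_cast; positivity
    · have h5 : 2 ^ (L - 1) < X ^ K := by
        rw [hL]
        refine Nat.pow_pred_clog_lt_self (by norm_num) ?_
        by_contra hc
        have h6 : Nat.clog 2 (X ^ K) = 0 := Nat.clog_of_right_le_one (by omega) _
        omega
      have h6 : Real.log ((2 : ℝ) ^ (L - 1)) ≤ Real.log ((X : ℝ) ^ K) :=
        Real.log_le_log (by positivity) (by exact_mod_cast h5.le)
      rw [Real.log_pow, Real.log_pow, Nat.cast_sub h] at h6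
      have h7 := Real.log_two_gt_d9
      push_cast at h6
      have h8 : (L : ℝ) - 1 ≤ 2 * (K * Real.log X) := by
        have h9 : 0 ≤ (L : ℝ) - 1 := by
          have : (1 : ℝ) ≤ L := by exact_mod_cast h
          linarith
        nlinarith
      linarith
  have hSL : ∀ N ∈ S, X' < N ∧ N ≤ X' * 2 ^ L := by
    intro N hN
    rw [hS, mem_filter, mem_Ioc] at hN
    refine ⟨by omega, hN.1.2.trans (hXL.trans ?_)⟩
    exact Nat.le_mul_of_pos_left _ (by omega)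
  have hPSκ : ∀ p ∈ PS W R, κ ≤ p := fun p hp => (hOm p hp).1
  have hPI0 := PIj_nonneg W R κ hPSκ
  -- one dyadic interval
  have hone : ∀ j ∈ range L, 1 / ((X' : ℝ) * 2 ^ j) *
      ((S.filter (fun N => X' * 2 ^ j < N ∧ N ≤ X' * 2 ^ (j + 1))).card : ℝ) ≤
      2 * PIj W R κ / q + (R : ℝ) ^ e / X' * (1 / 2 : ℝ) ^ j := by
    intro j _
    have h5 := HF κ bb W q (by rw [hbb]) hW1 (fun p hp hle => by
      rw [hW]
      refine Dvd.dvd.mul_right ?_ _
      rw [hW0]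
      exact (hp.dvd_primorial_iff).2 hle) hq (X' * 2 ^ j) (X' * 2 ^ (j + 1)) J b
      (Nat.mul_le_mul_left _ (Nat.pow_le_pow_right (by norm_num) (by omega)))
      (fun p hp hd => by
        rw [PS, mem_filter] at hp
        apply hp.2.2
        rw [hW]
        exact (hd.mul_right W').mul_left W0) Om (fun p hp => by
        rw [← hR] at hp
        exact ⟨(hOm p hp).2.1 (hOm p hp).1, (hOm p hp).2.2⟩)
    rw [← hR] at h5
    have h6 := (abs_le.1 h5).2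
    have h7 : ((S.filter (fun N => X' * 2 ^ j < N ∧ N ≤ X' * 2 ^ (j + 1))).card : ℝ) ≤
        (((Ioc (X' * 2 ^ j) (X' * 2 ^ (j + 1))).filter (fun n => n % q = b % q ∧
        ∀ p ∈ PS W R, n % p ∉ Om p)).card : ℝ) := by
      have h8 : S.filter (fun N => X' * 2 ^ j < N ∧ N ≤ X' * 2 ^ (j + 1)) ⊆
        (Ioc (X' * 2 ^ j) (X' * 2 ^ (j + 1))).filter (fun n => n % q = b % q ∧
        ∀ p ∈ PS W R, n % p ∉ Om p) := by
        intro N hN
        rw [hS] at hN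
        simp only [mem_filter, mem_Ioc] at hN ⊢
        exact ⟨hN.2, hN.1.2⟩
      exact_mod_cast card_le_card h8
    have hx0 : (0 : ℝ) < (X' : ℝ) * 2 ^ j := by
      have : (0 : ℝ) < X' := by exact_mod_cast hX'1
      positivity
    have e1 : ((X' * 2 ^ (j + 1) : ℕ) : ℝ) - ((X' * 2 ^ j : ℕ) : ℝ) = X' * 2 ^ j := by
      push_cast; ring
    rw [e1] at h6
    have h9 : (1 / 2 : ℝ) ^ bb ≤ 1 := pow_le_one₀ (by norm_num) (by norm_num)
    have h10 : (1 / 2 : ℝ) ^ bb * ((X' : ℝ) * 2 ^ j / q * PIj W R κ) ≤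
        (X' : ℝ) * 2 ^ j / q * PIj W R κ := mul_le_of_le_one_left (by positivity) h9
    have h11 : ((S.filter (fun N => X' * 2 ^ j < N ∧ N ≤ X' * 2 ^ (j + 1))).card : ℝ) ≤
        2 * ((X' : ℝ) * 2 ^ j / q * PIj W R κ) + (R : ℝ) ^ e := by
      have e2 : ((2 : ℝ) ^ 2 ^ J) ^ (CF * bb) = (R : ℝ) ^ e := by
        rw [hR, he]; push_cast; rfl
      rw [e2] at h6
      have h6' : (((Ioc (X' * 2 ^ j) (X' * 2 ^ (j + 1))).filter (fun n => n % q = b % q ∧
          ∀ p ∈ PS W R, n % p ∉ Om p)).card : ℝ) - (X' : ℝ) * 2 ^ j / q * PIj W R κ ≤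
          (1 / 2 : ℝ) ^ bb * ((X' : ℝ) * 2 ^ j / q * PIj W R κ) + (R : ℝ) ^ e := by
        refine le_trans (le_of_eq ?_) h6
        congr!
      linarith
    calc _ ≤ 1 / ((X' : ℝ) * 2 ^ j) * (2 * ((X' : ℝ) * 2 ^ j / q * PIj W R κ) + (R : ℝ) ^ e) :=
          mul_le_mul_of_nonneg_left h11 (by positivity)
      _ = 2 * PIj W R κ / q + (R : ℝ) ^ e / X' * (1 / 2 : ℝ) ^ j := by
          rw [one_div_pow]
          field_simp
  have hsum := (dyad S X' L hX'1 hSL).trans (sum_le_sum hone)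
  rw [sum_add_distrib, sum_const, card_range, nsmul_eq_mul, ← mul_sum] at hsum
  have hgeo : ∑ j ∈ range L, (1 / 2 : ℝ) ^ j ≤ 2 := sum_geometric_two_le L
  have hX'0 : (0 : ℝ) < X' := by exact_mod_cast hX'1
  have herr : (R : ℝ) ^ e / X' * ∑ j ∈ range L, (1 / 2 : ℝ) ^ j ≤
      Real.log X / (q * Real.log X ^ κ) := by
    have h5 : (q : ℝ) ≤ (X : ℝ) ^ (1 / 16 : ℝ) := by
      have h6 : ((q : ℝ) ^ 16) ^ (1 / 16 : ℝ) ≤ (X : ℝ) ^ (1 / 16 : ℝ) :=
        Real.rpow_le_rpow (by positivity) (by exact_mod_cast hqX) (by norm_num)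
      rw [← Real.rpow_natCast, ← Real.rpow_mul hq0.le] at h6
      norm_num at h6
      exact h6
    have h6 : (q : ℝ) * Real.log X ^ κ ≤ (X : ℝ) ^ (1 / 4 : ℝ) := by
      calc (q : ℝ) * Real.log X ^ κ ≤ (X : ℝ) ^ (1 / 16 : ℝ) * (X : ℝ) ^ (1 / 8 : ℝ) :=
            mul_le_mul h5 h3 (by positivity) (by positivity)
        _ = (X : ℝ) ^ (3 / 16 : ℝ) := by rw [← Real.rpow_add hX0]; norm_num
        _ ≤ (X : ℝ) ^ (1 / 4 : ℝ) := Real.rpow_le_rpow_of_exponent_le hX1' (by norm_num)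
    have h7 : 0 < (q : ℝ) * Real.log X ^ κ := by positivity
    calc (R : ℝ) ^ e / X' * ∑ j ∈ range L, (1 / 2 : ℝ) ^ j ≤
          (X : ℝ) ^ (1 / 4 : ℝ) / (X / 3) * 2 := by
          refine mul_le_mul (div_le_div₀ (by positivity) hRe (by positivity) hX'3) hgeo ?_ ?_
          · exact sum_nonneg fun j _ => by positivity
          · positivity
      _ = (X : ℝ) ^ (1 / 4 : ℝ) * 6 / X := by field_simp; norm_num
      _ ≤ (X : ℝ) ^ (3 / 8 : ℝ) / X := div_le_div_of_nonneg_right hX18 hX0.le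
      _ = ((X : ℝ) ^ (5 / 8 : ℝ))⁻¹ := by
          rw [← Real.rpow_neg hX0.le]
          nth_rewrite 2 [← Real.rpow_one (X : ℝ)]
          rw [← Real.rpow_sub hX0]
          norm_num
      _ ≤ ((X : ℝ) ^ (1 / 4 : ℝ))⁻¹ := inv_anti₀ (by positivity)
          (Real.rpow_le_rpow_of_exponent_le hX1' (by norm_num))
      _ ≤ (q * Real.log X ^ κ)⁻¹ := inv_anti₀ h7 h6
      _ = 1 / (q * Real.log X ^ κ) := (one_div _).symm
      _ ≤ Real.log X / (q * Real.log X ^ κ) := div_le_div_of_nonneg_right hlX h7.le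
  have hPI : PIj W R κ ≤ (ra W0 * (16 * e)) ^ κ * (ra q * ra W') ^ κ / Real.log X ^ κ := by
    refine (PIj_le W R κ hPSκ).trans ?_
    rw [← mul_pow, ← div_pow]
    have h5 := prb W R hW1 hR2
    have hlR0 : 0 < Real.log R := lt_of_lt_of_le (by positivity) hlR
    have hφ : (0 : ℝ) < W.totient := by exact_mod_cast Nat.totient_pos.2 hW1
    have h6 : PIj W R 1 ≤ ra W / Real.log R := by
      unfold ra
      rw [div_div, le_div_iff₀ (by positivity)]
      calc PIj W R 1 * (W.totient * Real.log R) = PIj W R 1 * Real.log R * W.totient := by ring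
        _ ≤ W := h5
    have h7 : ra W ≤ ra W0 * (ra q * ra W') := by
      rw [hW]
      have hqW : 1 ≤ q * W' := Nat.one_le_iff_ne_zero.2 (by positivity)
      exact (ra_mul hW01 hqW).trans (mul_le_mul_of_nonneg_left (ra_mul hq hW') hraW.le)
    have hPI10 : 0 ≤ PIj W R 1 := PIj_nonneg W R 1 fun p hp => (mem_filter.1 hp).2.1.one_le
    refine pow_le_pow_left₀ hPI10 (h6.trans ?_) κ
    have h8 : 0 < ra q := ra_pos hq
    have h9 : 0 < ra W' := ra_pos hW'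
    calc ra W / Real.log R ≤ ra W0 * (ra q * ra W') / (a / 2 * Real.log X) :=
          div_le_div₀ (by positivity) h7 (by positivity) hlR
      _ = ra W0 * (16 * e) * (ra q * ra W') / Real.log X := by
          rw [ha]
          field_simp
          norm_num
  have h8 : 1 ≤ (ra q * ra W') ^ κ := by
    refine one_le_pow₀ ?_
    exact one_le_mul_of_one_le_of_one_le (one_le_ra hq) (one_le_ra hW')
  have h9 : 0 < Real.log X := by linarith
  calc ∑ N ∈ S, 1 / (N : ℝ) ≤ L * (2 * PIj W R κ / q) +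
        (R : ℝ) ^ e / X' * ∑ j ∈ range L, (1 / 2 : ℝ) ^ j := hsum
    _ ≤ ((2 * K + 1) * Real.log X) * (2 * ((ra W0 * (16 * e)) ^ κ * (ra q * ra W') ^ κ /
          Real.log X ^ κ) / q) + Real.log X / (q * Real.log X ^ κ) := by
        refine add_le_add ?_ herr
        refine mul_le_mul hLle ?_ (by positivity) (by positivity)
        exact div_le_div_of_nonneg_right (mul_le_mul_of_nonneg_left hPI (by norm_num)) hq0.le
    _ ≤ ((2 * K + 1) * Real.log X) * (2 * ((ra W0 * (16 * e)) ^ κ * (ra q * ra W') ^ κ /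
          Real.log X ^ κ) / q) + (ra q * ra W') ^ κ * (Real.log X / (q * Real.log X ^ κ)) := by
        refine add_le_add le_rfl ?_
        exact le_mul_of_one_le_left (by positivity) h8
    _ = C * (ra q * ra W') ^ κ * Real.log X / (q * Real.log X ^ κ) := by
        rw [hC]
        field_simp
        try ring

end Pool.Agent.Y835.SC
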