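import Pool.Agent.Y835.SC.Unc
import Pool.Agent.Y835.SC.Rem
import Pool.Agent.Y835.SC.SLog

/-!
The integers `h' ≤ H` in a residue class such that `b + h'` is coprime to `q`: upper bounds.
-/

set_option autoImplicit false

namespace Pool.Agent.Y835.SC

open Finset

theorem ra_V {q : ℕ} (hq : 0 < q) : V q.primeFactors = (ra q)⁻¹ := by
  rw [V_primeFactors hq, ra, inv_div]

/-- the prime factors above `log X` -/
theorem big_V {q y : ℕ} (hq : 0 < q) {ℓ : ℝ} (hqℓ : Real.log q ≤ ℓ) (hy : 3 ≤ y) (hℓ : ℓ ≤ y) :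
    1 / 8 ≤ V (q.primeFactors.filter (fun p => y < p)) := by
  have hP : ∀ p ∈ q.primeFactors.filter (fun p => y < p), p.Prime := fun p hp =>
    Nat.prime_of_mem_primeFactors (mem_filter.1 hp).1
  have hy3 : (3 : ℝ) ≤ y := by exact_mod_cast hy
  have hy0 : (0 : ℝ) < y := by linarith
  have hly : 1 ≤ Real.log y := by
    rw [Real.le_log_iff_exp_le hy0]
    have := Real.exp_one_lt_d9
    linarith
  have h1 := big_card (y := y) hq
  have h2 : ((q.primeFactors.filter (fun p => y < p)).card : ℝ) ≤ y := by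
    have h3 : (0 : ℝ) ≤ ((q.primeFactors.filter (fun p => y < p)).card : ℝ) := Nat.cast_nonneg _
    nlinarith
  have h3 : ∑ p ∈ q.primeFactors.filter (fun p => y < p), 1 / (p : ℝ) ≤ 1 := by
    refine (sum_le_card_nsmul _ _ (1 / (y : ℝ)) fun p hp => ?_).trans ?_
    · exact one_div_le_one_div_of_le hy0 (by exact_mod_cast (mem_filter.1 hp).2.le)
    · rw [nsmul_eq_mul, mul_one_div, div_le_one hy0]
      exact h2
  have h4 := V_sdiff (A := q.primeFactors.filter (fun p => y < p))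
    (B := q.primeFactors.filter (fun p => y < p)) hP hP h3
  rw [sdiff_self] at h4
  have h5 : V (⊥ : Finset ℕ) = 1 := by
    show V ∅ = 1
    unfold V
    simp
  rw [h5] at h4
  linarith

theorem V_split {P : Finset ℕ} (w : ℕ) :
    V P = V (P.filter (fun p => p ≤ w)) * V (P.filter (fun p => w < p)) := by
  classical
  rw [← V_disj]
  · congr 1
    ext p
    simp only [mem_union, mem_filter]
    constructor
    · intro h
      rcases le_or_gt p w with h1 | h1
      · exact Or.inl ⟨h, h1⟩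
      · exact Or.inr ⟨h, h1⟩
    · rintro (h | h)
      · exact h.1
      · exact h.1
  · rw [disjoint_left]
    intro p hp hp'
    have h3 := (mem_filter.1 hp).2
    have h4 := (mem_filter.1 hp').2
    omega

/-- the prime factors up to `w` -/
theorem small_V : ∃ c : ℝ, 0 < c ∧ c ≤ 1 ∧ ∀ q y w : ℕ, ∀ ℓ t : ℝ, 0 < q → Real.log q ≤ ℓ →
    3 ≤ y → ℓ ≤ y → 2 ≤ w → 0 < t → t ≤ 1 → t * Real.log y ≤ Real.log w →
    V (q.primeFactors.filter (fun p => p ≤ w)) ≤ 1 / (c * t) * (ra q)⁻¹ := by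
  obtain ⟨cR, hcR, hcR1, RAT⟩ := V_ratio
  refine ⟨cR / 8, by positivity, by linarith, ?_⟩
  intro q y w ℓ t hq hqℓ hy hℓ hw ht ht1 htw
  have hpp : ∀ p ∈ q.primeFactors, p.Prime := fun p hp => Nat.prime_of_mem_primeFactors hp
  obtain ⟨x, hx⟩ : ∃ x : ℕ, x = max w y := ⟨_, rfl⟩
  have hwx : w ≤ x := by rw [hx]; exact le_max_left _ _
  have hyx : y ≤ x := by rw [hx]; exact le_max_right _ _
  have hx3 : 3 ≤ x := hy.trans hyx
  have h1 := big_V hq hqℓ hx3 (hℓ.trans (by exact_mod_cast hyx))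
  have h2 := V_split (P := q.primeFactors) w
  have h3 := V_split (P := q.primeFactors.filter (fun p => w < p)) x
  have h4 : (q.primeFactors.filter (fun p => w < p)).filter (fun p => x < p) =
      q.primeFactors.filter (fun p => x < p) := by
    rw [filter_filter]
    refine filter_congr fun p _ => ?_
    constructor
    · exact fun h => h.2
    · exact fun h => ⟨by omega, h⟩
  rw [h4] at h3
  have h5 := RAT w x hw hwx ((q.primeFactors.filter (fun p => w < p)).filter (fun p => p ≤ x))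
    (fun p hp => by
      rw [mem_filter, mem_filter] at hp
      exact ⟨hpp p hp.1.1, hp.1.2, hp.2⟩)
  have hlw : 0 < Real.log w := Real.log_pos (by exact_mod_cast (by omega : 1 < w))
  have hlx : 0 < Real.log x := Real.log_pos (by exact_mod_cast (by omega : 1 < x))
  have h6 : t ≤ Real.log w / Real.log x := by
    rw [le_div_iff₀ hlx]
    have h7 : x = w ∨ x = y := by rw [hx]; omega
    rcases h7 with h7 | h7
    · rw [h7]; nlinarith
    · rw [h7]; exact htw
  have hVw : 0 < V (q.primeFactors.filter (fun p => p ≤ w)) :=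
    V_pos fun p hp => hpp p (mem_filter.1 hp).1
  have h7 : cR * t ≤ V ((q.primeFactors.filter (fun p => w < p)).filter (fun p => p ≤ x)) :=
    le_trans (mul_le_mul_of_nonneg_left h6 hcR.le) h5
  have h8 : cR / 8 * t ≤ V (q.primeFactors.filter (fun p => w < p)) := by
    rw [h3]
    calc cR / 8 * t = (cR * t) * (1 / 8) := by ring
      _ ≤ _ := mul_le_mul h7 h1 (by norm_num) (le_trans (by positivity) h7)
  have h9 : V (q.primeFactors.filter (fun p => p ≤ w)) * (cR / 8 * t) ≤ (ra q)⁻¹ := by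
    rw [← ra_V hq, h2]
    exact mul_le_mul_of_nonneg_left h8 hVw.le
  rw [one_div, inv_mul_eq_div, le_div_iff₀ (by positivity)]
  exact h9

/-- `q / φ(q)` is small -/
theorem ra_le : ∃ C : ℝ, 0 < C ∧ ∀ q y : ℕ, ∀ ℓ : ℝ, 0 < q → Real.log q ≤ ℓ → 3 ≤ y → ℓ ≤ y →
    ra q ≤ C * Real.log y := by
  obtain ⟨cM, hcM, HM⟩ := Pool.Agent.Y835.SB.prod_ge
  refine ⟨8 / cM, by positivity, fun q y ℓ hq hqℓ hy hℓ => ?_⟩
  have hpp : ∀ p ∈ q.primeFactors, p.Prime := fun p hp => Nat.prime_of_mem_primeFactors hp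
  have h1 := big_V hq hqℓ hy hℓ
  have h2 := HM y (by omega) (q.primeFactors.filter (fun p => p ≤ y)) (fun p hp => by
    rw [mem_filter] at hp
    exact ⟨hpp p hp.1, hp.2⟩)
  have h3 := V_split (P := q.primeFactors) y
  have hly : 0 < Real.log y := Real.log_pos (by exact_mod_cast (by omega : 1 < y))
  have hra := ra_pos hq
  have h4 : cM / Real.log y * (1 / 8) ≤ (ra q)⁻¹ := by
    rw [← ra_V hq, h3]
    exact mul_le_mul h2 h1 (by norm_num) (le_trans (by positivity) h2)
  have h5 : ra q ≤ (cM / Real.log y * (1 / 8))⁻¹ := by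
    rw [← inv_inv (ra q)]
    exact inv_anti₀ (by positivity) h4
  refine h5.trans (le_of_eq ?_)
  field_simp

/-- `d / φ(d)` is at most a small power of `d` -/
theorem ra_pow : ∃ C : ℝ, 0 < C ∧ ∀ d : ℕ, 1 ≤ d → ra d ≤ C * (d : ℝ) ^ (1 / 4 : ℝ) := by
  obtain ⟨C, hC, H⟩ := ra_le
  refine ⟨C * 10, by positivity, fun d hd => ?_⟩
  have hd0 : (1 : ℝ) ≤ d := by exact_mod_cast hd
  have h1 := H d (d + 3) (Real.log d) hd le_rfl (by omega) (by
    have := Real.log_le_sub_one_of_pos (show (0 : ℝ) < d by linarith)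
    push_cast
    linarith)
  refine h1.trans ?_
  rw [mul_assoc]
  refine mul_le_mul_of_nonneg_left ?_ hC.le
  have h2 : Real.log ((d + 3 : ℕ) : ℝ) ≤ Real.log (4 * d) :=
    Real.log_le_log (by positivity) (by push_cast; linarith)
  rw [Real.log_mul (by norm_num) (by linarith)] at h2
  have h3 := Real.log_le_rpow_div (x := (d : ℝ)) (by linarith) (show (0 : ℝ) < 1 / 4 by norm_num)
  have h4 : Real.log 4 ≤ 2 := by
    have h5 : Real.log 4 = 2 * Real.log 2 := by
      rw [show (4 : ℝ) = 2 ^ 2 by norm_num, Real.log_pow]; norm_num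
    have := Real.log_two_lt_d9
    linarith
  have h5 : 1 ≤ (d : ℝ) ^ (1 / 4 : ℝ) := Real.one_le_rpow hd0 (by norm_num)
  have h6 : (d : ℝ) ^ (1 / 4 : ℝ) / (1 / 4) = 4 * (d : ℝ) ^ (1 / 4 : ℝ) := by ring
  rw [h6] at h3
  linarith

end Pool.Agent.Y835.SC
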