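import Pool.Agent.Y835.SC.Up

/-!
The average of `(k / φ(k)) ^ 2` over the differences of the integers `h` such that `b + h` is
coprime to `q`.
-/

set_option autoImplicit false

namespace Pool.Agent.Y835.SC

open Finset

/-- `(k / φ(k)) ^ 2` as a divisor sum -/
theorem ra_sq (k : ℕ) (hk : 1 ≤ k) :
    ra k ^ 2 ≤ 4 ^ 16 * ∑ d ∈ k.divisors, (d : ℝ) ^ (-(1 / 2) : ℝ) := by
  classical
  have hpp : ∀ p ∈ k.primeFactors, p.Prime := fun p hp => Nat.prime_of_mem_primeFactors hp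
  have h1 : ra k = ∏ p ∈ k.primeFactors, (1 - 1 / (p : ℝ))⁻¹ := by
    rw [prod_inv_distrib]
    have := ra_V (q := k) hk
    unfold V at this
    rw [this, inv_inv]
  have h2 : ∀ p ∈ k.primeFactors, ((1 - 1 / (p : ℝ))⁻¹) ^ 2 ≤
      (if p ≤ 16 then (4 : ℝ) else 1) * (1 + (p : ℝ) ^ (-(1 / 2) : ℝ)) := by
    intro p hp
    have hp2 : (2 : ℝ) ≤ p := by exact_mod_cast (hpp p hp).two_le
    have hp0 : (0 : ℝ) < p := by linarith
    have hx : 0 < (p : ℝ) ^ (-(1 / 2) : ℝ) := by positivity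
    split_ifs with h16
    · have h3 : (1 - 1 / (p : ℝ))⁻¹ ≤ 2 := by
        rw [← inv_inv (2 : ℝ)]
        refine inv_anti₀ (by norm_num) ?_
        have : 1 / (p : ℝ) ≤ 1 / 2 := one_div_le_one_div_of_le (by norm_num) hp2
        norm_num at this ⊢
        linarith
      have h4 : 0 < (1 - 1 / (p : ℝ))⁻¹ := inv_pos.2 (f_nonneg (hpp p hp).two_le)
      nlinarith
    · have hp17 : (16 : ℝ) ≤ p := by exact_mod_cast (by omega : 16 ≤ p)
      obtain ⟨x, hxd⟩ : ∃ x : ℝ, x = (p : ℝ) ^ (1 / 2 : ℝ) := ⟨_, rfl⟩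
      have hx4 : 4 ≤ x := by
        rw [hxd]
        have h5 : ((4 : ℝ) ^ 2) ^ (1 / 2 : ℝ) ≤ (p : ℝ) ^ (1 / 2 : ℝ) :=
          Real.rpow_le_rpow (by norm_num) (by norm_num; exact_mod_cast (by omega : 16 ≤ p))
            (by norm_num)
        rw [← Real.rpow_natCast, ← Real.rpow_mul (by norm_num)] at h5
        norm_num at h5
        norm_num
        exact h5
      have hx2 : (p : ℝ) = x ^ 2 := by
        rw [hxd, ← Real.rpow_natCast, ← Real.rpow_mul hp0.le]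
        norm_num
      have hxi : (p : ℝ) ^ (-(1 / 2) : ℝ) = x⁻¹ := by rw [hxd, Real.rpow_neg hp0.le]
      have hx0 : 0 < x := by linarith
      have e1 : (1 - 1 / (p : ℝ))⁻¹ = x ^ 2 / (x ^ 2 - 1) := by
        rw [hx2]
        have : x ^ 2 - 1 ≠ 0 := by nlinarith
        field_simp
      rw [hxi, e1, one_mul, div_pow, div_le_iff₀ (by
        have : 0 < x ^ 2 - 1 := by nlinarith
        positivity)]
      have e2 : (1 + x⁻¹) * (x ^ 2 - 1) ^ 2 = (x + 1) * (x ^ 2 - 1) ^ 2 / x := by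
        field_simp
      rw [e2, le_div_iff₀ hx0]
      have h6 : 0 ≤ x ^ 2 * (x ^ 2 - 2 * x - 2) := by
        have : 0 ≤ x ^ 2 - 2 * x - 2 := by nlinarith
        positivity
      nlinarith
  have h3 : ra k ^ 2 ≤ ∏ p ∈ k.primeFactors,
      ((if p ≤ 16 then (4 : ℝ) else 1) * (1 + (p : ℝ) ^ (-(1 / 2) : ℝ))) := by
    rw [h1, ← prod_pow]
    exact prod_le_prod (fun p _ => by positivity) h2
  rw [prod_mul_distrib] at h3
  have h4 : ∏ p ∈ k.primeFactors, (if p ≤ 16 then (4 : ℝ) else 1) ≤ 4 ^ 16 := by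
    rw [← prod_filter, prod_const]
    refine pow_le_pow_right₀ (by norm_num) ?_
    have h5 : k.primeFactors.filter (fun p => p ≤ 16) ⊆ Icc 1 16 := by
      intro p hp
      rw [mem_filter] at hp
      exact mem_Icc.2 ⟨(hpp p hp.1).one_le, hp.2⟩
    have := card_le_card h5
    simpa using this
  have h5 : ∏ p ∈ k.primeFactors, (1 + (p : ℝ) ^ (-(1 / 2) : ℝ)) ≤
      ∑ d ∈ k.divisors, (d : ℝ) ^ (-(1 / 2) : ℝ) := by
    rw [prod_one_add]
    have h6 : ∀ T ∈ k.primeFactors.powerset, ∏ p ∈ T, (p : ℝ) ^ (-(1 / 2) : ℝ) =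
        ((∏ p ∈ T, p : ℕ) : ℝ) ^ (-(1 / 2) : ℝ) := by
      intro T _
      rw [Real.finset_prod_rpow _ _ fun p _ => Nat.cast_nonneg p]
      push_cast
      rfl
    rw [sum_congr rfl h6]
    have h7 : ∑ T ∈ k.primeFactors.powerset, ((∏ p ∈ T, p : ℕ) : ℝ) ^ (-(1 / 2) : ℝ) =
        ∑ d ∈ k.primeFactors.powerset.image (fun T => ∏ p ∈ T, p), (d : ℝ) ^ (-(1 / 2) : ℝ) := by
      rw [sum_image]
      intro T hT T' hT' heq
      have hT1 := mem_powerset.1 (mem_coe.1 hT)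
      have hT1' := mem_powerset.1 (mem_coe.1 hT')
      have e1 := Nat.primeFactors_prod (s := T) fun p hp => hpp p (hT1 hp)
      have e2 := Nat.primeFactors_prod (s := T') fun p hp => hpp p (hT1' hp)
      rw [← e1, ← e2]
      exact congrArg Nat.primeFactors heq
    rw [h7]
    refine sum_le_sum_of_subset_of_nonneg (fun d hd => ?_) fun d _ _ => by positivity
    rw [mem_image] at hd
    obtain ⟨T, hT, rfl⟩ := hd
    rw [Nat.mem_divisors]
    refine ⟨Finset.prod_primes_dvd k (fun p hp => (hpp p (mem_powerset.1 hT hp)).prime)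
      (fun p hp => Nat.dvd_of_mem_primeFactors (mem_powerset.1 hT hp)), by omega⟩
  refine h3.trans (mul_le_mul h4 h5 ?_ (by positivity))
  exact prod_nonneg fun p _ => by positivity

open Classical in
/-- in a residue class -/
theorem unc_class : ∃ (C : ℝ) (X0 : ℕ), 0 < C ∧ ∀ X : ℕ, X0 ≤ X → ∀ q b H h0 d : ℕ, 0 < q →
    q ≤ X → Real.log X ≤ H → 1 ≤ d → (d : ℝ) ^ 2 ≤ H →
    (((Icc 1 H).filter (fun h => (b + h).Coprime q ∧ h % d = h0 % d)).card : ℝ) ≤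
      C * (H / d * ra d * (ra q)⁻¹) := by
  obtain ⟨τ, K1, hτ0, hτ1, hK1, REM⟩ := rem_bound
  obtain ⟨cV, hcV, hcV1, HV⟩ := small_V
  have hev : ∀ᶠ ℓ : ℝ in Filter.atTop, 3 ≤ ℓ ∧ K1 ≤ ℓ ^ (1 / 2 : ℝ) :=
    (Filter.eventually_ge_atTop 3).and
      ((tendsto_rpow_atTop (by norm_num)).eventually_ge_atTop _)
  have hev2 := (Real.tendsto_log_atTop.comp
    (tendsto_natCast_atTop_atTop (R := ℝ))).eventually hev
  obtain ⟨X0, hX0⟩ := Filter.eventually_atTop.1 hev2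
  refine ⟨3 * (1 / (cV * (τ / 8))), X0, by positivity, ?_⟩
  intro X hX q b H h0 d hq hqX hH hd hdH
  obtain ⟨h3, h4⟩ := hX0 X hX
  simp only [Function.comp] at h3 h4
  obtain ⟨ℓ, hℓ⟩ : ∃ ℓ, ℓ = Real.log X := ⟨_, rfl⟩
  rw [← hℓ] at h3 h4 hH
  have hℓ0 : 0 < ℓ := by linarith
  have hqℓ : Real.log q ≤ ℓ := by
    rw [hℓ]
    exact Real.log_le_log (by exact_mod_cast hq) (by exact_mod_cast hqX)
  obtain ⟨κ, hκ⟩ : ∃ κ : ℝ, κ = (H : ℝ) ^ (1 / 2 : ℝ) := ⟨_, rfl⟩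
  have hH0 : (0 : ℝ) < H := by linarith
  have hκ1 : K1 ≤ κ := h4.trans (by
    rw [hκ]; exact Real.rpow_le_rpow hℓ0.le hH (by norm_num))
  have hκκ : κ * κ = H := by
    rw [hκ, ← Real.rpow_add hH0]; norm_num
  have hκ0 : 0 < κ := by rw [hκ]; positivity
  obtain ⟨w, hw⟩ : ∃ w : ℕ, w = ⌊κ ^ τ⌋₊ := ⟨_, rfl⟩
  obtain ⟨hw3, hwl, REM'⟩ := REM κ hκ1 w hw
  obtain ⟨y, hy⟩ : ∃ y : ℕ, y = ⌈ℓ⌉₊ := ⟨_, rfl⟩
  have hyℓ : ℓ ≤ y := by rw [hy]; exact Nat.le_ceil _
  have hy3 : 3 ≤ y := by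
    have : (3 : ℝ) ≤ y := by linarith
    exact_mod_cast this
  have hy2 : (y : ℝ) ≤ ℓ ^ 2 := by
    have h5 : (y : ℝ) < ℓ + 1 := by rw [hy]; exact Nat.ceil_lt_add_one hℓ0.le
    nlinarith
  have hlogy : Real.log y ≤ 2 * Real.log ℓ := by
    have h5 := Real.log_le_log (by linarith : (0 : ℝ) < y) hy2
    rw [Real.log_pow] at h5
    exact_mod_cast h5
  have hlogw : τ / 4 * Real.log ℓ ≤ Real.log w := by
    have h5 : Real.log (κ ^ (τ / 2)) ≤ Real.log w := Real.log_le_log (by positivity) hwl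
    rw [hκ, ← Real.rpow_mul hH0.le, Real.log_rpow hH0] at h5
    have h6 : Real.log ℓ ≤ Real.log H := Real.log_le_log hℓ0 hH
    have h7 : 1 / 2 * (τ / 2) * Real.log ℓ ≤ 1 / 2 * (τ / 2) * Real.log H :=
      mul_le_mul_of_nonneg_left h6 (by positivity)
    linarith
  have hVw := HV q y w ℓ (τ / 8) hq hqℓ hy3 hyℓ (by omega) (by positivity) (by linarith) (by
    calc τ / 8 * Real.log y ≤ τ / 8 * (2 * Real.log ℓ) :=
          mul_le_mul_of_nonneg_left hlogy (by positivity)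
      _ = τ / 4 * Real.log ℓ := by ring
      _ ≤ _ := hlogw)
  have hpp : ∀ p ∈ q.primeFactors, p.Prime := fun p hp => Nat.prime_of_mem_primeFactors hp
  obtain ⟨Pw, hPw⟩ : ∃ Pw, Pw = q.primeFactors.filter (fun p => p ≤ w) := ⟨_, rfl⟩
  obtain ⟨P', hP'⟩ : ∃ P', P' = Pw.filter (fun p => ¬ p ∣ d) := ⟨_, rfl⟩
  have hPwp : ∀ p ∈ Pw, p.Prime := fun p hp => by
    rw [hPw, mem_filter] at hp; exact hpp p hp.1
  have hP'p : ∀ p ∈ P', p.Prime ∧ p ≤ w := fun p hp => by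
    rw [hP', mem_filter, hPw, mem_filter] at hp; exact ⟨hpp p hp.1.1, hp.1.2⟩
  rw [← hPw] at hVw
  have hVd : V P' ≤ V Pw * ra d := by
    have h5 : V Pw = V (Pw.filter (fun p => p ∣ d)) * V P' := by
      rw [hP', ← V_disj, filter_union_filter_not_eq]
      exact disjoint_filter_filter_not _ _ _
    have h6 : V d.primeFactors ≤ V (Pw.filter (fun p => p ∣ d)) :=
      V_anti (fun p hp => by
        rw [mem_filter] at hp
        exact Nat.mem_primeFactors.2 ⟨hPwp p hp.1, hp.2, by omega⟩)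
        fun p hp => Nat.prime_of_mem_primeFactors hp
    rw [ra_V hd] at h6
    have h7 := ra_pos hd
    have h8 : 0 < V P' := V_pos fun p hp => (hP'p p hp).1
    rw [h5]
    calc V P' = (ra d)⁻¹ * V P' * ra d := by field_simp
      _ ≤ V (Pw.filter (fun p => p ∣ d)) * V P' * ra d := by gcongr
  -- the Chinese remainder theorem
  have hco : (∏ p ∈ P', p).Coprime d := by
    rw [Nat.coprime_prod_left_iff]
    intro p hp
    rw [Nat.Prime.coprime_iff_not_dvd (hP'p p hp).1]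
    rw [hP', mem_filter] at hp
    exact hp.2
  obtain ⟨n', hn1, hn2⟩ := Nat.chineseRemainder hco b (d - h0 % d)
  have hsub : (Icc 1 H).filter (fun h => (b + h).Coprime q ∧ h % d = h0 % d) ⊆
      (Icc 1 H).filter (fun h => d ∣ n' + h ∧ ∀ p ∈ P', ¬ p ∣ n' + h) := by
    intro h hh
    rw [mem_filter] at hh ⊢
    refine ⟨hh.1, ?_, fun p hp hpd => ?_⟩
    · have h5 : n' + h ≡ (d - h0 % d) + h0 % d [MOD d] := by
        refine Nat.ModEq.add hn2 ?_
        unfold Nat.ModEq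
        rw [hh.2.2, Nat.mod_mod]
      have h6 : (d - h0 % d) + h0 % d = d := by
        have := Nat.mod_lt h0 hd
        omega
      rw [h6] at h5
      exact (Nat.modEq_zero_iff_dvd).1 (h5.trans (Nat.modEq_zero_iff_dvd.2 dvd_rfl))
    · have h5 : n' + h ≡ b + h [MOD p] :=
        (Nat.ModEq.of_dvd (dvd_prod_of_mem (fun p => p) hp) hn1).add_right h
      have h6 : p ∣ b + h := (Nat.modEq_zero_iff_dvd).1
        (h5.symm.trans (Nat.modEq_zero_iff_dvd.2 hpd))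
      have h7 : p ∣ q := by
        rw [hP', mem_filter, hPw, mem_filter] at hp
        exact Nat.dvd_of_mem_primeFactors hp.1.1
      exact Nat.not_coprime_of_dvd_of_dvd (hP'p p hp).1.one_lt h6 h7 hh.2.1
  have hrem := REM' P' hP'p d hd (fun p hp => by
    rw [hP', mem_filter] at hp; exact hp.2) n' H (by
    have h5 : (d : ℝ) ≤ κ := by
      have h6 : (d : ℝ) ^ 2 ≤ κ ^ 2 := by rw [sq κ, hκκ]; exact hdH
      exact le_of_pow_le_pow_left₀ (by norm_num) hκ0.le h6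
    calc κ * d ≤ κ * κ := mul_le_mul_of_nonneg_left h5 hκ0.le
      _ = H := hκκ)
  have hd0 : (0 : ℝ) < d := by exact_mod_cast hd
  have hrad := ra_pos hd
  calc (((Icc 1 H).filter (fun h => (b + h).Coprime q ∧ h % d = h0 % d)).card : ℝ) ≤
        (((Icc 1 H).filter (fun h => d ∣ n' + h ∧ ∀ p ∈ P', ¬ p ∣ n' + h)).card : ℝ) := by
        exact_mod_cast card_le_card hsub
    _ ≤ 3 * (H / d * V P') := hrem
    _ ≤ 3 * (H / d * (V Pw * ra d)) := by gcongr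
    _ ≤ 3 * (H / d * ((1 / (cV * (τ / 8)) * (ra q)⁻¹) * ra d)) := by gcongr
    _ = 3 * (1 / (cV * (τ / 8))) * (H / d * ra d * (ra q)⁻¹) := by ring

end Pool.Agent.Y835.SC
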